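import Pool.Agent.Work.MP_1233f5_ag.Z.Glue

/-! MP_1233f5_ag, block Z (captain helper39): the main theorem for every admissible function. -/

set_option autoImplicit false

namespace Pool.Agent.Work.MP_1233f5_ag.Z

open Finset
open Pool.Agent.Work.MP_1233f5_ag.V (vm ML theta rVan)
open Pool.Agent.Work.MP_1233f5_ag.Y

/-- `v` is admissible: every value comes from `theta`, from the previous value, or from the
excluded triples. -/
def Adm (d : ℕ) (v : ℕ → ℕ) : Prop := ∀ T, v T = 0 ∨ (T = 2 * d - 1 ∧ v T ≤ theta d T) ∨
  v T ≤ min (theta d T) (v (T - 1) + T / (d - 1) + 1) ∨ ∀ p < v T, fb d v (T + 1 - d) p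

theorem adm_ML (K : Type) [Field K] [CharZero K] (d : ℕ) (hd : 3 ≤ d) (v : ℕ → ℕ)
    (hv : Adm d v) : ∀ T p, p < v T → ML K d T p := by
  intro T
  induction T using Nat.strong_induction_on with
  | _ T ihT =>
    intro p
    rcases T with _ | T
    · intro hp
      exfalso
      rcases hv 0 with h | ⟨h, -⟩ | h | h
      · omega
      · omega
      · have h1 : theta d 0 = 0 := by
          simp [theta]
        have h2 := h.trans (min_le_left _ _)
        omega
      · have h1 := h p hp 0 (Nat.zero_le _)
        rw [show 0 + 1 - d = 0 by omega] at h1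
        exact h1
    · induction p using Nat.strong_induction_on with
      | _ p ihp =>
        intro hp
        rcases hv (T + 1) with h | ⟨hT, h⟩ | h | h
        · omega
        · refine h_Main3 K d (T + 1) p hd ?_
          rw [bnd3, if_pos hT]
          exact lt_of_lt_of_le hp h
        · have hp1 : p < theta d (T + 1) := lt_of_lt_of_le hp (h.trans (min_le_left _ _))
          have hp2 : p < v T + (T + 1) / (d - 1) + 1 := by
            have := lt_of_lt_of_le hp (h.trans (min_le_right _ _))
            rwa [Nat.add_sub_cancel] at this
          have hd1 : 0 < d - 1 := by omega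
          have hlt : T + 1 < ((T + 1) / (d - 1) + 1) * (d - 1) := by
            have := Nat.lt_div_mul_add (a := T + 1) hd1
            rw [Nat.add_mul, one_mul]
            exact this
          unfold theta at hp1
          generalize hq : (T + 1) / (d - 1) = q at hp1 hp2 hlt
          refine Pool.Agent.Work.MP_1233f5_ag.V.h_Step K d (T + 1) p (q + 1)
            ((q + 1) * (d - 1) - (T + 1)) (by omega)
            (Nat.le_add_left _ _) (Nat.le_add_left _ _) (Nat.add_sub_of_le hlt.le) ?_ ?_ ?_
          · have e1 : d + (q + 1) - 1 = d + q := by omega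
            have e2 : (q + 1) * (d - 1) - (T + 1) + (q + 1) - 1
                = (q + 1) * (d - 1) - (T + 1) + q := by omega
            rw [e1, e2, Nat.add_sub_cancel]
            omega
          · intro p' hp'
            exact ihp p' (by omega) (lt_trans (by omega) hp)
          · intro p' hp'
            exact ihT T (Nat.lt_succ_self T) p' (by omega)
        · obtain ⟨r, rfl⟩ : ∃ r, d = r + 1 := ⟨d - 1, by omega⟩
          have hf := h p hp
          have hpos : T + 1 + 1 - (r + 1) ≠ 0 := by
            intro h0
            rw [h0] at hf
            exact hf 0 (Nat.zero_le _)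
          have hsound : ∀ T' n, n < (fun T' => if T' ≤ T then v T' else 0) T' →
              VV K (r + 1) T' n := by
            intro T' n hn
            by_cases hT' : T' ≤ T
            · simp only [if_pos hT'] at hn
              exact (h_Rlb K (r + 1) T' n).1.1 (ihT T' (by omega) n hn)
            · simp only [if_neg hT'] at hn
              exact absurd hn (Nat.not_lt_zero n)
          have hf' : fb (r + 1) (fun T' => if T' ≤ T then v T' else 0) (T + 1 + 1 - (r + 1)) p := by
            intro s hs
            refine (pr_Zb1 (r + 1) v).2.2.1 _ _ ?_ s _ (hf s hs)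
            intro T' hT'
            show v T' = if T' ≤ T then v T' else 0
            rw [if_pos (by omega)]
          have h1 := h_StarF K r _ (by omega) hsound _ p hf'
          have h2 : T + 1 + 1 - (r + 1) + r = T + 1 := by omega
          rw [h2] at h1
          exact (h_Rlb K (r + 1) (T + 1) p).1.2 h1

theorem adm_bnd3 (d : ℕ) : Adm d (bnd3 d) := by
  intro T
  rcases T with _ | T
  · exact Or.inl rfl
  · by_cases hT : T + 1 = 2 * d - 1
    · refine Or.inr (Or.inl ⟨hT, ?_⟩)
      rw [bnd3, if_pos hT]
    · refine Or.inr (Or.inr (Or.inl ?_))
      rw [bnd3, if_neg hT, Nat.add_sub_cancel]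

end Pool.Agent.Work.MP_1233f5_ag.Z
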