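import Pool.Agent.Work.MP_1233f5_ag.Z.Stmts

/-! MP_1233f5_ag, block Z, item Av: averaging over the colour preserving permutations of `P \ Q`. -/

set_option autoImplicit false

namespace Pool.Agent.Work.MP_1233f5_ag.Z

open Finset
open Pool.Agent.Work.MP_1233f5_ag.V (vm ML theta rVan)
open Pool.Agent.Work.MP_1233f5_ag.Y

namespace IAv

section grp

variable {α : Type}

/-- the colour preserving permutations of `R`. -/
def Gp (χ : α → ℕ) (R : Finset α) (σ : Equiv.Perm α) : Prop :=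
  Sup R σ ∧ ∀ a, χ (σ a) = χ a

theorem gp_one (χ : α → ℕ) (R : Finset α) : Gp χ R (1 : Equiv.Perm α) :=
  ⟨U.sup_one R, fun _ => rfl⟩

theorem gp_mul {χ : α → ℕ} {R : Finset α} {σ τ : Equiv.Perm α} (h1 : Gp χ R σ) (h2 : Gp χ R τ) :
    Gp χ R (σ * τ) := ⟨U.sup_mul h1.1 h2.1, fun a => by
  rw [Equiv.Perm.mul_apply, h1.2, h2.2]⟩

theorem gp_inv {χ : α → ℕ} {R : Finset α} {σ : Equiv.Perm α} (h1 : Gp χ R σ) :
    Gp χ R σ⁻¹ := ⟨U.sup_inv h1.1, fun a => by
  have h2 := h1.2 (σ⁻¹ a)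
  rw [U.app_inv] at h2
  exact h2.symm⟩

end grp

variable {K : Type} [Field K] {α : Type}

open Classical in
/-- the alternating sum. -/
noncomputable def avg [Fintype α] (χ : α → ℕ) (R : Finset α) : Lx K α →ₗ[K] Lx K α :=
  ∑ σ ∈ univ.filter (fun σ : Equiv.Perm α => Gp χ R σ),
    ((Equiv.Perm.sign σ : ℤ) : K) • (act K α σ : Lx K α →ₗ[K] Lx K α)

open Classical in
theorem avg_apply [Fintype α] [DecidableEq α] (χ : α → ℕ) (R : Finset α) (h : Lx K α) :
    avg χ R h = ∑ σ ∈ univ.filter (fun σ : Equiv.Perm α => Gp χ R σ),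
      ((Equiv.Perm.sign σ : ℤ) : K) • act K α σ h := by
  have hI : ‹DecidableEq α› = fun a b => Classical.propDecidable (a = b) :=
    Subsingleton.elim _ _
  subst hI
  unfold avg
  rw [LinearMap.sum_apply]
  rfl

theorem sg_mul [Fintype α] [DecidableEq α] (σ : Equiv.Perm α) :
    ((Equiv.Perm.sign σ : ℤ) : K) * ((Equiv.Perm.sign σ : ℤ) : K) = 1 := by
  rw [← Int.cast_mul, Int.units_coe_mul_self, Int.cast_one]

/-- the average of an alternating element. -/
theorem avg_alt [CharZero K] [Fintype α] [DecidableEq α] (χ : α → ℕ) (R : Finset α) :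
    ∃ N : K, N ≠ 0 ∧ ∀ h : Lx K α, Alc χ R h → avg χ R h = N • h := by
  classical
  refine ⟨((univ.filter (fun σ : Equiv.Perm α => Gp χ R σ)).card : K), ?_, ?_⟩
  · refine Nat.cast_ne_zero.2 (Nat.pos_iff_ne_zero.1 (card_pos.2 ⟨1, ?_⟩))
    simp only [mem_filter, mem_univ, true_and]
    exact gp_one χ R
  · intro h hh
    have h1 : ∀ σ : Equiv.Perm α, Gp χ R σ →
        ((Equiv.Perm.sign σ : ℤ) : K) • act K α σ h = h := by
      intro σ hσ
      rw [hh σ hσ.1 hσ.2, smul_smul, sg_mul, one_smul]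
    rw [avg_apply, sum_congr rfl (fun σ hσ => h1 σ (mem_filter.1 hσ).2), sum_const,
      Nat.cast_smul_eq_nsmul]

/-- averages are alternating. -/
theorem alc_avg [Fintype α] [DecidableEq α] (χ : α → ℕ) (R : Finset α) (h : Lx K α) :
    Alc χ R (avg χ R h) := by
  classical
  intro τ hτ1 hτ2
  have hτ : Gp χ R τ := ⟨hτ1, hτ2⟩
  rw [avg_apply, map_sum, smul_sum]
  refine sum_nbij' (fun σ => τ * σ) (fun σ => τ⁻¹ * σ) ?_ ?_ ?_ ?_ ?_
  · intro σ hσ
    simp only [mem_filter, mem_univ, true_and] at hσ ⊢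
    exact gp_mul hτ hσ
  · intro σ hσ
    simp only [mem_filter, mem_univ, true_and] at hσ ⊢
    exact gp_mul (gp_inv hτ) hσ
  · intro σ _
    exact inv_mul_cancel_left τ σ
  · intro σ _
    exact mul_inv_cancel_left τ σ
  · intro σ _
    have h1 : act K α (τ * σ) h = act K α τ (act K α σ h) := by
      rw [map_mul (act K α)]
      rfl
    rw [h1, map_smul, smul_smul]
    congr 1
    rw [Equiv.Perm.sign_mul, Units.val_mul, Int.cast_mul, ← mul_assoc, sg_mul, one_mul]

variable [DecidableEq α]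

theorem act_qn (σ : Equiv.Perm α) (b : ℕ) (η : ℕ → α) (n : ℕ → Finset α) :
    act K α σ (qn b η n) = qn b (fun i => σ (η i)) (fun i => im σ (n i)) := by
  unfold qn
  rw [map_sum]
  refine sum_congr rfl fun τ _ => ?_
  rw [map_smul, act_mo]
  congr 2
  funext i
  rw [Y.im_insert]

/-- a permutation of `P` fixing the `q i` maps the span to itself. -/
theorem act_spQ {r m j : ℕ} {P : Finset α} {q : ℕ → α} {σ : Equiv.Perm α} (hσ : Sup P σ)
    (hq : ∀ i ≤ m, σ (q i) = q i) {x : Lx K α} (hx : x ∈ spQ K r P m j q (Mt K (r + 1))) :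
    act K α σ x ∈ spQ K r P m j q (Mt K (r + 1)) := by
  unfold spQ at hx ⊢
  induction hx using Submodule.span_induction with
  | mem x hx =>
    obtain ⟨f, w, hB, hm, hw, rfl⟩ := hx
    have hbs : im σ (P \ bs m q f) = P \ bs m q (fun i => im σ (f i)) := by
      rw [U.im_sdiff, U.sup_im hσ]
      congr 1
      unfold bs
      rw [U.im_union, U.im_biUnion]
      congr 1
      apply im_eq_self
      intro a ha
      obtain ⟨i, hi, rfl⟩ := mem_image.1 ha
      exact hq i (Nat.le_of_lt_succ (mem_range.1 hi))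
    refine Submodule.subset_span ⟨fun i => im σ (f i), act K α σ w, ?_, hm, ?_, ?_⟩
    · refine ⟨hB.inj, hB.mem, fun i hi => ?_, fun i hi => ?_, fun i hi i' hi' hne => ?_,
        fun i hi i' hi' => ?_⟩
      · rw [card_im]; exact hB.card i hi
      · exact U.im_sub hσ (hB.sub i hi)
      · exact U.im_disj (hB.dis i hi i' hi' hne)
      · intro hc
        rw [mem_im, Equiv.Perm.inv_eq_iff_eq.2 (hq i hi).symm] at hc
        exact hB.out i hi i' hi' hc
    · have h1 := act_Mt σ hw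
      rwa [hbs] at h1
    · rw [act_mul, act_qn]
      congr 1
      exact qn_congr (fun i hi => hq i hi) (fun i _ => rfl)
  | zero => rw [map_zero]; exact Submodule.zero_mem _
  | add x y _ _ hx hy => rw [map_add]; exact Submodule.add_mem _ hx hy
  | smul c x _ hx => rw [map_smul]; exact Submodule.smul_mem _ _ hx

end IAv

/-- [Av] averaging. -/
theorem pr_Av : S_Av := by
  classical
  intro K _ _ α _ _ χ r m j P q hq z hz hzm
  obtain ⟨b, hb, x0, hx0, hbx⟩ := Submodule.mem_sup.1 hzm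
  set R := P \ (range (m + 1)).image q with hR
  have hRP : R ⊆ P := sdiff_subset
  obtain ⟨N, hN, hav⟩ := IAv.avg_alt (K := K) χ R
  have hzR : Alc χ R z := fun σ h1 h2 => hz.2 σ (U.sup_mono hRP h1) h2
  have hfix : ∀ σ : Equiv.Perm α, Sup R σ → ∀ i ≤ m, σ (q i) = q i := by
    intro σ hσ i hi
    refine hσ _ fun hc => ?_
    rw [hR, mem_sdiff] at hc
    exact hc.2 (mem_image.2 ⟨i, mem_range.2 (Nat.lt_succ_of_le hi), rfl⟩)
  have hz1 : z = N⁻¹ • IAv.avg χ R b + N⁻¹ • IAv.avg χ R x0 := by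
    rw [← smul_add, ← map_add, hbx, hav z hzR, smul_smul, inv_mul_cancel₀ hN, one_smul]
  have hbB : N⁻¹ • IAv.avg χ R b ∈ Bd K (r + 1) P j := by
    refine Submodule.smul_mem _ _ ?_
    rw [IAv.avg_apply]
    refine Submodule.sum_mem _ fun σ hσ => Submodule.smul_mem _ _ ?_
    exact act_Bd_sup (mem_filter.1 hσ).2.1 hRP hb
  have hxS : N⁻¹ • IAv.avg χ R x0 ∈ spQ K r P m j q (Mt K (r + 1)) := by
    refine Submodule.smul_mem _ _ ?_
    rw [IAv.avg_apply]
    refine Submodule.sum_mem _ fun σ hσ => Submodule.smul_mem _ _ ?_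
    exact IAv.act_spQ (U.sup_mono hRP (mem_filter.1 hσ).2.1) (hfix σ (mem_filter.1 hσ).2.1) hx0
  have hd : z - N⁻¹ • IAv.avg χ R x0 = N⁻¹ • IAv.avg χ R b := by
    nth_rw 1 [hz1]
    rw [add_sub_cancel_right]
  refine ⟨N⁻¹ • IAv.avg χ R x0, hxS, ?_, ?_, ?_⟩
  · rw [hd]; exact hbB
  · have h1 : z - (z - N⁻¹ • IAv.avg χ R x0) ∈ Cy K (r + 1) P j := by
      refine Submodule.sub_mem _ hz.1 ?_
      rw [hd]
      exact Bd_le_Cy _ _ _ hbB
    rwa [sub_sub_cancel] at h1
  · intro σ h1 h2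
    rw [map_smul, IAv.alc_avg χ R x0 σ h1 h2, smul_comm]

end Pool.Agent.Work.MP_1233f5_ag.Z
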