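import Pool.Agent.Work.MP_1233f5_ag.Z.Stmts
import Pool.Agent.Work.MP_1233f5_ag.Y.C_Brg

/-! MP_1233f5_ag, block Z, item BrG: functions on tuples and the exterior algebra. -/

set_option autoImplicit false

namespace Pool.Agent.Work.MP_1233f5_ag.Z

open Finset
open Pool.Agent.Work.MP_1233f5_ag.V (vm ML theta rVan Alt dd rCh rcyc)
open Pool.Agent.Work.MP_1233f5_ag.Y
open Pool.Agent.Work.MP_1233f5_ag.Y.BrgX

namespace IBrG

variable {K : Type} [Field K] [CharZero K] {α : Type} [Fintype α] [DecidableEq α]

/-- the element with the coefficients `c`. -/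
noncomputable def el (p : ℕ) (c : (Fin p → Finset α) → K) : Lx K α :=
  ((p.factorial : K)⁻¹) • ∑ t : Fin p → Finset α, c t • (mo t : Lx K α)

theorem el_mem {d p : ℕ} {P : Finset α} {c : (Fin p → Finset α) → K}
    (hsup : ∀ t, c t ≠ 0 → vm d P p t) : el p c ∈ Mt K d P p := by
  refine Submodule.smul_mem _ _ (Submodule.sum_mem _ (fun t _ => ?_))
  by_cases h : c t = 0
  · rw [h, zero_smul]
    exact Submodule.zero_mem _
  · exact Submodule.smul_mem _ _ (mo_mem_Mt (hsup t h))

theorem co_el {p : ℕ} {c : (Fin p → Finset α) → K} (halt : Alt p c) (s : Fin p → Finset α) :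
    co p s (el p c) = c s := by
  have hp : (p.factorial : K) ≠ 0 := by exact_mod_cast (Nat.factorial_pos p).ne'
  rw [el, map_smul, map_sum, smul_eq_mul]
  have h1 : ∑ t : Fin p → Finset α, co p s (c t • (mo t : Lx K _)) =
      ∑ σ : Equiv.Perm (Fin p), c s := by
    have h2 : ∀ t : Fin p → Finset α, co p s (c t • (mo t : Lx K _)) =
        ∑ σ : Equiv.Perm (Fin p), if t = s ∘ σ then
          ((Equiv.Perm.sign σ : ℤ) : K) * c t else 0 := by
      intro t
      rw [map_smul, co_mo, smul_eq_mul, Finset.mul_sum]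
      refine Finset.sum_congr rfl (fun σ _ => ?_)
      split_ifs
      · ring
      · rw [mul_zero]
    rw [Finset.sum_congr rfl (fun t _ => h2 t), Finset.sum_comm]
    refine Finset.sum_congr rfl (fun σ _ => ?_)
    rw [Finset.sum_ite_eq' Finset.univ (s ∘ σ), if_pos (Finset.mem_univ _), halt σ s,
      ← mul_assoc, sign_sq, one_mul]
  rw [h1, Finset.sum_const, Finset.card_univ, Fintype.card_perm, Fintype.card_fin,
    nsmul_eq_mul, ← mul_assoc, inv_mul_cancel₀ hp, one_mul]

theorem co_inj {d p : ℕ} {P : Finset α} {y : Lx K α} (hy : y ∈ Mt K d P p)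
    (h : ∀ t, vm d P p t → co p t y = 0) : y = 0 := by
  rw [rep hy]
  have h2 : ∀ t : Fin p → Finset α, co p t y = 0 := by
    intro t
    by_cases ht : vm d P p t
    · exact h t ht
    · exact co_supp hy t ht
  rw [Finset.sum_eq_zero (fun t _ => by rw [h2 t, zero_smul]), smul_zero]

end IBrG

open IBrG in
theorem pr_BrG : S_BrG := by
  intro K _ _ α _ _ d p P
  constructor
  · intro hV y hy
    have hyM : y ∈ Mt K d P p := hy.1
    have hyD : Dx y = 0 := hy.2
    obtain ⟨g, hg, hgc⟩ := hV (fun t => co p t y) ⟨fun σ t => co_alt hyM σ t, fun t ht => by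
      by_contra h
      exact ht (co_supp hyM t h)⟩ (by
        cases p with
        | zero => exact trivial
        | succ p =>
          intro t _
          change ∑ e : Finset α, co (p + 1) (Fin.cons e t : Fin (p + 1) → Finset α) y = 0
          rw [← co_Dx, hyD, map_zero])
    have hx : el (p + 1) g ∈ Mt K d P (p + 1) := el_mem hg.2
    refine ⟨el (p + 1) g, hx, ?_⟩
    have h0 : Dx (el (p + 1) g) - y = 0 := by
      refine co_inj (Submodule.sub_mem _ (Dx_mem hx) hyM) fun t ht => ?_
      rw [map_sub, co_Dx, sub_eq_zero, ← hgc t ht]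
      exact Finset.sum_congr rfl fun e _ => co_el hg.1 _
    exact sub_eq_zero.1 h0
  · intro hle c hc hcyc
    have hxM : el p c ∈ Mt K d P p := el_mem hc.2
    have hcox : ∀ s : Fin p → Finset α, co p s (el p c) = c s := co_el hc.1
    have hDx : Dx (el p c) = 0 := by
      cases p with
      | zero => exact Dx_zero_chain hxM
      | succ p =>
        refine co_inj (Dx_mem hxM) fun t ht => ?_
        rw [co_Dx]
        have h3 := hcyc t ht
        unfold dd at h3
        rw [← h3]
        exact Finset.sum_congr rfl (fun e _ => hcox _)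
    obtain ⟨y, hy, hyx⟩ := hle (show el p c ∈ Cy K d P p from ⟨hxM, hDx⟩)
    refine ⟨fun t => co (p + 1) t y, ⟨fun σ t => co_alt hy σ t, fun t ht => ?_⟩, fun t _ => ?_⟩
    · by_contra h
      exact ht (co_supp hy t h)
    · unfold dd
      rw [← co_Dx, hyx]
      exact hcox t

end Pool.Agent.Work.MP_1233f5_ag.Z
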