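import Pool.Agent.Work.MP_1233f5_ag.Z.Stmts

/-! MP_1233f5_ag, block Z, item Cx1: `cx a x w` is a cycle. -/

set_option autoImplicit false

namespace Pool.Agent.Work.MP_1233f5_ag.Z

open Finset
open Pool.Agent.Work.MP_1233f5_ag.V (vm ML theta rVan)
open Pool.Agent.Work.MP_1233f5_ag.Y

namespace ICx1

theorem term_vm {α : Type} [DecidableEq α] {r a : ℕ} {P : Finset α} {x : ℕ → α}
    {w : ℕ → Finset α} (h : CV r P a x w) (σ : Equiv.Perm (Fin (a + 1))) :
    vm (r + 1) P a (fun i : Fin a =>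
      insert (x (i : ℕ)) (w ((σ i.castSucc : Fin (a + 1)) : ℕ))) := by
  have hle : ∀ i : Fin a, ((σ i.castSucc : Fin (a + 1)) : ℕ) ≤ a := fun i =>
    Nat.le_of_lt_succ (σ i.castSucc).2
  refine ⟨fun i => ⟨?_, ?_⟩, fun i j hij => ?_⟩
  · rw [card_insert_of_notMem (h.out _ i.2 _ (hle i)), h.card _ (hle i)]
  · exact insert_subset (h.mem _ i.2) (h.sub _ (hle i))
  · have hij' : (i : ℕ) ≠ (j : ℕ) := fun hc => hij (Fin.ext hc)
    have hσ : ((σ i.castSucc : Fin (a + 1)) : ℕ) ≠ ((σ j.castSucc : Fin (a + 1)) : ℕ) := by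
      intro hc
      have h2 := σ.injective (Fin.ext hc)
      exact hij (Fin.castSucc_injective _ h2)
    rw [disjoint_insert_left, disjoint_insert_right, mem_insert, not_or]
    exact ⟨⟨fun hc => hij' (h.inj _ i.2 _ j.2 hc), h.out _ i.2 _ (hle j)⟩, h.out _ j.2 _ (hle i),
      h.dis _ (hle i) _ (hle j) hσ⟩

theorem inner {K : Type} [Field K] {α : Type} [DecidableEq α] (b : ℕ) (x : ℕ → α)
    (w : ℕ → Finset α) (i : Fin (b + 1)) :
    ∑ σ : Equiv.Perm (Fin (b + 1 + 1)), ((Equiv.Perm.sign σ : ℤ) : K) •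
      (((-1 : K) ^ (i : ℕ)) • (mo (i.removeNth (fun k : Fin (b + 1) =>
        insert (x (k : ℕ)) (w ((σ k.castSucc : Fin (b + 1 + 1)) : ℕ)))) : Lx K α)) = 0 := by
  have hne : i.castSucc ≠ Fin.last (b + 1) := (Fin.castSucc_lt_last i).ne
  refine Finset.sum_involution
    (fun σ _ => σ * Equiv.swap i.castSucc (Fin.last (b + 1))) ?_ ?_ (fun σ _ => mem_univ _) ?_
  · intro σ _
    have h1 : (i.removeNth (fun k : Fin (b + 1) =>
        insert (x (k : ℕ)) (w ((((σ * Equiv.swap i.castSucc (Fin.last (b + 1))) k.castSucc :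
          Fin (b + 1 + 1))) : ℕ)))) = (i.removeNth (fun k : Fin (b + 1) =>
        insert (x (k : ℕ)) (w ((σ k.castSucc : Fin (b + 1 + 1)) : ℕ)))) := by
      funext j
      unfold Fin.removeNth
      have h2 : Equiv.swap i.castSucc (Fin.last (b + 1)) (i.succAbove j).castSucc
          = (i.succAbove j).castSucc := by
        refine Equiv.swap_apply_of_ne_of_ne ?_ ?_
        · intro hc
          exact Fin.succAbove_ne i j (Fin.castSucc_injective _ hc)
        · exact (Fin.castSucc_lt_last _).ne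
      show insert _ (w (((σ (Equiv.swap i.castSucc (Fin.last (b + 1)) (i.succAbove j).castSucc) :
          Fin (b + 1 + 1))) : ℕ)) = _
      rw [h2]
    have h3 : Equiv.Perm.sign (σ * Equiv.swap i.castSucc (Fin.last (b + 1)))
        = -Equiv.Perm.sign σ := by
      rw [Equiv.Perm.sign_mul, Equiv.Perm.sign_swap hne, mul_neg_one]
    show _ + (((Equiv.Perm.sign (σ * Equiv.swap i.castSucc (Fin.last (b + 1))) : ℤˣ) : ℤ) : K) •
      (((-1 : K) ^ (i : ℕ)) • (mo (i.removeNth (fun k : Fin (b + 1) =>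
        insert (x (k : ℕ)) (w ((((σ * Equiv.swap i.castSucc (Fin.last (b + 1))) k.castSucc :
          Fin (b + 1 + 1))) : ℕ)))) : Lx K α)) = 0
    rw [h1, h3, Units.val_neg, Int.cast_neg, neg_smul, add_neg_cancel]
  · intro σ _ _ hc
    have h1 : Equiv.swap i.castSucc (Fin.last (b + 1)) = 1 := mul_eq_left.1 hc
    exact hne (Equiv.swap_eq_one_iff.1 h1)
  · intro σ _
    show σ * Equiv.swap i.castSucc (Fin.last (b + 1)) * Equiv.swap i.castSucc (Fin.last (b + 1))
      = σ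
    rw [mul_assoc, Equiv.swap_mul_self, mul_one]

theorem dx {K : Type} [Field K] {α : Type} [DecidableEq α] (a : ℕ) (x : ℕ → α)
    (w : ℕ → Finset α) : Dx (cx a x w : Lx K α) = 0 := by
  unfold cx
  rw [map_sum]
  cases a with
  | zero =>
    refine Finset.sum_eq_zero fun σ _ => ?_
    rw [map_smul, mo_zero, Dx_one, smul_zero]
  | succ b =>
    have h1 : ∀ σ : Equiv.Perm (Fin (b + 1 + 1)),
        Dx (((Equiv.Perm.sign σ : ℤ) : K) • (mo (fun k : Fin (b + 1) =>
          insert (x (k : ℕ)) (w ((σ k.castSucc : Fin (b + 1 + 1)) : ℕ))) : Lx K α))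
        = ∑ i : Fin (b + 1), ((Equiv.Perm.sign σ : ℤ) : K) •
          (((-1 : K) ^ (i : ℕ)) • (mo (i.removeNth (fun k : Fin (b + 1) =>
            insert (x (k : ℕ)) (w ((σ k.castSucc : Fin (b + 1 + 1)) : ℕ)))) : Lx K α)) := by
      intro σ
      rw [map_smul, Dx_mo, Finset.smul_sum]
    rw [Finset.sum_congr rfl fun σ _ => h1 σ, Finset.sum_comm]
    exact Finset.sum_eq_zero fun i _ => inner b x w i

end ICx1

theorem pr_Cx1 : S_Cx1 := by
  intro K _ α _ r a P x w h
  refine ⟨?_, ICx1.dx a x w⟩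
  unfold cx
  exact Submodule.sum_mem _ fun σ _ => Submodule.smul_mem _ _ (mo_mem_Mt (ICx1.term_vm h σ))

end Pool.Agent.Work.MP_1233f5_ag.Z
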