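import Pool.Agent.Work.MP_1233f5_ag.Z.Stmts

set_option autoImplicit false

namespace Pool.Agent.Work.MP_1233f5_ag.Z

open Finset
open Pool.Agent.Work.MP_1233f5_ag.V (vm ML theta rVan)
open Pool.Agent.Work.MP_1233f5_ag.Y

namespace IXF

variable {α : Type} [DecidableEq α]

theorem cp_sub {r a : ℕ} {P : Finset α} {x : ℕ → α} {w : ℕ → Finset α} (h : CV r P a x w) :
    cp a x w ⊆ P := by
  intro b hb
  rcases mem_union.1 hb with h1 | h1
  · obtain ⟨i, hi, rfl⟩ := mem_image.1 h1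
    exact h.mem i (mem_range.1 hi)
  · obtain ⟨i, hi, h2⟩ := mem_biUnion.1 h1
    exact h.sub i (Nat.le_of_lt_succ (mem_range.1 hi)) h2

theorem cv_cp {r a : ℕ} {P : Finset α} {x : ℕ → α} {w : ℕ → Finset α} (h : CV r P a x w) :
    CV r (cp a x w) a x w :=
  ⟨h.inj, fun i hi => mem_union_left _ (mem_image.2 ⟨i, mem_range.2 hi, rfl⟩), h.card,
    fun _ hi _ hb => mem_union_right _
      (mem_biUnion.2 ⟨_, mem_range.2 (Nat.lt_succ_of_le hi), hb⟩), h.dis, h.out⟩

theorem cp_card {r a : ℕ} {P : Finset α} {x : ℕ → α} {w : ℕ → Finset α} (h : CV r P a x w) :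
    (cp a x w).card = a * (r + 1) + r := by
  have l : ∀ {i}, i ∈ range (a + 1) → i ≤ a := fun hi => Nat.le_of_lt_succ (mem_range.1 hi)
  rw [cp, card_union_of_disjoint, card_image_of_injOn, card_biUnion,
    sum_congr rfl fun i hi => h.card i (l hi), sum_const, card_range, card_range, smul_eq_mul]
  · ring
  · intro i hi j hj hij
    exact h.dis i (l hi) j (l hj) hij
  · intro i hi j hj hij
    exact h.inj i (mem_range.1 hi) j (mem_range.1 hj) hij
  · rw [disjoint_left]
    intro y hy hy'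
    obtain ⟨i, hi, rfl⟩ := mem_image.1 hy
    obtain ⟨j, hj, h2⟩ := mem_biUnion.1 hy'
    exact h.out i (mem_range.1 hi) j (l hj) h2

end IXF

open IXF in
theorem pr_XF (hCx1 : S_Cx1) (hFxA : S_FxA) (hRepT : S_RepT) (hXSym : S_XSym) : S_XF := by
  intro K _ _ α _ _ r T a p P hr hP hZV
  refine Submodule.span_le.2 ?_
  rintro _ ⟨x, w, κ, hCV, hap, hκ, rfl⟩
  have hsub := cp_sub hCV
  have hcy : (cx a x w : Lx K α) ∈ Cy K (r + 1) (cp a x w) a :=
    hCx1 K α r a (cp a x w) x w (cv_cp hCV)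
  have hpa : a + (p - a) = p := Nat.add_sub_cancel' hap
  obtain ⟨R, hR⟩ : ∃ R, R = P \ cp a x w := ⟨_, rfl⟩
  rw [← hR] at hκ
  have hRP : R ⊆ P := by rw [hR]; exact sdiff_subset
  have hdis : Disjoint (cp a x w) R := by rw [hR]; exact disjoint_sdiff
  have hRc : R.card = (p - a) * (r + 1) + T := by
    have h3 := card_le_card hsub
    rw [cp_card hCV] at h3
    rw [hR, card_sdiff_of_subset hsub, cp_card hCV, hP, Nat.sub_mul]
    have h4 : a * (r + 1) ≤ p * (r + 1) := Nat.mul_le_mul_right _ hap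
    omega
  let B : Submodule K (Lx K α) :=
    (Bd K (r + 1) P p ⊔ Fx K r P (a + 1) p).comap (LinearMap.mulLeft K (cx a x w : Lx K α))
  have hB : ∀ z : Lx K α, z ∈ B ↔ cx a x w * z ∈ Bd K (r + 1) P p ⊔ Fx K r P (a + 1) p :=
    fun z => Iff.rfl
  have hmain : Cy K (r + 1) R (p - a) ≤ B := by
    refine hRepT K α (Lx K α) (act K α) R (Cy K (r + 1) R (p - a)) B a ?_ ?_ ?_ ?_
    · intro σ hσ z hz
      exact act_Cy_sup hσ subset_rfl hz
    · intro σ hσ z hz
      rw [hB] at hz ⊢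
      have hσ' : Sup P σ := fun b hb => hσ b fun hc => hb (hRP hc)
      have h1 : act K α σ (cx a x w : Lx K α) = cx a x w :=
        act_eq_self (fun b hb => hσ b (disjoint_left.1 hdis hb)) hcy.1
      have h2 : cx a x w * act K α σ z = act K α σ (cx a x w * z) := by
        rw [act_mul, h1]
      rw [h2]
      obtain ⟨y1, hy1, y2, hy2, hy⟩ := Submodule.mem_sup.1 hz
      rw [← hy, map_add]
      exact Submodule.add_mem_sup (act_Bd_sup hσ' subset_rfl hy1)
        (hFxA K α r (a + 1) p P σ hσ' y2 hy2)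
    · intro χ hχ z hz hanti
      rw [hB]
      have h1 : z ∈ Bd K (r + 1) R (p - a) := hZV hap α R χ hRc hχ ⟨hz, hanti⟩
      have h2 := Cy_mul_Bd hdis hcy h1
      rw [hpa] at h2
      exact Submodule.mem_sup_left (Bd_mono (union_subset hsub hRP) h2)
    · intro Y hY hYc z hz hinv
      rw [hB]
      rw [hR] at hz hY
      have h1 := hXSym K α r a (p - a) P x w hr hCV z hz Y hY hYc hinv
      rw [hpa] at h1
      exact h1
  exact hmain hκ

end Pool.Agent.Work.MP_1233f5_ag.Z
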