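import Pool.Agent.Work.MP_1233f5_ag.Z.Stmts

/-! MP_1233f5_ag, block Z: item [XSym] (helper39). -/

set_option autoImplicit false
set_option linter.unusedSectionVars false

namespace Pool.Agent.Work.MP_1233f5_ag.Z.XS

open Finset
open Pool.Agent.Work.MP_1233f5_ag.V (vm ML theta rVan)
open Pool.Agent.Work.MP_1233f5_ag.Y
open Pool.Agent.Work.MP_1233f5_ag.Z

variable {α : Type} [DecidableEq α]

/-- extension of injections inside `Z`. -/
theorem exi {Z : Finset α} {n : ℕ} {x z : ℕ → α} (hx : ∀ i < n, x i ∈ Z) (hz : ∀ i < n, z i ∈ Z)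
    (hxi : ∀ i < n, ∀ j < n, x i = x j → i = j) (hzi : ∀ i < n, ∀ j < n, z i = z j → i = j) :
    ∃ τ : Equiv.Perm α, Sup Z τ ∧ ∀ i < n, τ (x i) = z i := by
  induction n with
  | zero => exact ⟨1, U.sup_one Z, fun i hi => absurd hi (Nat.not_lt_zero i)⟩
  | succ n ih =>
    obtain ⟨τ, h1, h2⟩ := ih (fun i hi => hx i (by omega)) (fun i hi => hz i (by omega))
      (fun i hi j hj => hxi i (by omega) j (by omega))
      (fun i hi j hj => hzi i (by omega) j (by omega))
    refine ⟨Equiv.swap (τ (x n)) (z n) * τ,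
      U.sup_mul (U.sup_swap (U.sup_mem h1 (hx n (by omega))) (hz n (by omega))) h1, ?_⟩
    intro i hi
    rw [Equiv.Perm.mul_apply]
    rcases Nat.lt_succ_iff_lt_or_eq.1 hi with h3 | h3
    · rw [h2 i h3]
      refine Equiv.swap_apply_of_ne_of_ne ?_ ?_
      · rw [← h2 i h3]
        intro h4
        have h5 := hxi i hi n (by omega) (τ.injective h4)
        omega
      · intro h4
        have h5 := hzi i hi n (by omega) h4
        omega
    · rw [h3, Equiv.swap_apply_left]

/-- enumeration of a finite set. -/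
theorem enu (x0 : ℕ → α) {S : Finset α} {n : ℕ} (h : S.card = n) :
    ∃ z : ℕ → α, (∀ i < n, ∀ j < n, z i = z j → i = j) ∧ (range n).image z = S := by
  have e : S ≃ Fin n := S.equivFinOfCardEq h
  refine ⟨fun i => if hi : i < n then (e.symm ⟨i, hi⟩ : α) else x0 i, ?_, ?_⟩
  · intro i hi j hj hij
    simp only [hi, hj, dif_pos] at hij
    have h1 := e.symm.injective (Subtype.ext hij)
    exact Fin.mk.inj_iff.1 h1
  · ext b
    rw [mem_image]
    constructor
    · rintro ⟨i, hi, rfl⟩
      rw [mem_range] at hi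
      simp only [hi, dif_pos]
      exact (e.symm ⟨i, hi⟩).2
    · intro hb
      refine ⟨(e ⟨b, hb⟩ : Fin n), mem_range.2 (e ⟨b, hb⟩).2, ?_⟩
      simp only [Fin.is_lt, dif_pos, Fin.eta, Equiv.symm_apply_apply]

/-- `cx` depends only on the first sets and points. -/
theorem cx_congr {K : Type} [Field K] {a : ℕ} {x x' : ℕ → α} {w w' : ℕ → Finset α}
    (h1 : ∀ i < a, x i = x' i) (h2 : ∀ i ≤ a, w i = w' i) :
    (cx a x w : Lx K α) = cx a x' w' := by
  unfold cx
  refine Finset.sum_congr rfl fun σ _ => ?_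
  congr 2
  funext i
  rw [h1 _ i.2, h2 _ (Nat.le_of_lt_succ (σ i.castSucc).2)]

/-- `cx` depends only on the set of the points. -/
theorem cx_set (h2 : S_Cx2) {K : Type} [Field K] {a : ℕ} {x x' : ℕ → α} {w : ℕ → Finset α}
    (hx : ∀ i < a, ∀ j < a, x i = x j → i = j) (hx' : ∀ i < a, ∀ j < a, x' i = x' j → i = j)
    (h : (range a).image x' = (range a).image x) :
    (cx a x' w : Lx K α) = cx a x w := by
  have hex : ∀ i : Fin a, ∃ j : Fin a, x' (i : ℕ) = x (j : ℕ) := by
    intro i
    have h3 : x' (i : ℕ) ∈ (range a).image x := by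
      rw [← h]
      exact mem_image_of_mem _ (mem_range.2 i.2)
    obtain ⟨j, hj, hj2⟩ := mem_image.1 h3
    exact ⟨⟨j, mem_range.1 hj⟩, hj2.symm⟩
  choose t ht using hex
  have hinj : Function.Injective t := by
    intro i j hij
    refine Fin.ext (hx' _ i.2 _ j.2 ?_)
    rw [ht, ht, hij]
  have hbij : Function.Bijective t := Finite.injective_iff_bijective.1 hinj
  exact (h2 K α a x w).2 x' (Equiv.ofBijective t hbij) (fun i => ht i)

theorem im_image {σ : Equiv.Perm α} {I : Finset ℕ} {x : ℕ → α} :
    im σ (I.image x) = I.image (fun i => σ (x i)) := by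
  ext b
  rw [mem_im, mem_image, mem_image]
  constructor
  · rintro ⟨i, hi, h⟩
    exact ⟨i, hi, by rw [h, U.app_inv]⟩
  · rintro ⟨i, hi, h⟩
    exact ⟨i, hi, by rw [← h, U.inv_app]⟩

theorem skp_image {k a : ℕ} (hk : k ≤ a) {z : ℕ → α}
    (hz : ∀ i < a + 1, ∀ j < a + 1, z i = z j → i = j) :
    (range a).image (skp k z) = ((range (a + 1)).image z).erase (z k) := by
  ext b
  rw [mem_image, mem_erase, mem_image]
  unfold skp
  constructor
  · rintro ⟨i, hi, rfl⟩
    rw [mem_range] at hi
    by_cases h : i < k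
    · rw [if_pos h]
      refine ⟨fun h1 => ?_, i, mem_range.2 (by omega), rfl⟩
      have := hz i (by omega) k (by omega) h1
      omega
    · rw [if_neg h]
      refine ⟨fun h1 => ?_, i + 1, mem_range.2 (by omega), rfl⟩
      have := hz (i + 1) (by omega) k (by omega) h1
      omega
  · rintro ⟨h1, i, hi, rfl⟩
    rw [mem_range] at hi
    have hik : i ≠ k := fun h => h1 (by rw [h])
    by_cases h : i < k
    · exact ⟨i, mem_range.2 (by omega), by rw [if_pos h]⟩
    · refine ⟨i - 1, mem_range.2 (by omega), ?_⟩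
      rw [if_neg (by omega), Nat.sub_add_cancel (by omega)]

theorem skp_inj {k a : ℕ} (hk : k ≤ a) {z : ℕ → α}
    (hz : ∀ i < a + 1, ∀ j < a + 1, z i = z j → i = j) :
    ∀ i < a, ∀ j < a, skp k z i = skp k z j → i = j := by
  intro i hi j hj h
  unfold skp at h
  by_cases h1 : i < k <;> by_cases h2 : j < k
  · rw [if_pos h1, if_pos h2] at h
    exact hz i (by omega) j (by omega) h
  · rw [if_pos h1, if_neg h2] at h
    have := hz i (by omega) (j + 1) (by omega) h
    omega
  · rw [if_neg h1, if_pos h2] at h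
    have := hz (i + 1) (by omega) j (by omega) h
    omega
  · rw [if_neg h1, if_neg h2] at h
    have := hz (i + 1) (by omega) (j + 1) (by omega) h
    omega

end Pool.Agent.Work.MP_1233f5_ag.Z.XS

namespace Pool.Agent.Work.MP_1233f5_ag.Z

open Finset
open Pool.Agent.Work.MP_1233f5_ag.V (vm ML theta rVan)
open Pool.Agent.Work.MP_1233f5_ag.Y

theorem pr_XSym (h1 : S_Cx2) (h2 : S_Rel) (h3 : S_Gott) (h4 : S_XInv) : S_XSym := by
  intro K _ _ α _ _ r a c P x w hr hV κ hκ Y hY hYc hsym
  classical
  set X : Finset α := (range a).image x with hX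
  set B : Submodule K (Lx K α) := Bd K (r + 1) P (a + c) ⊔ Fx K r P (a + 1) (a + c) with hB
  set u : Lx K α := cx a x w * κ with hu
  have hXP : X ⊆ P := by
    intro b hb
    obtain ⟨i, hi, rfl⟩ := mem_image.1 hb
    exact hV.mem i (mem_range.1 hi)
  have hYP : Y ⊆ P := hY.trans sdiff_subset
  have hZP : X ∪ Y ⊆ P := union_subset hXP hYP
  have hXc : X.card = a := by
    rw [hX, card_image_of_injOn, card_range]
    intro i hi j hj hij
    exact hV.inj i (mem_range.1 hi) j (mem_range.1 hj) hij
  have hXcp : X ⊆ cp a x w := subset_union_left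
  have hXY : Disjoint X Y := by
    rw [disjoint_left]
    intro b hb hb'
    exact (mem_sdiff.1 (hY hb')).2 (hXcp hb)
  have hZc : (X ∪ Y).card = 2 * a + 1 := by
    rw [card_union_of_disjoint hXY, hXc, hYc]
    omega
  -- the sets `w i` are disjoint from `X ∪ Y`
  have hwZ : ∀ i ≤ a, Disjoint (w i) (X ∪ Y) := by
    intro i hi
    rw [disjoint_left]
    intro b hb hb'
    rcases mem_union.1 hb' with hb' | hb'
    · obtain ⟨j, hj, rfl⟩ := mem_image.1 hb'
      exact hV.out j (mem_range.1 hj) i hi hb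
    · refine (mem_sdiff.1 (hY hb')).2 (mem_union_right _ ?_)
      exact mem_biUnion.2 ⟨i, mem_range.2 (by omega), hb⟩
  have hwσ : ∀ σ : Equiv.Perm α, Sup (X ∪ Y) σ → ∀ i ≤ a, im σ (w i) = w i := fun σ hσ i hi =>
    U.sup_im_disj hσ (hwZ i hi)
  -- the function `g`
  have hwd : ∀ σ σ' : Equiv.Perm α, Sup (X ∪ Y) σ → Sup (X ∪ Y) σ' → im σ X = im σ' X →
      act K α σ u = act K α σ' u := by
    intro σ σ' hσ hσ' him
    have h5 : act K α (σ'⁻¹ * σ) u = u := by
      refine h4 K α r a c P x w hV κ hκ Y hY hsym _ (U.sup_mul (U.sup_inv hσ') hσ) ?_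
      rw [im_mul]
      rw [him, U.im_inv_im]
    have h6 : act K α σ u = act K α σ' (act K α (σ'⁻¹ * σ) u) := by
      rw [← Module.End.mul_apply, ← map_mul, mul_inv_cancel_left]
    rw [h6, h5]
  let g : Finset α → (Lx K α ⧸ B) := fun X' =>
    if h : ∃ σ : Equiv.Perm α, Sup (X ∪ Y) σ ∧ im σ X = X' then B.mkQ (act K α h.choose u) else 0
  have hg : ∀ σ : Equiv.Perm α, Sup (X ∪ Y) σ → g (im σ X) = B.mkQ (act K α σ u) := by
    intro σ hσ
    have h : ∃ σ' : Equiv.Perm α, Sup (X ∪ Y) σ' ∧ im σ' X = im σ X := ⟨σ, hσ, rfl⟩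
    have h5 : g (im σ X) = B.mkQ (act K α h.choose u) := dif_pos h
    rw [h5, hwd _ _ h.choose_spec.1 hσ h.choose_spec.2]
  -- the relation
  have hrel : ∀ Z' ⊆ X ∪ Y, Z'.card = a + 1 → ∑ y ∈ Z', g (Z'.erase y) = 0 := by
    intro Z' hZ' hZ'c
    obtain ⟨z, hzi, hzZ⟩ := XS.enu x hZ'c
    obtain ⟨y0, hy0⟩ : Y.Nonempty := by
      rw [← card_pos, hYc]
      omega
    have hzm : ∀ i < a + 1, z i ∈ X ∪ Y := fun i hi => hZ' (by
      rw [← hzZ]
      exact mem_image_of_mem _ (mem_range.2 hi))
    obtain ⟨τ, hτ, hτz⟩ : ∃ τ : Equiv.Perm α, Sup (X ∪ Y) τ ∧ ∀ i < a, τ (x i) = z i := by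
      obtain ⟨τ, h5, h6⟩ := XS.exi (Z := X ∪ Y) (n := a) (x := x) (z := z)
        (fun i hi => mem_union_left _ (mem_image_of_mem _ (mem_range.2 hi)))
        (fun i hi => hzm i (by omega)) hV.inj
        (fun i hi j hj => hzi i (by omega) j (by omega))
      exact ⟨τ, h5, h6⟩
    have hτP : Sup P τ := U.sup_mono hZP hτ
    have hEV : EV r P a z w := by
      refine ⟨fun i hi j hj => hzi i (by omega) j (by omega), fun i hi => hZP (hzm i (by omega)),
        hV.card, hV.sub, hV.dis, ?_⟩
      intro i hi j hj hc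
      exact disjoint_left.1 (hwZ j hj) hc (hzm i (by omega))
    -- the factor
    have hκ' : act K α τ κ ∈ Cy K (r + 1) (insert (z a) (P \ es a z w)) c := by
      refine Cy_mono ?_ (act_Cy τ hκ)
      rw [U.im_sdiff, U.sup_im hτP]
      intro b hb
      obtain ⟨hb1, hb2⟩ := mem_sdiff.1 hb
      by_cases hba : b = z a
      · rw [hba]
        exact mem_insert_self _ _
      · refine mem_insert_of_mem (mem_sdiff.2 ⟨hb1, fun hc => hb2 ?_⟩)
        unfold cp
        rw [U.im_union]
        rcases mem_union.1 hc with hc | hc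
        · obtain ⟨i, hi, rfl⟩ := mem_image.1 hc
          have hia : i < a := by
            rcases Nat.lt_succ_iff_lt_or_eq.1 (mem_range.1 hi) with h | h
            · exact h
            · exact absurd (by rw [h]) hba
          refine mem_union_left _ ?_
          rw [XS.im_image]
          exact mem_image.2 ⟨i, mem_range.2 hia, hτz i hia⟩
        · obtain ⟨i, hi, hbi⟩ := mem_biUnion.1 hc
          refine mem_union_right _ ?_
          rw [U.im_biUnion]
          refine mem_biUnion.2 ⟨i, hi, ?_⟩
          rw [hwσ τ hτ i (by have := mem_range.1 hi; omega)]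
          exact hbi
    have h5 := h2 K α r a c P z w hr hEV (act K α τ κ) hκ'
    -- the terms
    have hterm : ∀ k ∈ range (a + 1),
        (B.mkQ (cx a (skp k z) w * act K α (Equiv.swap (z a) (z k)) (act K α τ κ) : Lx K α)) =
          g (Z'.erase (z k)) := by
      intro k hk
      have hk' : k ≤ a := by have := mem_range.1 hk; omega
      have hρ : Sup (X ∪ Y) (Equiv.swap (z a) (z k) * τ) :=
        U.sup_mul (U.sup_swap (hzm a (by omega)) (hzm k (by omega))) hτ
      have hρx : ∀ i < a, (Equiv.swap (z a) (z k) * τ) (x i) = if i = k then z a else z i := by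
        intro i hi
        rw [Equiv.Perm.mul_apply, hτz i hi]
        split_ifs with h
        · rw [h, Equiv.swap_apply_right]
        · refine Equiv.swap_apply_of_ne_of_ne ?_ ?_
          · intro h6
            have := hzi i (by omega) a (by omega) h6
            omega
          · intro h6
            exact h (hzi i (by omega) k (by omega) h6)
      have hset : (range a).image (fun i => (Equiv.swap (z a) (z k) * τ) (x i)) =
          Z'.erase (z k) := by
        rw [← hzZ]
        ext b
        rw [mem_image, mem_erase, mem_image]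
        constructor
        · rintro ⟨i, hi, rfl⟩
          have hi' := mem_range.1 hi
          rw [hρx i hi']
          split_ifs with h
          · refine ⟨fun h6 => ?_, a, mem_range.2 (by omega), rfl⟩
            have := hzi a (by omega) k (by omega) h6
            omega
          · refine ⟨fun h6 => h (hzi i (by omega) k (by omega) h6), i, mem_range.2 (by omega), rfl⟩
        · rintro ⟨h6, i, hi, rfl⟩
          have hi' := mem_range.1 hi
          have hik : i ≠ k := fun h => h6 (by rw [h])
          by_cases hia : i = a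
          · refine ⟨k, mem_range.2 (by omega), ?_⟩
            rw [hρx k (by omega), if_pos rfl, hia]
          · refine ⟨i, mem_range.2 (by omega), ?_⟩
            rw [hρx i (by omega), if_neg hik]
      have him : im (Equiv.swap (z a) (z k) * τ) X = Z'.erase (z k) := by
        rw [hX, XS.im_image, hset]
      rw [← him, hg _ hρ, hu]
      congr 1
      rw [act_mul, map_mul, Module.End.mul_apply, Module.End.mul_apply]
      congr 1
      rw [← Module.End.mul_apply, ← map_mul, (h1 K α a x w).1]
      rw [XS.cx_congr (x' := fun i => (Equiv.swap (z a) (z k) * τ) (x i)) (w' := w)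
        (fun i _ => rfl) (fun i hi => hwσ _ hρ i hi)]
      refine XS.cx_set h1 ?_ (XS.skp_inj hk' hzi) ?_
      · intro i hi j hj hij
        exact hV.inj i hi j hj ((Equiv.swap (z a) (z k) * τ).injective hij)
      · rw [XS.skp_image hk' hzi, hset, hzZ]
    have h6 : B.mkQ (∑ k ∈ range (a + 1),
        (cx a (skp k z) w * act K α (Equiv.swap (z a) (z k)) (act K α τ κ) : Lx K α)) = 0 := by
      rw [Submodule.mkQ_apply, Submodule.Quotient.mk_eq_zero]
      exact h5
    rw [map_sum, sum_congr rfl hterm] at h6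
    have h7 : ∑ y ∈ (range (a + 1)).image z, g (Z'.erase y) =
        ∑ k ∈ range (a + 1), g (Z'.erase (z k)) := by
      refine sum_image ?_
      intro i hi j hj hij
      exact hzi i (mem_range.1 hi) j (mem_range.1 hj) hij
    rw [hzZ] at h7
    rw [h7]
    exact h6
  have h8 := h3 K α (Lx K α ⧸ B) a (X ∪ Y) g hZc hrel X subset_union_left hXc
  have h9 := hg 1 (U.sup_one _)
  rw [im_one, h8, map_one, Module.End.one_apply] at h9
  rw [← Submodule.Quotient.mk_eq_zero, ← Submodule.mkQ_apply]
  exact h9.symm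

end Pool.Agent.Work.MP_1233f5_ag.Z
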