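import Pool.Agent.Work.MP_1233f5_ag.Z.Stmts

/-! MP_1233f5_ag, block Z, item Rlb: relabelling, and the relation with `ML`. -/

set_option autoImplicit false

namespace Pool.Agent.Work.MP_1233f5_ag.Z

open Finset
open Pool.Agent.Work.MP_1233f5_ag.V (vm ML theta rVan)
open Pool.Agent.Work.MP_1233f5_ag.Y

theorem pr_Rlb (hB : S_BrG) (hT : V.S_Tr) : S_Rlb := by
  intro K _ _ d T p
  have key : ∀ (α : Type) [Fintype α] [DecidableEq α] (P : Finset α), P.card = p * d + T →
      rVan K (univ : Finset (Finset α)) (vm d P) p → VV K d T p := by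
    intro α _ _ P hP h β _ _ P' hP'
    exact (hB K β d p P').1 (hT K α β d p P P' (hP.trans hP'.symm) h)
  have hcard : (univ : Finset (Fin (p * d + T))).card = p * d + T := by
    rw [Finset.card_univ, Fintype.card_fin]
  refine ⟨⟨fun h => key (Fin (p * d + T)) univ hcard h, fun h => ?_⟩, fun α _ _ P hP h => ?_⟩
  · exact (hB K (Fin (p * d + T)) d p univ).2 (h (Fin (p * d + T)) univ hcard)
  · exact key α P hP ((hB K α d p P).2 h)

end Pool.Agent.Work.MP_1233f5_ag.Z
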