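import Pool.Agent.Work.MP_1233f5_ag.Z.Stmts

/-! [1233f5 Z BGr] growth of the old bound. -/

set_option autoImplicit false

namespace Pool.Agent.Work.MP_1233f5_ag.Z

open Finset
open Pool.Agent.Work.MP_1233f5_ag.V (vm ML theta rVan)
open Pool.Agent.Work.MP_1233f5_ag.Y

namespace IBGr

theorem lo1 (e k : ℕ) : k * (e + 1) + 1 ≤ (e + k + 1).choose k := by
  induction k with
  | zero => simp
  | succ k ih =>
    have h1 : (e + (k + 1) + 1).choose (k + 1) =
        (e + k + 1).choose k + (e + k + 1).choose (k + 1) := by
      rw [show e + (k + 1) + 1 = (e + k + 1) + 1 by ring]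
      exact Nat.choose_succ_succ _ _
    have h2 : e + 1 ≤ (e + k + 1).choose (k + 1) := by
      have h3 : (e + k + 1).choose (k + 1) = (e + k + 1).choose e :=
        Nat.choose_symm_of_eq_add (by ring)
      rw [h3]
      calc e + 1 = (e + 1).choose e := (Nat.choose_succ_self_right e).symm
        _ ≤ (e + k + 1).choose e := Nat.choose_le_choose e (by omega)
    rw [h1]
    have h4 : (k + 1) * (e + 1) = k * (e + 1) + (e + 1) := by ring
    omega

theorem lo2 (a k j : ℕ) : (a + (k + 1)).choose (k + 1) + j ≤ (a + j + (k + 1)).choose (k + 1) := by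
  induction j with
  | zero => simp
  | succ j ih =>
    have h1 : (a + (j + 1) + (k + 1)).choose (k + 1) =
        (a + j + (k + 1)).choose k + (a + j + (k + 1)).choose (k + 1) := by
      rw [show a + (j + 1) + (k + 1) = (a + j + (k + 1)) + 1 by ring]
      exact Nat.choose_succ_succ _ _
    have h2 : 1 ≤ (a + j + (k + 1)).choose k := Nat.choose_pos (by omega)
    omega

theorem theta_lo (e T : ℕ) (he : 2 ≤ e) : T + 1 ≤ theta (e + 1) T + (e + 1) := by
  have hdm : e * (T / e) + T % e = T := Nat.div_add_mod T e
  have hj : T % e < e := Nat.mod_lt _ (by omega)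
  unfold theta
  rw [Nat.add_sub_cancel]
  generalize T / e = k at hdm
  generalize T % e = j at hdm hj
  have h1 : (k + 1) * e - T = e - j := by
    have : (k + 1) * e = e * k + e := by ring
    omega
  rw [h1]
  rcases k with _ | k
  · simp only [Nat.choose_zero_right]
    omega
  · have h2 := lo1 e k
    have h3 := lo2 (e - j) k j
    rw [Nat.sub_add_cancel hj.le] at h3
    have h4 : (e + 1 + (k + 1)).choose (k + 1) =
        (e + k + 1).choose k + (e + (k + 1)).choose (k + 1) := by
      rw [show e + 1 + (k + 1) = (e + k + 1) + 1 by ring]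
      rw [Nat.choose_succ_succ]
      rfl
    rw [h4]
    have h5 : k * (e + 1) = e * k + k := by ring
    have h6 : e * (k + 1) = e * k + e := by ring
    omega

end IBGr

open IBGr in
theorem pr_BGr : S_BGr := by
  intro d T hd
  obtain ⟨e, rfl⟩ : ∃ e, d = e + 1 := ⟨d - 1, by omega⟩
  induction T with
  | zero => simp [bnd3]
  | succ T ih =>
    have h1 := theta_lo e (T + 1) (by omega)
    unfold bnd3
    split_ifs with h
    · exact h1
    · generalize (T + 1) / (e + 1 - 1) = q
      generalize theta (e + 1) (T + 1) = t at h1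
      rcases min_choice t (bnd3 (e + 1) T + q + 1) with h2 | h2
      · rw [h2]; exact h1
      · rw [h2]; omega

end Pool.Agent.Work.MP_1233f5_ag.Z
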