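import Pool.Agent.Work.MP_1233f5_ag.Z.Stmts

/-! MP_1233f5_ag, block Z, item CF: the closed form. -/

set_option autoImplicit false

namespace Pool.Agent.Work.MP_1233f5_ag.Z

open Finset
open Pool.Agent.Work.MP_1233f5_ag.V (vm ML theta rVan)
open Pool.Agent.Work.MP_1233f5_ag.Y

namespace ICF

theorem vs_eq (d T T' : ℕ) (h : T' ≤ T) : vs d T T' = vb d T' := by
  induction T, h using Nat.le_induction with
  | base => rfl
  | succ T hT ih =>
    rw [← ih]
    change Function.update (vs d T) (T + 1) (nv d (vs d T) (T + 1)) T' = vs d T T'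
    exact Function.update_of_ne (by omega) _ _

theorem vb_succ (d T : ℕ) : vb d (T + 1) = nv d (vs d T) (T + 1) := by
  change Function.update (vs d T) (T + 1) (nv d (vs d T) (T + 1)) (T + 1) = _
  exact Function.update_self _ _ _

theorem le_nv (d : ℕ) (v : ℕ → ℕ) (T F : ℕ) (hF : F ≤ 2 ^ (T + 1))
    (h : ∀ p < F, fb d v (T + 1 - d) p) : F ≤ nv d v T := by
  unfold nv
  apply le_max_of_le_right
  exact @Nat.le_findGreatest _ _ (_) _ hF h

end ICF

open ICF in
theorem pr_CF (h1 : S_ZbE) (h2 : S_BGr) (h3 : S_VbG) : S_CF := by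
  intro d t L hd hL hdL
  rcases Nat.eq_zero_or_pos t with ht | ht
  · subst ht
    simp
  obtain ⟨F, hF⟩ : ∃ F : ℕ, F = ⌈(t : ℝ) * d / L⌉₊ := ⟨_, rfl⟩
  have hL0 : (0 : ℝ) < L := by linarith
  have hle : (t : ℝ) * d / L ≤ F := by rw [hF]; exact Nat.le_ceil _
  refine hle.trans ?_
  have hT : 2 * d - 1 + t = (2 * d - 2 + t) + 1 := by omega
  rw [hT, vb_succ]
  have hmain : F ≤ nv d (vs d (2 * d - 2 + t)) (2 * d - 2 + t + 1) := by
    apply le_nv
    · rw [hF]
      apply Nat.ceil_le.2
      have h4 : (t : ℝ) * d / L ≤ t * d := by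
        apply div_le_self (by positivity)
        linarith
      refine h4.trans ?_
      have h5 : t * d ≤ 2 ^ (2 * d - 2 + t + 1 + 1) := by
        have h6 : t ≤ 2 ^ t := Nat.lt_two_pow_self.le
        have h7 : d ≤ 2 ^ (2 * d) := Nat.lt_two_pow_self.le.trans
          (Nat.pow_le_pow_right (by norm_num) (by omega))
        calc t * d ≤ 2 ^ t * 2 ^ (2 * d) := Nat.mul_le_mul h6 h7
          _ = 2 ^ (t + 2 * d) := (pow_add _ _ _).symm
          _ ≤ _ := Nat.pow_le_pow_right (by norm_num) (by omega)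
      exact_mod_cast h5
    · intro p hp
      have e : 2 * d - 2 + t + 1 + 1 - d = d + t := by omega
      rw [e]
      apply h1 d t p _ L (by omega) ht hL hdL
      · intro T hT1 hT2
        rw [vs_eq d _ T (by omega)]
        have h4 := h2 d T hd
        have h5 := h3 d T hd
        omega
      · rw [hF] at hp
        exact Nat.lt_ceil.1 hp
  exact_mod_cast hmain

end Pool.Agent.Work.MP_1233f5_ag.Z
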