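import Pool.Agent.Work.MP_1233f5_ag.Z.Stmts

/-! MP_1233f5_ag, block Z, item CfAlc: contractions of alternating elements. -/

set_option autoImplicit false

namespace Pool.Agent.Work.MP_1233f5_ag.Z

open Finset
open Pool.Agent.Work.MP_1233f5_ag.V (vm ML theta rVan)
open Pool.Agent.Work.MP_1233f5_ag.Y

namespace ICfAlc

variable {K : Type} [Field K] {α : Type}

theorem im_inj (σ : Equiv.Perm α) {e e' : Finset α} (h : im σ e = im σ e') : e = e' :=
  Finset.map_injective σ.toEmbedding h

theorem single_im (σ : Equiv.Perm α) (e e' : Finset α) :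
    (Finsupp.lapply (im σ e) : (Finset α →₀ K) →ₗ[K] K) (Finsupp.single (im σ e') 1) =
      (Finsupp.lapply e : (Finset α →₀ K) →ₗ[K] K) (Finsupp.single e' 1) := by
  rw [Finsupp.lapply_apply, Finsupp.lapply_apply]
  by_cases h : e' = e
  · subst h
    rw [Finsupp.single_eq_same, Finsupp.single_eq_same]
  · rw [Finsupp.single_eq_of_ne' h, Finsupp.single_eq_of_ne' fun hc => h (im_inj σ hc)]

theorem act_ctr (σ : Equiv.Perm α) (e : Finset α) (x : Lx K α) :
    act K α σ (ctr (Finsupp.lapply e) x) = ctr (Finsupp.lapply (im σ e)) (act K α σ x) := by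
  induction x using Lx_induction with
  | h1 => rw [ctr_one, map_zero, act_one, ctr_one]
  | hadd x y hx hy => rw [map_add, map_add, map_add, map_add, hx, hy]
  | hsmul c x hx => rw [map_smul, map_smul, map_smul, map_smul, hx]
  | hed e' x hx =>
    rw [ctr_ed_mul, map_sub, act_mul, act_mul, act_ed, ctr_ed_mul, hx, map_smul, single_im]

theorem act_cf (σ : Equiv.Perm α) (m : ℕ) : ∀ (e : ℕ → Finset α) (x : Lx K α),
    act K α σ (cf m e x) = cf m (fun i => im σ (e i)) (act K α σ x) := by
  induction m with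
  | zero => intro e x; rfl
  | succ m ih =>
    intro e x
    change act K α σ (cf m (fun i => e (i + 1)) (ctr (Finsupp.lapply (e 0)) x)) =
      cf m (fun i => im σ (e (i + 1))) (ctr (Finsupp.lapply (im σ (e 0))) (act K α σ x))
    rw [ih, act_ctr]

theorem cf_congr (m : ℕ) : ∀ (e e' : ℕ → Finset α), (∀ i < m, e i = e' i) → ∀ x : Lx K α,
    cf m e x = cf m e' x := by
  induction m with
  | zero => intro e e' _ x; rfl
  | succ m ih =>
    intro e e' h x
    change cf m (fun i => e (i + 1)) (ctr (Finsupp.lapply (e 0)) x) =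
      cf m (fun i => e' (i + 1)) (ctr (Finsupp.lapply (e' 0)) x)
    rw [h 0 (Nat.succ_pos m)]
    exact ih _ _ (fun i hi => h (i + 1) (Nat.succ_lt_succ hi)) _

end ICfAlc

theorem pr_CfAlc : S_CfAlc := by
  intro K _ α _ _ χ m e R z hR hz σ hσ hχ
  have h1 : ∀ i < m, im σ (e i) = e i := fun i hi =>
    im_eq_self fun a ha => hσ a fun hc => (Finset.disjoint_left.1 (hR i hi)) ha hc
  rw [ICfAlc.act_cf, ICfAlc.cf_congr m (fun i => im σ (e i)) e h1, hz σ hσ hχ, map_smul]

end Pool.Agent.Work.MP_1233f5_ag.Z
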