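import Pool.Agent.Work.MP_1233f5_ag.Z.Stmts
import Pool.Agent.Work.MP_1233f5_ag.Bdx.B02

set_option autoImplicit false

namespace Pool.Agent.Work.MP_1233f5_ag.Z

open Finset
open Pool.Agent.Work.MP_1233f5_ag.V (vm ML theta rVan)
open Pool.Agent.Work.MP_1233f5_ag.Y

namespace IChain

variable {α : Type} [DecidableEq α]

theorem bs_card {r m : ℕ} {P : Finset α} {q : ℕ → α} {f : ℕ → Finset α} (h : BV r P m q f) :
    (bs m q f).card = m * (r + 1) + 1 := by
  have l : ∀ {i}, i ∈ range (m + 1) → i ≤ m := fun hi => Nat.le_of_lt_succ (mem_range.1 hi)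
  rw [bs, card_union_of_disjoint, card_image_of_injOn, card_biUnion,
    sum_congr rfl fun i hi => h.card i (mem_range.1 hi), sum_const, card_range, card_range,
    smul_eq_mul]
  · ring
  · intro i hi j hj hij
    exact h.dis i (mem_range.1 hi) j (mem_range.1 hj) hij
  · intro i hi j hj hij
    exact h.inj i (l hi) j (l hj) hij
  · rw [disjoint_left]
    intro x hx hx'
    obtain ⟨i, hi, rfl⟩ := mem_image.1 hx
    obtain ⟨j, hj, h2⟩ := mem_biUnion.1 hx'
    exact h.out i (l hi) j (mem_range.1 hj) h2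

omit [DecidableEq α] in
/-- pigeonhole -/
theorem pigeon (P : Finset α) (χ : α → ℕ) (s : ℕ) (hP : P.Nonempty)
    (hc : (P.image χ).card ≤ s + 1) :
    ∃ k ∈ P.image χ, (P.card + s) / (s + 1) ≤ (P.filter fun a => χ a = k).card := by
  have hpos : 0 < P.card := hP.card_pos
  have h1 : 1 ≤ (P.card + s) / (s + 1) := (Nat.le_div_iff_mul_le (by omega)).2 (by omega)
  have h2 : (P.card + s) / (s + 1) * (s + 1) ≤ P.card + s := Nat.div_mul_le_self _ _
  obtain ⟨k, hk, hk2⟩ := Finset.exists_lt_card_fiber_of_mul_lt_card_of_maps_to (s := P)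
    (t := P.image χ) (f := χ) (n := (P.card + s) / (s + 1) - 1)
    (fun a ha => mem_image_of_mem _ ha) (by
      calc (P.image χ).card * ((P.card + s) / (s + 1) - 1)
          ≤ (s + 1) * ((P.card + s) / (s + 1) - 1) := Nat.mul_le_mul_right _ hc
        _ < P.card := by
          obtain ⟨n, hn⟩ := Nat.exists_eq_add_of_le' h1
          rw [hn] at h2 ⊢
          rw [Nat.add_sub_cancel]
          nlinarith)
  exact ⟨k, hk, by omega⟩

/-- enumeration of a set -/
theorem enum (Q : Finset α) (m : ℕ) (hQ : Q.card = m + 1) :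
    ∃ q : ℕ → α, (∀ i ≤ m, ∀ i' ≤ m, q i = q i' → i = i') ∧ (∀ i ≤ m, q i ∈ Q) ∧
      (range (m + 1)).image q = Q := by
  have e := Q.equivFinOfCardEq hQ
  have hmod : ∀ i, i % (m + 1) < m + 1 := fun i => Nat.mod_lt _ (by omega)
  refine ⟨fun i => (e.symm ⟨i % (m + 1), hmod i⟩ : Q), ?_, fun i _ => (e.symm _).2, ?_⟩
  · intro i hi i' hi' h
    have h1 := e.symm.injective (Subtype.ext h)
    have h2 : i % (m + 1) = i' % (m + 1) := congrArg Fin.val h1
    rwa [Nat.mod_eq_of_lt (by omega), Nat.mod_eq_of_lt (by omega)] at h2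
  · apply Subset.antisymm
    · intro a ha
      obtain ⟨i, -, rfl⟩ := mem_image.1 ha
      exact (e.symm _).2
    · intro a ha
      refine mem_image.2 ⟨(e ⟨a, ha⟩ : Fin (m + 1)), mem_range.2 (e ⟨a, ha⟩).2, ?_⟩
      have : (⟨((e ⟨a, ha⟩ : Fin (m + 1)) : ℕ) % (m + 1), hmod _⟩ : Fin (m + 1)) = e ⟨a, ha⟩ := by
        apply Fin.ext
        exact Nat.mod_eq_of_lt (e ⟨a, ha⟩).2
      show ((e.symm ⟨((e ⟨a, ha⟩ : Fin (m + 1)) : ℕ) % (m + 1), hmod _⟩ : Q) : α) = a
      rw [this, Equiv.symm_apply_apply]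

omit [DecidableEq α] in
/-- fewer colours outside a colour class -/
theorem colours {P Q R : Finset α} {χ : α → ℕ} {s k : ℕ} (hk : k ∈ P.image χ)
    (hc : (P.image χ).card ≤ s + 1) (hQ : Q = P.filter fun a => χ a = k) (hR : R ⊆ P)
    (hRQ : Disjoint R Q) : (R.image χ).card ≤ s := by
  have h1 : R.image χ ⊆ (P.image χ).erase k := by
    intro b hb
    obtain ⟨a, ha, rfl⟩ := mem_image.1 hb
    refine mem_erase.2 ⟨fun h => ?_, mem_image_of_mem _ (hR ha)⟩
    refine (disjoint_left.1 hRQ ha) ?_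
    rw [hQ]
    exact mem_filter.2 ⟨hR ha, h⟩
  have h2 := card_le_card h1
  rw [card_erase_of_mem hk] at h2
  omega

end IChain

open IChain in
theorem pr_Chain (hRedABc : S_RedABc) (hRedCc : S_RedCc) (hAv : S_Av) (hEBd : S_EBd)
    (hQCy : S_QCy) : S_Chain := by
  intro K _ _ r T s c hr h1 h2 α _ _ P χ hP hcol z hz
  have hne : P.Nonempty := card_pos.1 (by rw [hP]; omega)
  obtain ⟨k, hk, hkQ⟩ := pigeon P χ s hne hcol
  have hkne : (P.filter fun a => χ a = k).Nonempty := by
    obtain ⟨a, ha, rfl⟩ := mem_image.1 hk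
    exact ⟨a, mem_filter.2 ⟨ha, rfl⟩⟩
  obtain ⟨m, hm⟩ : ∃ m, (P.filter fun a => χ a = k).card = m + 1 :=
    ⟨(P.filter fun a => χ a = k).card - 1, by have := hkne.card_pos; omega⟩
  obtain ⟨Q, hQ⟩ : ∃ Q, Q = P.filter fun a => χ a = k := ⟨_, rfl⟩
  rw [← hQ] at hm hkQ
  obtain ⟨q, hinj, hqQ, hqim⟩ := enum Q m hm
  have hQP : Q ⊆ P := by rw [hQ]; exact filter_subset _ _
  have hqP : ∀ i ≤ m, q i ∈ P := fun i hi => hQP (hqQ i hi)
  have hqχ : ∀ i ≤ m, χ (q i) = k := fun i hi => by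
    have := hqQ i hi
    rw [hQ] at this
    exact (mem_filter.1 this).2
  -- part 1: `E`
  obtain ⟨y, hy, hzy⟩ := hRedABc K α χ r m c P q hr hinj hqP
    (fun i hi => by rw [hqχ i hi, hqχ 0 (Nat.zero_le _)]) z hz
  have hyB : y ∈ Bd K (r + 1) P c ⊔ spQ K r P m c q (Mt K (r + 1)) := by
    have hle : spE K r P m c q (CyA K χ (r + 1)) ≤
        Bd K (r + 1) P c ⊔ spQ K r P m c q (Mt K (r + 1)) := by
      refine Submodule.span_le.2 ?_
      rintro _ ⟨f, w, hE, hmc, hw, rfl⟩
      refine hEBd K α r m c P q f hE hmc w ?_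
      refine h1 (c - (m + 1)) (by omega) α (P \ es m q f) χ ?_ ?_ hw
      · have h3 := card_le_card (RedX.es_sub hE)
        rw [RedX.es_card hE] at h3
        rw [card_sdiff_of_subset (RedX.es_sub hE), RedX.es_card hE, hP, Nat.sub_mul]
        have h4 : (m + 1) * (r + 1) ≤ c * (r + 1) := Nat.mul_le_mul_right _ hmc
        omega
      · refine colours hk hcol hQ sdiff_subset ?_
        rw [← hqim]
        exact disjoint_sdiff_self_left.mono_right subset_union_left
    exact hle hy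
  have hz1 : z ∈ Bd K (r + 1) P c ⊔ spQ K r P m c q (Mt K (r + 1)) := by
    have e : z = y + (z - y) := by abel
    rw [e]
    exact Submodule.add_mem _ hyB (Submodule.mem_sup_right hzy)
  -- part 2: averaging and `q`
  obtain ⟨x, hxM, hzx, hxC, hxA⟩ := hAv K α χ r m c P q hqP z hz hz1
  have hx := hRedCc K α χ r m c P q hr hinj hqP x hxC hxA hxM
  have hle : spQ K r P m c q (CyA K χ (r + 1)) ≤ Bd K (r + 1) P c := by
    refine Submodule.span_le.2 ?_
    rintro _ ⟨f, w, hB, hmc, hw, rfl⟩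
    have hwB : w ∈ Bd K (r + 1) (P \ bs m q f) (c - m) := by
      have h3 := h2 (m + 1) (by rw [← hm, ← hP]; exact hkQ) (by omega)
      rw [show c + 1 - (m + 1) = c - m by omega] at h3
      refine h3 α (P \ bs m q f) χ ?_ ?_ hw
      · have h3 := card_le_card (RedX.bs_sub hB)
        rw [bs_card hB] at h3
        rw [card_sdiff_of_subset (RedX.bs_sub hB), bs_card hB, hP, Nat.sub_mul]
        have h4 : m * (r + 1) ≤ c * (r + 1) := Nat.mul_le_mul_right _ hmc
        omega
      · refine colours hk hcol hQ sdiff_subset ?_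
        rw [← hqim]
        exact disjoint_sdiff_self_left.mono_right subset_union_left
    have h3 := hQCy K α r m (bs m q f) q f (RedX.bv_bs hB)
    have h4 := Cy_mul_Bd (disjoint_sdiff (s := bs m q f) (t := P)) h3 hwB
    rw [Nat.add_sub_cancel' hmc] at h4
    exact Bd_mono (union_subset (RedX.bs_sub hB) sdiff_subset) h4
  have e : z = (z - x) + x := by abel
  rw [e]
  exact Submodule.add_mem _ hzx (hle hx)

end Pool.Agent.Work.MP_1233f5_ag.Z
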