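import Pool.Agent.Work.MP_1233f5_ag.Z.Stmts

/-! MP_1233f5_ag, block Z, item Cx2. -/

set_option autoImplicit false

namespace Pool.Agent.Work.MP_1233f5_ag.Z

open Finset
open Pool.Agent.Work.MP_1233f5_ag.V (vm ML theta rVan)
open Pool.Agent.Work.MP_1233f5_ag.Y

namespace ICx2

variable {K : Type} [Field K] {α : Type} [DecidableEq α]

theorem im_insert (σ : Equiv.Perm α) (x : α) (w : Finset α) :
    im σ (insert x w) = insert (σ x) (im σ w) := by
  unfold im
  rw [Finset.map_insert]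
  rfl

/-- the extension of a permutation to one more point. -/
noncomputable def ex {a : ℕ} (τ : Equiv.Perm (Fin a)) : Equiv.Perm (Fin (a + 1)) :=
  τ.viaFintypeEmbedding (Fin.castSuccEmb (n := a))

theorem ex_castSucc {a : ℕ} (τ : Equiv.Perm (Fin a)) (i : Fin a) :
    ex τ i.castSucc = (τ i).castSucc :=
  Equiv.Perm.viaFintypeEmbedding_apply_image τ (Fin.castSuccEmb (n := a)) i

theorem sign_ex {a : ℕ} (τ : Equiv.Perm (Fin a)) :
    Equiv.Perm.sign (ex τ) = Equiv.Perm.sign τ :=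
  Equiv.Perm.viaFintypeEmbedding_sign τ (Fin.castSuccEmb (n := a))

theorem act_cx (a : ℕ) (x : ℕ → α) (w : ℕ → Finset α) (σ : Equiv.Perm α) :
    act K α σ (cx a x w) = cx a (fun i => σ (x i)) (fun i => im σ (w i)) := by
  unfold cx
  rw [map_sum]
  refine Finset.sum_congr rfl fun τ _ => ?_
  rw [map_smul, act_mo]
  congr 2
  funext i
  exact im_insert σ _ _

theorem sign_sq {p : ℕ} (τ : Equiv.Perm (Fin p)) :
    ((Equiv.Perm.sign τ : ℤ) : K) * ((Equiv.Perm.sign τ : ℤ) : K) = 1 := by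
  rcases Int.units_eq_one_or (Equiv.Perm.sign τ) with h | h
  · rw [h]; simp
  · rw [h]; simp

theorem cx_perm (a : ℕ) (x : ℕ → α) (w : ℕ → Finset α) (x' : ℕ → α) (τ : Equiv.Perm (Fin a))
    (h : ∀ i : Fin a, x' (i : ℕ) = x ((τ i : Fin a) : ℕ)) :
    (cx a x' w : Lx K α) = cx a x w := by
  unfold cx
  refine Fintype.sum_equiv (Equiv.mulRight (ex τ)⁻¹) _ _ fun σ => ?_
  rw [Equiv.coe_mulRight]
  have h1 : (fun i : Fin a => insert (x' (i : ℕ)) (w ((σ i.castSucc : Fin (a + 1)) : ℕ))) =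
      (fun i : Fin a => insert (x (i : ℕ))
        (w (((σ * (ex τ)⁻¹ : Equiv.Perm (Fin (a + 1))) i.castSucc : Fin (a + 1)) : ℕ))) ∘ τ := by
    funext i
    have h2 : (σ * (ex τ)⁻¹ : Equiv.Perm (Fin (a + 1))) (τ i).castSucc = σ i.castSucc := by
      have h3 : (ex τ)⁻¹ (ex τ i.castSucc) = i.castSucc := (ex τ).symm_apply_apply _
      rw [← ex_castSucc, Equiv.Perm.mul_apply, h3]
    rw [Function.comp_apply, h2, h i]
  rw [h1, mo_perm, smul_smul]
  congr 1
  rw [Equiv.Perm.sign_mul, Equiv.Perm.sign_inv, sign_ex]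
  push_cast
  rfl

end ICx2

theorem pr_Cx2 : S_Cx2 := fun _ _ _ _ a x w =>
  ⟨fun σ => ICx2.act_cx a x w σ, fun x' τ h => ICx2.cx_perm a x w x' τ h⟩

end Pool.Agent.Work.MP_1233f5_ag.Z
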