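import Pool.Agent.Work.MP_1233f5_ag.Z.Stmts

/-! MP_1233f5_ag, block Z, item [Dec]: decomposition with respect to a point. -/

set_option autoImplicit false

namespace Pool.Agent.Work.MP_1233f5_ag.Z

open Finset
open Pool.Agent.Work.MP_1233f5_ag.V (vm ML theta rVan)
open Pool.Agent.Work.MP_1233f5_ag.Y

namespace IDec

variable {K : Type} [Field K] {α : Type} [DecidableEq α]

/-- a product of disjoint sets: either none contains `y`, or exactly one does. -/
theorem mo_split {r : ℕ} {y : α} : ∀ (p : ℕ) (R : Finset α), y ∉ R →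
    ∀ t : Fin (p + 1) → Finset α, vm (r + 1) (insert y R) (p + 1) t →
    ((mo t : Lx K α) ∈ Mt K (r + 1) R (p + 1)) ∨
      ∃ w ∈ R.powersetCard r, ∃ x ∈ Mt K (r + 1) (R \ w) p,
        (mo t : Lx K α) = ed (insert y w) * x := by
  intro p
  induction p with
  | zero =>
    intro R hy t ht
    have h0 := ht.1 0
    by_cases h : y ∈ t 0
    · right
      refine ⟨(t 0).erase y, ?_, mo (Fin.tail t), ?_, ?_⟩
      · rw [mem_powersetCard]
        refine ⟨?_, ?_⟩
        · intro a ha
          rw [mem_erase] at ha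
          exact (mem_insert.1 (h0.2 ha.2)).resolve_left ha.1
        · rw [card_erase_of_mem h, h0.1]
          rfl
      · rw [mo_zero]
        exact one_mem_Mt _ _
      · rw [insert_erase h]
        exact mo_succ t
    · left
      refine mo_mem_Mt ⟨fun i => ?_, fun i j hij => ?_⟩
      · have hi : i = 0 := Fin.eq_zero i
        rw [hi]
        refine ⟨h0.1, fun a ha => ?_⟩
        exact (mem_insert.1 (h0.2 ha)).resolve_left (fun hc => h (hc ▸ ha))
      · exact absurd ((Fin.eq_zero i).trans (Fin.eq_zero j).symm) hij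
  | succ p ih =>
    intro R hy t ht
    have h0 := ht.1 0
    by_cases h : y ∈ t 0
    · right
      refine ⟨(t 0).erase y, ?_, mo (Fin.tail t), ?_, ?_⟩
      · rw [mem_powersetCard]
        refine ⟨?_, ?_⟩
        · intro a ha
          rw [mem_erase] at ha
          exact (mem_insert.1 (h0.2 ha.2)).resolve_left ha.1
        · rw [card_erase_of_mem h, h0.1]
          rfl
      · refine Mt_mono ?_ (mo_mem_Mt (vm_tail ht))
        intro a ha
        rw [mem_sdiff, mem_insert] at ha
        rw [mem_sdiff, mem_erase]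
        refine ⟨ha.1.resolve_left (fun hc => ha.2 (hc ▸ h)), fun hc => ha.2 hc.2⟩
      · rw [insert_erase h]
        exact mo_succ t
    · have h0R : t 0 ⊆ R := fun a ha =>
        (mem_insert.1 (h0.2 ha)).resolve_left (fun hc => h (hc ▸ ha))
      have hset : (insert y R) \ t 0 = insert y (R \ t 0) := by
        ext a
        simp only [mem_sdiff, mem_insert]
        constructor
        · rintro ⟨h1 | h1, h2⟩
          · exact Or.inl h1
          · exact Or.inr ⟨h1, h2⟩
        · rintro (h1 | h1)
          · exact ⟨Or.inl h1, fun hc => h (h1 ▸ hc)⟩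
          · exact ⟨Or.inr h1.1, h1.2⟩
      have ht' := vm_tail ht
      rw [hset] at ht'
      rcases ih (R \ t 0) (fun hc => hy (mem_sdiff.1 hc).1) (Fin.tail t) ht' with h1 | h1
      · left
        rw [mo_succ]
        exact ed_mul_mem_Mt h0.1 h0R sdiff_subset disjoint_sdiff h1
      · right
        obtain ⟨w, hw, x, hx, hwx⟩ := h1
        rw [mem_powersetCard] at hw
        have hwt : Disjoint (t 0) w := by
          rw [disjoint_left]
          intro a ha ha'
          exact (mem_sdiff.1 (hw.1 ha')).2 ha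
        refine ⟨w, mem_powersetCard.2 ⟨hw.1.trans sdiff_subset, hw.2⟩, -(ed (t 0) * x), ?_, ?_⟩
        · refine Submodule.neg_mem _ (ed_mul_mem_Mt (P' := (R \ t 0) \ w) h0.1 ?_ ?_ ?_ hx)
          · intro a ha
            rw [mem_sdiff]
            exact ⟨h0R ha, fun hc => disjoint_left.1 hwt ha hc⟩
          · exact sdiff_subset_sdiff sdiff_subset (Subset.refl _)
          · rw [disjoint_left]
            intro a ha ha'
            exact (mem_sdiff.1 (mem_sdiff.1 ha').1).2 ha
        · rw [mo_succ, hwx, ← mul_assoc, ed_mul_ed, neg_mul, mul_neg, mul_assoc]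

/-- the decomposition, without the cycle condition. -/
theorem dec1 {r c : ℕ} {R : Finset α} {y : α} (hy : y ∉ R) {z : Lx K α}
    (hz : z ∈ Mt K (r + 1) (insert y R) (c + 1)) :
    ∃ z0 ∈ Mt K (r + 1) R (c + 1), ∃ f : Finset α → Lx K α,
      (∀ w ∈ R.powersetCard r, f w ∈ Mt K (r + 1) (R \ w) c) ∧
      z = z0 + ∑ w ∈ R.powersetCard r, ed (insert y w) * f w := by
  induction hz using Submodule.span_induction with
  | mem x hx =>
    obtain ⟨t, ht, rfl⟩ := hx
    rcases mo_split (K := K) c R hy t ht with h1 | h1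
    · refine ⟨mo t, h1, fun _ => 0, fun w _ => Submodule.zero_mem _, ?_⟩
      simp
    · obtain ⟨w, hw, x, hx, hwx⟩ := h1
      refine ⟨0, Submodule.zero_mem _, fun w' => if w' = w then x else 0, fun w' _ => ?_, ?_⟩
      · by_cases h : w' = w
        · simp only [h, if_true]
          exact hx
        · simp only [h, if_false]
          exact Submodule.zero_mem _
      · rw [hwx, zero_add]
        simp only [mul_ite, mul_zero]
        rw [Finset.sum_ite_eq' (R.powersetCard r) w, if_pos hw]
  | zero =>
    refine ⟨0, Submodule.zero_mem _, fun _ => 0, fun w _ => Submodule.zero_mem _, ?_⟩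
    simp
  | add a b _ _ ha hb =>
    obtain ⟨a0, ha0, fa, hfa, ha⟩ := ha
    obtain ⟨b0, hb0, fb, hfb, hb⟩ := hb
    refine ⟨a0 + b0, Submodule.add_mem _ ha0 hb0, fun w => fa w + fb w,
      fun w hw => Submodule.add_mem _ (hfa w hw) (hfb w hw), ?_⟩
    rw [ha, hb]
    simp only [mul_add, sum_add_distrib]
    abel
  | smul k a _ ha =>
    obtain ⟨a0, ha0, fa, hfa, ha⟩ := ha
    refine ⟨k • a0, Submodule.smul_mem _ _ ha0, fun w => k • fa w,
      fun w hw => Submodule.smul_mem _ _ (hfa w hw), ?_⟩
    rw [ha, smul_add, smul_sum]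
    simp only [mul_smul_comm]

theorem ctr_ed (e e' : Finset α) (x : Lx K α) :
    ctr (Finsupp.lapply e) (ed e' * x) =
      (if e' = e then x else 0) - ed e' * ctr (Finsupp.lapply e) x := by
  rw [ctr_ed_mul, Finsupp.lapply_apply, Finsupp.single_apply]
  by_cases h : e' = e
  · rw [if_pos h, if_pos h, one_smul]
  · rw [if_neg h, if_neg h, zero_smul]

/-- the contraction with a set containing `y` kills the chains on `R`. -/
theorem ctr_zero {d p : ℕ} {R : Finset α} {y : α} (hy : y ∉ R) (e : Finset α) (he : y ∈ e)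
    {z : Lx K α} (hz : z ∈ Mt K d R p) : ctr (Finsupp.lapply e) z = 0 := by
  induction hz using Submodule.span_induction with
  | mem x hx =>
    obtain ⟨t, ht, rfl⟩ := hx
    have ht2 : ∀ i, t i ≠ e := fun i hi => hy ((ht.1 i).2 (hi ▸ he))
    clear ht
    induction p with
    | zero => rw [mo_zero, ctr_one]
    | succ p ih =>
      rw [mo_succ, ctr_ed, if_neg (ht2 0), ih (Fin.tail t) (fun i => ht2 i.succ), mul_zero,
        sub_zero]
  | zero => rw [map_zero]
  | add a b _ _ ha hb => rw [map_add, ha, hb, add_zero]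
  | smul k a _ ha => rw [map_smul, ha, smul_zero]

end IDec

theorem pr_Dec : S_Dec := by
  intro K _ α _ r c R y hy z hz hDz
  obtain ⟨z0, hz0, f, hf, hzf⟩ := IDec.dec1 hy hz
  have hfw : ∀ w ∈ R.powersetCard r, f w = ctr (Finsupp.lapply (insert y w)) z := by
    intro w hw
    rw [hzf, map_add, IDec.ctr_zero hy (insert y w) (mem_insert_self _ _) hz0, zero_add, map_sum]
    rw [Finset.sum_eq_single w]
    · rw [IDec.ctr_ed, if_pos rfl, IDec.ctr_zero (fun hc => hy (mem_sdiff.1 hc).1) (insert y w)
        (mem_insert_self _ _) (hf w hw), mul_zero, sub_zero]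
    · intro w' hw' hne
      have h1 : insert y w' ≠ insert y w := by
        intro hc
        apply hne
        have hw1 : y ∉ w := fun h => hy ((mem_powersetCard.1 hw).1 h)
        have hw2 : y ∉ w' := fun h => hy ((mem_powersetCard.1 hw').1 h)
        rw [← erase_insert hw1, ← erase_insert hw2, hc]
      rw [IDec.ctr_ed, if_neg h1, IDec.ctr_zero (fun hc => hy (mem_sdiff.1 hc).1) (insert y w)
        (mem_insert_self _ _) (hf w' hw'), mul_zero, sub_zero]
    · intro h
      exact absurd hw h
  have hDf : ∀ w ∈ R.powersetCard r, Dx (f w) = 0 := by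
    intro w hw
    rw [hfw w hw]
    unfold Dx
    rw [ctr_ctr]
    have h1 := IDec.ctr_zero hy (insert y w) (mem_insert_self _ _) hDz
    unfold Dx at h1
    rw [h1, neg_zero]
  refine ⟨z0, hz0, f, fun w hw => ⟨hf w hw, hDf w hw⟩, hzf, ?_⟩
  rw [hzf, map_add, map_sum]
  congr 1
  refine Finset.sum_congr rfl fun w hw => ?_
  rw [Dx_ed_mul, hDf w hw, mul_zero, sub_zero]

end Pool.Agent.Work.MP_1233f5_ag.Z
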