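import Pool.Agent.Work.MP_1233f5_ag.Z.Stmts

/-! MP_1233f5_ag, block Z, item EBd. -/

set_option autoImplicit false
set_option linter.unusedSectionVars false

namespace Pool.Agent.Work.MP_1233f5_ag.Z

open Finset
open Pool.Agent.Work.MP_1233f5_ag.V (vm ML theta rVan)
open Pool.Agent.Work.MP_1233f5_ag.Y

namespace IEBd

variable {K : Type} [Field K] {α : Type} [DecidableEq α]

theorem En_mem {r m : ℕ} {P : Finset α} {q : ℕ → α} {f : ℕ → Finset α} (h : EV r P m q f) :
    (En m q f : Lx K α) ∈ Mt K (r + 1) (es m q f) (m + 1) := by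
  unfold En
  refine Submodule.sum_mem _ fun σ _ => Submodule.smul_mem _ _ (mo_mem_Mt ⟨fun i => ⟨?_, ?_⟩, ?_⟩)
  · rw [card_insert_of_notMem (h.out _ (Nat.le_of_lt_succ (σ i).2) _ (Nat.le_of_lt_succ i.2)),
      h.card _ (Nat.le_of_lt_succ i.2)]
  · intro a ha
    rcases mem_insert.1 ha with rfl | ha
    · exact mem_union_left _ (mem_image_of_mem _ (mem_range.2 (σ i).2))
    · exact mem_union_right _ (mem_biUnion.2 ⟨_, mem_range.2 i.2, ha⟩)
  · intro i j hij
    have hij' : (i : ℕ) ≠ (j : ℕ) := fun hc => hij (Fin.ext hc)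
    have hs : ((σ i : Fin (m + 1)) : ℕ) ≠ ((σ j : Fin (m + 1)) : ℕ) := fun hc =>
      hij (σ.injective (Fin.ext hc))
    rw [disjoint_left]
    intro a ha hb
    rcases mem_insert.1 ha with rfl | ha <;> rcases mem_insert.1 hb with hb | hb
    · exact hs (h.inj _ (Nat.le_of_lt_succ (σ i).2) _ (Nat.le_of_lt_succ (σ j).2) hb)
    · exact h.out _ (Nat.le_of_lt_succ (σ i).2) _ (Nat.le_of_lt_succ j.2) hb
    · rw [hb] at ha
      exact h.out _ (Nat.le_of_lt_succ (σ j).2) _ (Nat.le_of_lt_succ i.2) ha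
    · exact disjoint_left.1 (h.dis _ (Nat.le_of_lt_succ i.2) _ (Nat.le_of_lt_succ j.2) hij') ha hb

theorem es_sub {r m : ℕ} {P : Finset α} {q : ℕ → α} {f : ℕ → Finset α} (h : EV r P m q f) :
    es m q f ⊆ P := by
  intro a ha
  rcases mem_union.1 ha with ha | ha
  · obtain ⟨i, hi, rfl⟩ := mem_image.1 ha
    exact h.mem _ (Nat.le_of_lt_succ (mem_range.1 hi))
  · obtain ⟨i, hi, ha⟩ := mem_biUnion.1 ha
    exact h.sub _ (Nat.le_of_lt_succ (mem_range.1 hi)) ha

theorem skp_eq (k : ℕ) (f : ℕ → Finset α) (i : ℕ) :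
    skp k f i = f (if i < k then i else i + 1) := by
  unfold skp
  split_ifs <;> rfl

theorem skp_BV {r m k : ℕ} {P : Finset α} {q : ℕ → α} {f : ℕ → Finset α} (h : EV r P m q f) :
    BV r P m q (skp k f) := by
  have hle : ∀ i < m, (if i < k then i else i + 1) ≤ m := by
    intro i hi
    split_ifs <;> omega
  refine ⟨h.inj, h.mem, fun i hi => ?_, fun i hi => ?_, fun i hi j hj hij => ?_,
    fun i hi j hj => ?_⟩
  · rw [skp_eq]; exact h.card _ (hle i hi)
  · rw [skp_eq]; exact h.sub _ (hle i hi)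
  · rw [skp_eq, skp_eq]
    refine h.dis _ (hle i hi) _ (hle j hj) ?_
    split_ifs <;> omega
  · rw [skp_eq]; exact h.out i hi _ (hle j hj)

theorem skp_bs {m k : ℕ} {q : ℕ → α} {f : ℕ → Finset α} : bs m q (skp k f) ⊆ es m q f := by
  intro a ha
  rcases mem_union.1 ha with ha | ha
  · exact mem_union_left _ ha
  · obtain ⟨i, hi, ha⟩ := mem_biUnion.1 ha
    rw [skp_eq] at ha
    refine mem_union_right _ (mem_biUnion.2 ⟨_, mem_range.2 ?_, ha⟩)
    have := mem_range.1 hi
    split_ifs <;> omega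

end IEBd

theorem pr_EBd (hED : S_ED) : S_EBd := by
  intro K _ α _ r m j P q f h hj w hw
  obtain ⟨l, hl, rfl⟩ := hw
  have hE := IEBd.En_mem (K := K) h
  have hes := IEBd.es_sub h
  have h1 := Dx_mul hE l
  have hs : ((-1 : K) ^ (m + 1)) * (-1) ^ (m + 1) = 1 := by
    rw [← mul_pow, neg_one_mul, neg_neg, one_pow]
  have h2 : En m q f * Dx l = ((-1 : K) ^ (m + 1)) • Dx (En m q f * l) -
      ((-1 : K) ^ (m + 1)) • (Dx (En m q f) * l) := by
    rw [h1, smul_add, smul_smul, hs, one_smul]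
    abel
  rw [h2]
  refine Submodule.sub_mem _ (Submodule.smul_mem _ _ (Submodule.mem_sup_left ?_))
    (Submodule.smul_mem _ _ (Submodule.mem_sup_right ?_))
  · refine ⟨_, ?_, rfl⟩
    have h3 := Mt_mul (p := m + 1) disjoint_sdiff hE hl
    rw [union_sdiff_of_subset hes] at h3
    rw [show j + 1 = m + 1 + (j - (m + 1) + 1) by omega]
    exact h3
  · rw [hED K α m q f, smul_mul_assoc, sum_mul]
    refine Submodule.smul_mem _ _ (Submodule.sum_mem _ fun k _ => Submodule.subset_span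
      ⟨skp k f, l, IEBd.skp_BV h, by omega, ?_, rfl⟩)
    rw [show j - m = j - (m + 1) + 1 by omega]
    exact Mt_mono (sdiff_subset_sdiff (Subset.refl _) IEBd.skp_bs) hl

end Pool.Agent.Work.MP_1233f5_ag.Z
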