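import Pool.Agent.Work.MP_1233f5_ag.Z.Stmts

/-! MP_1233f5_ag, block Z, item FxA: `Fx` is stable under the permutations of `P`. -/

set_option autoImplicit false

namespace Pool.Agent.Work.MP_1233f5_ag.Z

open Finset
open Pool.Agent.Work.MP_1233f5_ag.V (vm ML theta rVan)
open Pool.Agent.Work.MP_1233f5_ag.Y

namespace IFxA

variable {K : Type} [Field K] {α : Type} [DecidableEq α]

theorem act_cx (σ : Equiv.Perm α) (a : ℕ) (x : ℕ → α) (w : ℕ → Finset α) :
    act K α σ (cx a x w) = cx a (fun i => σ (x i)) (fun i => im σ (w i)) := by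
  unfold cx
  rw [map_sum]
  refine sum_congr rfl fun τ _ => ?_
  rw [map_smul, act_mo]
  simp only [im_insert]

theorem im_inj (σ : Equiv.Perm α) {e e' : Finset α} (h : im σ e = im σ e') : e = e' :=
  Finset.map_injective σ.toEmbedding h

theorem apply_mem_im (σ : Equiv.Perm α) {b : α} {Y : Finset α} : σ b ∈ im σ Y ↔ b ∈ Y := by
  unfold im
  exact Finset.mem_map' σ.toEmbedding

theorem exists_im (σ : Equiv.Perm α) {b : α} {Y : Finset α} (h : b ∈ im σ Y) :
    ∃ c ∈ Y, σ c = b := by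
  unfold im at h
  obtain ⟨c, hc, he⟩ := Finset.mem_map.1 h
  exact ⟨c, hc, he⟩

theorem im_mono (σ : Equiv.Perm α) {Y Y' : Finset α} (h : Y ⊆ Y') : im σ Y ⊆ im σ Y' := by
  intro b hb
  obtain ⟨c, hc, rfl⟩ := exists_im σ hb
  exact (apply_mem_im σ).2 (h hc)

theorem im_disj (σ : Equiv.Perm α) {Y Y' : Finset α} (h : Disjoint Y Y') :
    Disjoint (im σ Y) (im σ Y') := by
  rw [Finset.disjoint_left]
  intro b hb hb'
  obtain ⟨c, hc, rfl⟩ := exists_im σ hb
  exact Finset.disjoint_left.1 h hc ((apply_mem_im σ).1 hb')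

theorem mem_cp {a : ℕ} {x : ℕ → α} {w : ℕ → Finset α} {b : α} :
    b ∈ cp a x w ↔ (∃ i < a, x i = b) ∨ ∃ i < a + 1, b ∈ w i := by
  unfold cp
  simp only [Finset.mem_union, Finset.mem_image, Finset.mem_range, Finset.mem_biUnion]

theorem apply_mem_cp (σ : Equiv.Perm α) (a : ℕ) (x : ℕ → α) (w : ℕ → Finset α) (b : α) :
    σ b ∈ cp a (fun i => σ (x i)) (fun i => im σ (w i)) ↔ b ∈ cp a x w := by
  rw [mem_cp, mem_cp]
  refine or_congr ?_ ?_
  · refine exists_congr fun i => and_congr_right fun _ => ?_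
    exact ⟨fun h => σ.injective h, fun h => congrArg σ h⟩
  · exact exists_congr fun i => and_congr_right fun _ => apply_mem_im σ

theorem im_sdiff_cp {P : Finset α} {σ : Equiv.Perm α} (hσ : Sup P σ) (a : ℕ) (x : ℕ → α)
    (w : ℕ → Finset α) :
    im σ (P \ cp a x w) = P \ cp a (fun i => σ (x i)) (fun i => im σ (w i)) := by
  ext b
  obtain ⟨c, rfl⟩ := σ.surjective b
  rw [apply_mem_im, Finset.mem_sdiff, Finset.mem_sdiff, apply_mem_cp]
  have h : σ c ∈ P ↔ c ∈ P := by
    conv_lhs => rw [← im_sup hσ]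
    exact apply_mem_im σ
  rw [h]

theorem CV_act {r : ℕ} {P : Finset α} {σ : Equiv.Perm α} (hσ : Sup P σ) {a : ℕ} {x : ℕ → α}
    {w : ℕ → Finset α} (h : CV r P a x w) :
    CV r P a (fun i => σ (x i)) (fun i => im σ (w i)) where
  inj i hi j hj he := h.inj i hi j hj (σ.injective he)
  mem i hi := by
    have h1 : σ (x i) ∈ im σ P := (apply_mem_im σ).2 (h.mem i hi)
    rwa [im_sup hσ] at h1
  card i hi := by
    rw [← h.card i hi]
    exact Finset.card_map _
  sub i hi := by
    have h1 := im_mono σ (h.sub i hi)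
    rwa [im_sup hσ] at h1
  dis i hi j hj hij := im_disj σ (h.dis i hi j hj hij)
  out i hi j hj hc := h.out i hi j hj ((apply_mem_im σ).1 hc)

end IFxA

open IFxA in
theorem pr_FxA : S_FxA := by
  intro K _ α _ r a p P σ hσ z hz
  unfold Fx at hz ⊢
  induction hz using Submodule.span_induction with
  | mem z hz =>
    obtain ⟨x, w, κ, hv, hap, hκ, rfl⟩ := hz
    refine Submodule.subset_span ⟨fun i => σ (x i), fun i => im σ (w i), act K α σ κ,
      CV_act hσ hv, hap, ?_, ?_⟩
    · rw [← im_sdiff_cp hσ]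
      exact act_Cy σ hκ
    · rw [act_mul, act_cx]
  | zero => rw [map_zero]; exact Submodule.zero_mem _
  | add x y _ _ hx hy => rw [map_add]; exact Submodule.add_mem _ hx hy
  | smul c x _ hx => rw [map_smul]; exact Submodule.smul_mem _ _ hx

end Pool.Agent.Work.MP_1233f5_ag.Z
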