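import Pool.Agent.Work.MP_1233f5_ag.Z.Stmts

/-! MP_1233f5_ag, block Z, item Gott. -/

set_option autoImplicit false

namespace Pool.Agent.Work.MP_1233f5_ag.Z

open Finset

namespace IGott

variable {α : Type} [DecidableEq α]

theorem card_ins_mem {S X : Finset α} {y : α} (hS : y ∈ S) :
    (insert y X \ S).card = (X \ S).card := by
  rw [insert_sdiff_of_mem _ hS]

theorem card_ins_not {S X : Finset α} {y : α} (hS : y ∉ S) (hX : y ∉ X) :
    (insert y X \ S).card = (X \ S).card + 1 := by
  rw [insert_sdiff_of_notMem _ hS, card_insert_of_notMem]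
  simp [hX]

/-- the number of the `y` with `|insert y X \ S| = i + 1`. -/
theorem cnt {H : Type} [AddCommGroup H] (a i : ℕ) (Z S X : Finset α) (h : H)
    (hZ : Z.card = 2 * a + 1) (hSZ : S ⊆ Z) (hS : S.card = a) (hXZ : X ⊆ Z) (hX : X.card = a) :
    ∑ _y ∈ (Z \ X).filter (fun y => (insert y X \ S).card = i + 1), h =
      (if (X \ S).card = i + 1 then (i + 1) • h else 0) +
        (if (X \ S).card = i then (a + 1 - i) • h else 0) := by
  rw [sum_const]
  by_cases h1 : (X \ S).card = i + 1
  · have h2 : (X \ S).card ≠ i := by omega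
    rw [if_pos h1, if_neg h2, add_zero]
    congr 1
    have : (Z \ X).filter (fun y => (insert y X \ S).card = i + 1) = S \ X := by
      ext y
      simp only [mem_filter, mem_sdiff]
      constructor
      · rintro ⟨⟨_, h4⟩, h5⟩
        refine ⟨?_, h4⟩
        by_contra h6
        rw [card_ins_not h6 h4] at h5
        omega
      · rintro ⟨h3, h4⟩
        exact ⟨⟨hSZ h3, h4⟩, by rw [card_ins_mem h3, h1]⟩
    rw [this, card_sdiff_comm (hS.trans hX.symm), h1]
  · rw [if_neg h1, zero_add]
    by_cases h2 : (X \ S).card = i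
    · rw [if_pos h2]
      congr 1
      have : (Z \ X).filter (fun y => (insert y X \ S).card = i + 1) = Z \ (X ∪ S) := by
        ext y
        simp only [mem_filter, mem_sdiff, mem_union, not_or]
        constructor
        · rintro ⟨⟨h3, h4⟩, h5⟩
          refine ⟨h3, h4, ?_⟩
          intro h6
          rw [card_ins_mem h6] at h5
          omega
        · rintro ⟨h3, h4, h5⟩
          exact ⟨⟨h3, h4⟩, by rw [card_ins_not h5 h4, h2]⟩
      rw [this, card_sdiff_of_subset (union_subset hXZ hSZ)]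
      have h3 := card_sdiff_add_card X S
      omega
    · rw [if_neg h2]
      have : (Z \ X).filter (fun y => (insert y X \ S).card = i + 1) = ∅ := by
        ext y
        simp only [mem_filter, mem_sdiff, notMem_empty, iff_false]
        rintro ⟨⟨h3, h4⟩, h5⟩
        by_cases h6 : y ∈ S
        · rw [card_ins_mem h6] at h5
          exact h1 h5
        · rw [card_ins_not h6 h4] at h5
          omega
      rw [this, card_empty, zero_smul]

/-- the sums `u i`. -/
noncomputable def u {H : Type} [AddCommGroup H] (a : ℕ) (Z S : Finset α) (g : Finset α → H)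
    (i : ℕ) : H :=
  ∑ X ∈ Z.powersetCard a with (X \ S).card = i, g X

theorem step {H : Type} [AddCommGroup H] (a i : ℕ) (Z S : Finset α) (g : Finset α → H)
    (hZ : Z.card = 2 * a + 1) (hSZ : S ⊆ Z) (hS : S.card = a)
    (hg : ∀ Z' ⊆ Z, Z'.card = a + 1 → ∑ y ∈ Z', g (Z'.erase y) = 0) :
    (i + 1) • u a Z S g (i + 1) + (a + 1 - i) • u a Z S g i = 0 := by
  have h1 : ∑ Z' ∈ Z.powersetCard (a + 1) with (Z' \ S).card = i + 1,
      ∑ y ∈ Z', g (Z'.erase y) = 0 := by
    refine sum_eq_zero fun Z' hZ' => ?_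
    rw [mem_filter, mem_powersetCard] at hZ'
    exact hg Z' hZ'.1.1 hZ'.1.2
  have h2 : ∑ Z' ∈ Z.powersetCard (a + 1) with (Z' \ S).card = i + 1,
      ∑ y ∈ Z', g (Z'.erase y) =
      ∑ X ∈ Z.powersetCard a,
        ∑ _y ∈ (Z \ X).filter (fun y => (insert y X \ S).card = i + 1), g X := by
    rw [sum_sigma', sum_sigma']
    refine sum_bij' (fun p _ => (⟨p.1.erase p.2, p.2⟩ : (_ : Finset α) × α))
      (fun q _ => (⟨insert q.2 q.1, q.2⟩ : (_ : Finset α) × α)) ?_ ?_ ?_ ?_ ?_
    · rintro ⟨Z', y⟩ hp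
      simp only [mem_sigma, mem_filter, mem_powersetCard, mem_sdiff] at hp ⊢
      obtain ⟨⟨⟨p1, p2⟩, p3⟩, p4⟩ := hp
      refine ⟨⟨(erase_subset _ _).trans p1, ?_⟩, ⟨p1 p4, notMem_erase _ _⟩, ?_⟩
      · rw [card_erase_of_mem p4, p2]
        omega
      · rw [insert_erase p4]
        exact p3
    · rintro ⟨X, y⟩ hq
      simp only [mem_sigma, mem_filter, mem_powersetCard, mem_sdiff] at hq ⊢
      obtain ⟨⟨q1, q2⟩, ⟨q3, q4⟩, q5⟩ := hq
      refine ⟨⟨⟨insert_subset q3 q1, ?_⟩, q5⟩, mem_insert_self _ _⟩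
      rw [card_insert_of_notMem q4, q2]
    · rintro ⟨Z', y⟩ hp
      simp only [mem_sigma] at hp
      simp only [insert_erase hp.2]
    · rintro ⟨X, y⟩ hq
      simp only [mem_sigma, mem_filter, mem_sdiff] at hq
      simp only [erase_insert hq.2.1.2]
    · rintro ⟨Z', y⟩ hp
      rfl
  rw [h2] at h1
  rw [sum_congr rfl fun X hX => cnt a i Z S X (g X) hZ hSZ hS (mem_powersetCard.1 hX).1
    (mem_powersetCard.1 hX).2, sum_add_distrib, ← sum_filter, ← sum_filter, ← smul_sum,
    ← smul_sum] at h1
  exact h1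

end IGott

theorem pr_Gott : S_Gott := by
  intro K _ _ α _ H _ _ a Z g hZ hg S hSZ hS
  have htop : ∀ i, a < i → IGott.u a Z S g i = 0 := by
    intro i hi
    unfold IGott.u
    rw [filter_eq_empty_iff.2, sum_empty]
    intro X hX h
    rw [mem_powersetCard] at hX
    have := card_le_card (sdiff_subset : X \ S ⊆ X)
    omega
  have hdown : ∀ j, ∀ i, i + j = a + 1 → IGott.u a Z S g i = 0 := by
    intro j
    induction j with
    | zero => exact fun i hi => htop i (by omega)
    | succ j ih =>
      intro i hi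
      have h1 := IGott.step a i Z S g hZ hSZ hS hg
      rw [ih (i + 1) (by omega), smul_zero, zero_add, ← Nat.cast_smul_eq_nsmul K] at h1
      rcases smul_eq_zero.1 h1 with h2 | h2
      · exfalso
        have h3 : a + 1 - i ≠ 0 := by omega
        exact h3 (by exact_mod_cast h2)
      · exact h2
  have h0 := hdown (a + 1) 0 (by omega)
  unfold IGott.u at h0
  have hf : (Z.powersetCard a).filter (fun X => (X \ S).card = 0) = {S} := by
    ext X
    simp only [mem_filter, mem_powersetCard, mem_singleton, card_eq_zero, sdiff_eq_empty_iff_subset]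
    constructor
    · rintro ⟨⟨h1, h2⟩, h3⟩
      exact eq_of_subset_of_card_le h3 (by omega)
    · rintro rfl
      exact ⟨⟨hSZ, hS⟩, Subset.refl _⟩
  rw [hf, sum_singleton] at h0
  exact h0

end Pool.Agent.Work.MP_1233f5_ag.Z
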