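import Pool.Agent.Work.MP_1233f5_ag.Z.Stmts

/-! MP_1233f5_ag, block Z, item MainZ (helper78). -/

set_option autoImplicit false

namespace Pool.Agent.Work.MP_1233f5_ag.Z

open Finset
open Pool.Agent.Work.MP_1233f5_ag.V (vm ML theta rVan)
open Pool.Agent.Work.MP_1233f5_ag.Y

namespace IMainZ

theorem vb_zero (d : ℕ) : vb d 0 = 0 := rfl

theorem vs_succ_self (d T : ℕ) : vs d (T + 1) (T + 1) = nv d (vs d T) (T + 1) := by
  show Function.update (vs d T) (T + 1) (nv d (vs d T) (T + 1)) (T + 1) = _
  rw [Function.update_self]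

theorem vs_succ_ne (d T T' : ℕ) (h : T' ≠ T + 1) : vs d (T + 1) T' = vs d T T' := by
  show Function.update (vs d T) (T + 1) (nv d (vs d T) (T + 1)) T' = _
  rw [Function.update_of_ne h]

theorem vs_big (d : ℕ) : ∀ T T' : ℕ, T < T' → vs d T T' = 0 := by
  intro T
  induction T with
  | zero => intro T' _; rfl
  | succ T ih =>
    intro T' h
    rw [vs_succ_ne d T T' (by omega)]
    exact ih T' (by omega)

theorem vs_small (d : ℕ) : ∀ T T' : ℕ, T' ≤ T → vs d T T' = vb d T' := by
  intro T
  induction T with
  | zero =>
    intro T' h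
    have h0 : T' = 0 := by omega
    subst h0
    rfl
  | succ T ih =>
    intro T' h
    by_cases h1 : T' = T + 1
    · subst h1
      rfl
    · rw [vs_succ_ne d T T' h1]
      exact ih T' (by omega)

theorem vb_succ (d T : ℕ) : vb d (T + 1) = nv d (vs d T) (T + 1) := vs_succ_self d T

theorem fb_zero {d : ℕ} {v : ℕ → ℕ} {p : ℕ} (h : fb d v 0 p) : False := by
  have h1 := h 0 (Nat.zero_le _)
  exact h1

theorem nv_cases {d : ℕ} {v : ℕ → ℕ} {T p : ℕ} (h : p < nv d v T) :
    (T = 2 * d - 1 ∧ p < theta d T) ∨
    (T ≠ 2 * d - 1 ∧ p < theta d T ∧ p < v (T - 1) + T / (d - 1) + 1) ∨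
    fb d v (T + 1 - d) p := by
  classical
  unfold nv at h
  rcases lt_max_iff.1 h with h | h
  · by_cases hT : T = 2 * d - 1
    · rw [if_pos hT] at h
      exact Or.inl ⟨hT, h⟩
    · rw [if_neg hT] at h
      exact Or.inr (Or.inl ⟨hT, lt_of_lt_of_le h (min_le_left _ _),
        lt_of_lt_of_le h (min_le_right _ _)⟩)
  · refine Or.inr (Or.inr ?_)
    have h1 := Nat.findGreatest_spec (P := fun F => ∀ p < F, fb d v (T + 1 - d) p)
      (m := 0) (n := 2 ^ (T + 1)) (Nat.zero_le _) (fun p hp => absurd hp (Nat.not_lt_zero p))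
    exact h1 p h

end IMainZ

open IMainZ in
theorem pr_MainZ (hRlb : S_Rlb) (hStarF : S_StarF) (hMain3 : S_Main3)
    (hStep : Pool.Agent.Work.MP_1233f5_ag.V.S_Step) : S_MainZ := by
  intro K _ _ d T
  induction T using Nat.strong_induction_on with
  | _ T ihT =>
    intro p
    rcases T with _ | T
    · intro _ hp
      rw [vb_zero] at hp
      exact absurd hp (Nat.not_lt_zero p)
    · induction p using Nat.strong_induction_on with
      | _ p ihp =>
        intro hd hp
        have hp0 := hp
        rw [vb_succ] at hp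
        rcases nv_cases hp with ⟨hT, hp1⟩ | ⟨hT, hp1, hp2⟩ | hf
        · refine hMain3 K d (T + 1) p hd ?_
          rw [bnd3, if_pos hT]
          exact hp1
        · rw [Nat.add_sub_cancel, vs_small d T T le_rfl] at hp2
          have hd1 : 0 < d - 1 := by omega
          have hlt : T + 1 < ((T + 1) / (d - 1) + 1) * (d - 1) := by
            have := Nat.lt_div_mul_add (a := T + 1) hd1
            rw [Nat.add_mul, one_mul]
            exact this
          unfold theta at hp1
          generalize hq : (T + 1) / (d - 1) = q at hp1 hp2 hlt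
          refine hStep K d (T + 1) p (q + 1) ((q + 1) * (d - 1) - (T + 1)) (by omega)
            (Nat.le_add_left _ _) (Nat.le_add_left _ _) (Nat.add_sub_of_le hlt.le) ?_ ?_ ?_
          · have e1 : d + (q + 1) - 1 = d + q := by omega
            have e2 : (q + 1) * (d - 1) - (T + 1) + (q + 1) - 1
                = (q + 1) * (d - 1) - (T + 1) + q := by omega
            rw [e1, e2, Nat.add_sub_cancel]
            omega
          · intro p' hp'
            exact ihp p' (by omega) hd (lt_trans (by omega) hp0)
          · intro p' hp'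
            exact ihT T (Nat.lt_succ_self T) p' hd (by omega)
        · obtain ⟨r, rfl⟩ : ∃ r, d = r + 1 := ⟨d - 1, by omega⟩
          have hsound : ∀ T' n, n < vs (r + 1) T T' → VV K (r + 1) T' n := by
            intro T' n hn
            by_cases hT' : T' ≤ T
            · rw [vs_small (r + 1) T T' hT'] at hn
              exact (hRlb K (r + 1) T' n).1.1 (ihT T' (by omega) n hd hn)
            · rw [vs_big (r + 1) T T' (by omega)] at hn
              exact absurd hn (Nat.not_lt_zero n)
          have hpos : T + 1 + 1 - (r + 1) ≠ 0 := by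
            intro h0
            rw [h0] at hf
            exact fb_zero hf
          have h1 := hStarF K r (vs (r + 1) T) (by omega) hsound _ p hf
          have h2 : T + 1 + 1 - (r + 1) + r = T + 1 := by omega
          rw [h2] at h1
          exact (hRlb K (r + 1) (T + 1) p).1.2 h1

end Pool.Agent.Work.MP_1233f5_ag.Z
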