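import Pool.Agent.Work.MP_1233f5_ag.Z.Stmts

/-! MP_1233f5_ag, block Z, item OmD: the differential of the chain `Om`. -/

set_option autoImplicit false

namespace Pool.Agent.Work.MP_1233f5_ag.Z

open Finset
open Pool.Agent.Work.MP_1233f5_ag.V (vm ML theta rVan)
open Pool.Agent.Work.MP_1233f5_ag.Y

namespace IOmD

/-- the cycle with `i.castSucc` to `k.succAbove i` and `last` to `k`. -/
def cy (b : ℕ) (k : Fin (b + 1)) : Equiv.Perm (Fin (b + 1)) :=
  (Fin.cycleRange k)⁻¹ * finRotate (b + 1)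

theorem cy_castSucc (b : ℕ) (k : Fin (b + 1)) (i : Fin b) :
    cy b k i.castSucc = k.succAbove i := by
  unfold cy
  have h : (finRotate (b + 1)) i.castSucc = i.succ := by
    rw [finRotate_apply, Fin.coeSucc_eq_succ]
  rw [Equiv.Perm.mul_apply, h]
  exact Fin.cycleRange_symm_succ k i

theorem sign_cy (b : ℕ) (k : Fin (b + 1)) :
    Equiv.Perm.sign (cy b k) = (-1) ^ (k : ℕ) * (-1) ^ b := by
  unfold cy
  rw [map_mul, map_inv, Fin.sign_cycleRange, sign_finRotate]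
  simp

theorem skp_val {β : Type} (b : ℕ) (k : Fin (b + 1)) (i : Fin b) (n : ℕ → β) :
    n ((k.succAbove i : Fin (b + 1)) : ℕ) = skp (k : ℕ) n (i : ℕ) := by
  unfold skp
  by_cases h : (i : ℕ) < (k : ℕ)
  · rw [if_pos h, Fin.succAbove_of_castSucc_lt _ _ (by
      rw [Fin.lt_def]
      exact h)]
    rfl
  · rw [if_neg h, Fin.succAbove_of_le_castSucc _ _ (by
      rw [Fin.le_def]
      exact not_lt.1 h)]
    rfl

theorem term {K : Type} [Field K] {α : Type} [DecidableEq α] (a : ℕ) (x : ℕ → α)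
    (w : ℕ → Finset α) (k : Fin (a + 1)) :
    ∑ σ : Equiv.Perm (Fin (a + 1)), ((Equiv.Perm.sign σ : ℤ) : K) • (((-1 : K) ^ (k : ℕ)) •
      (mo (k.removeNth (fun i : Fin (a + 1) =>
        insert (x (i : ℕ)) (w ((σ i : Fin (a + 1)) : ℕ)))) : Lx K α)) =
    ((-1 : K) ^ a) • cx a (skp (k : ℕ) x) w := by
  unfold cx
  rw [Finset.smul_sum]
  refine Fintype.sum_equiv (Equiv.mulRight (cy a k)) _ _ ?_
  intro σ
  have e1 : ((Equiv.Perm.sign ((Equiv.mulRight (cy a k)) σ) : ℤ) : K) =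
      ((Equiv.Perm.sign σ : ℤ) : K) * ((-1) ^ (k : ℕ) * (-1) ^ a) := by
    rw [Equiv.coe_mulRight, map_mul, sign_cy]
    push_cast
    ring
  have e2 : (k.removeNth (fun i : Fin (a + 1) =>
        insert (x (i : ℕ)) (w ((σ i : Fin (a + 1)) : ℕ)))) =
      (fun i : Fin a => insert (skp (k : ℕ) x (i : ℕ))
        (w ((((Equiv.mulRight (cy a k)) σ) i.castSucc : Fin (a + 1)) : ℕ))) := by
    funext i
    rw [Equiv.coe_mulRight, Equiv.Perm.mul_apply, cy_castSucc, ← skp_val]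
    rfl
  rw [e1, e2, smul_smul, smul_smul]
  congr 1
  have h : ((-1 : K) ^ a) * ((-1) ^ a) = 1 := by
    rw [← mul_pow]
    simp
  calc ((Equiv.Perm.sign σ : ℤ) : K) * (-1) ^ (k : ℕ)
      = ((Equiv.Perm.sign σ : ℤ) : K) * (-1) ^ (k : ℕ) * ((-1 : K) ^ a * ((-1) ^ a)) := by
        rw [h, mul_one]
    _ = _ := by ring

end IOmD

open IOmD in
theorem pr_OmD : S_OmD := by
  intro K _ α _ a x w
  have h : Dx (Om a x w : Lx K α) =
      ∑ σ : Equiv.Perm (Fin (a + 1)), ∑ k : Fin (a + 1),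
        ((Equiv.Perm.sign σ : ℤ) : K) • (((-1 : K) ^ (k : ℕ)) •
        (mo (k.removeNth (fun i : Fin (a + 1) =>
          insert (x (i : ℕ)) (w ((σ i : Fin (a + 1)) : ℕ)))) : Lx K α)) := by
    unfold Om
    rw [map_sum]
    refine Finset.sum_congr rfl fun σ _ => ?_
    rw [map_smul, Dx_mo, Finset.smul_sum]
  rw [h, Finset.sum_comm, Finset.smul_sum,
    Finset.sum_range (fun k => ((-1 : K) ^ a) • (cx a (skp k x) w : Lx K α))]
  exact Finset.sum_congr rfl fun k _ => term a x w k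

end Pool.Agent.Work.MP_1233f5_ag.Z
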