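import Pool.Agent.Work.MP_1233f5_ag.Z.Stmts
import Pool.Agent.Work.MP_1233f5_ag.Y.C_RedAB

/-! MP_1233f5_ag, block Z, item RedABc: coloured version of `S_RedAB`. -/

set_option autoImplicit false

namespace Pool.Agent.Work.MP_1233f5_ag.Z

open Finset
open Pool.Agent.Work.MP_1233f5_ag.V (vm ML theta rVan)
open Pool.Agent.Work.MP_1233f5_ag.Y

namespace IRedABc

/-- `Alc` is monotone. -/
theorem alc_mono {K : Type} [Field K] {α : Type} [Fintype α] [DecidableEq α] {χ : α → ℕ}
    {R R' : Finset α} (h : R' ⊆ R) {z : Lx K α} (hz : Alc χ R z) : Alc χ R' z :=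
  fun σ hσ hχ => hz σ (fun a ha => hσ a fun h' => ha (h h')) hχ

/-- permutations of a set with one colour preserve the colours. -/
theorem col {α : Type} [DecidableEq α] {χ : α → ℕ} {Q : Finset α} {c : ℕ}
    (hQ : ∀ a ∈ Q, χ a = c) {σ : Equiv.Perm α} (hσ : Sup Q σ) (a : α) : χ (σ a) = χ a := by
  by_cases ha : a ∈ Q
  · have h1 : σ a ∈ Q := by
      by_contra h
      have h2 := hσ (σ a) h
      exact h (by rw [σ.injective h2]; exact ha)
    rw [hQ _ h1, hQ _ ha]
  · rw [hσ a ha]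

open RedABX in
theorem Pr_mem (hCfAlc : S_CfAlc) (hCfD : S_CfD) (hCfM : S_CfM) (K : Type) [Field K]
    {α : Type} [Fintype α] [DecidableEq α] {χ : α → ℕ} {r : ℕ} {P : Finset α} {m j : ℕ}
    (hmj : m + 1 ≤ j) {q : ℕ → α} {z : Lx K α} (hz : z ∈ CyA K χ (r + 1) P j) :
    Pr K r P m q z ∈ spE K r P m j q (CyA K χ (r + 1)) := by
  rw [Pr_apply]
  refine Submodule.smul_mem _ _ (Submodule.sum_mem _ fun f hf => ?_)
  refine Submodule.subset_span ⟨ext m f, _, mem_FF.1 hf, hmj, ⟨⟨?_, ?_⟩, ?_⟩, rfl⟩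
  · have h1 := hCfM K α (r + 1) (m + 1) j P (fun i => insert (q i) (ext m f i)) hmj z hz.1.1
    rwa [es_eq] at h1
  · have h1 : Dx z = 0 := hz.1.2
    show Dx (cf (m + 1) (fun i => insert (q i) (ext m f i)) z) = 0
    rw [hCfD, h1, map_zero, smul_zero]
  · refine hCfAlc K α χ (m + 1) (fun i => insert (q i) (ext m f i)) (P \ es m q (ext m f)) z
      (fun i hi => ?_) (alc_mono sdiff_subset hz.2)
    rw [← es_eq]
    refine Finset.disjoint_of_subset_left ?_ disjoint_sdiff
    exact subset_biUnion_of_mem (fun i => insert (q i) (ext m f i)) (mem_range.2 hi)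

end IRedABc

open RedABX in
theorem pr_RedABc (hCfAlc : S_CfAlc) (hAnti : S_Anti) (hCfD : S_CfD) (hCfM : S_CfM)
    (hCfE : S_CfE) (hCfQ0 : S_CfQ0) (hESw : S_ESw) : S_RedABc := by
  intro K _ _ α _ _ χ r m j P q hr hinj hmem hcol z hz
  have hanti : ∀ σ, Sup ((range (m + 1)).image q) σ →
      act K α σ z = ((Equiv.Perm.sign σ : ℤ) : K) • z := by
    intro σ hσ
    refine hz.2 σ (fun a ha => hσ a fun h => ha ?_) (IRedABc.col (c := χ (q 0)) ?_ hσ)
    · obtain ⟨i, hi, rfl⟩ := mem_image.1 h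
      exact hmem i (Nat.le_of_lt_succ (mem_range.1 hi))
    · intro a ha
      obtain ⟨i, hi, rfl⟩ := mem_image.1 ha
      exact hcol i (Nat.le_of_lt_succ (mem_range.1 hi))
  obtain ⟨N, hN, hNz⟩ := smul_z hanti
  have hNK : (N : K) ≠ 0 := Nat.cast_ne_zero.2 hN
  have h1 := hAnti K α r m j P q hinj hmem z hz.1.1
  rw [hNz] at h1
  have h2 : z ∈ spE K r P m j q (Mt K (r + 1)) ⊔ spQ K r P m j q (Mt K (r + 1)) := by
    have := Submodule.smul_mem _ (N : K)⁻¹ h1
    rwa [smul_smul, inv_mul_cancel₀ hNK, one_smul] at this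
  obtain ⟨x1, hx1, x2, hx2, hx⟩ := Submodule.mem_sup.1 h2
  by_cases hmj : m + 1 ≤ j
  · have hP1 : Pr K r P m q x1 = x1 := by
      clear hx h1 h2
      unfold spE at hx1
      induction hx1 using Submodule.span_induction with
      | mem x hx =>
        obtain ⟨f, w, hf, _, hw, rfl⟩ := hx
        exact Pr_E K hCfE hESw hr hf hw
      | zero => rw [map_zero]
      | add x y _ _ hx hy => rw [map_add, hx, hy]
      | smul c x _ hx => rw [map_smul, hx]
    have hP2 : Pr K r P m q x2 = 0 := by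
      clear hx h1 h2
      unfold spQ at hx2
      induction hx2 using Submodule.span_induction with
      | mem x hx =>
        obtain ⟨f, w, hf, _, hw, rfl⟩ := hx
        exact Pr_Q K hCfQ0 hr hf hw
      | zero => rw [map_zero]
      | add x y _ _ hx hy => rw [map_add, hx, hy, add_zero]
      | smul c x _ hx => rw [map_smul, hx, smul_zero]
    have hPz : Pr K r P m q z = x1 := by
      rw [← hx, map_add, hP1, hP2, add_zero]
    refine ⟨x1, ?_, ?_⟩
    · rw [← hPz]
      exact IRedABc.Pr_mem hCfAlc hCfD hCfM K hmj hz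
    · rw [← hx, add_sub_cancel_left]
      exact hx2
  · have h3 : x1 = 0 := by
      have h4 : spE K r P m j q (Mt K (r + 1)) = ⊥ := by
        unfold spE
        rw [Submodule.span_eq_bot]
        rintro x ⟨f, w, _, h5, _⟩
        exact absurd h5 hmj
      rw [h4] at hx1
      exact (Submodule.mem_bot K).1 hx1
    refine ⟨0, Submodule.zero_mem _, ?_⟩
    rw [sub_zero, ← hx, h3, zero_add]
    exact hx2

end Pool.Agent.Work.MP_1233f5_ag.Z
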