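import Pool.Agent.Work.MP_1233f5_ag.Z.Stmts
import Pool.Agent.Work.MP_1233f5_ag.Y.C_RedC

/-! MP_1233f5_ag, block Z, item RedCc: coloured version of `S_RedC`. -/

set_option autoImplicit false
set_option linter.unusedSectionVars false
set_option linter.unusedVariables false

namespace Pool.Agent.Work.MP_1233f5_ag.Z

open Finset
open Pool.Agent.Work.MP_1233f5_ag.V (vm ML theta rVan)
open Pool.Agent.Work.MP_1233f5_ag.Y

namespace IRedCc

variable {K : Type} [Field K] {α : Type} [Fintype α] [DecidableEq α]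

theorem alc_mono {χ : α → ℕ} {R R' : Finset α} {z : Lx K α} (h : R' ⊆ R) (hz : Alc χ R z) :
    Alc χ R' z :=
  fun σ hσ hχ => hz σ (fun a ha => hσ a fun hc => ha (h hc)) hχ

theorem bs_sub {P : Finset α} {m : ℕ} {q : ℕ → α} {f : ℕ → Finset α} :
    P \ bs m q f ⊆ P \ (range (m + 1)).image q := by
  refine sdiff_subset_sdiff (Subset.refl _) ?_
  unfold bs
  exact subset_union_left

theorem dis_bs {P : Finset α} {m : ℕ} {q : ℕ → α} {f : ℕ → Finset α} {i : ℕ} (hi : i < m) :
    Disjoint (insert (q i) (f i)) (P \ bs m q f) := by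
  refine Disjoint.mono_left ?_ disjoint_sdiff
  unfold bs
  intro a ha
  rw [mem_insert] at ha
  rw [mem_union]
  rcases ha with rfl | ha
  · exact Or.inl (mem_image_of_mem q (mem_range.2 (by omega)))
  · exact Or.inr (mem_biUnion.2 ⟨i, mem_range.2 hi, ha⟩)

end IRedCc

open RedCX IRedCc in
theorem pr_RedCc (hCfD : S_CfD) (hCfQ : S_CfQ) (hQSw : S_QSw) (hCfAlc : S_CfAlc) : S_RedCc := by
  intro K _ _ α _ _ χ r m j P q hr _ _ z hz halt hzs
  by_cases hmj : m ≤ j
  · have h1 := rec_eq hCfQ hQSw hr hzs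
    have h2 : (m.factorial : K) ≠ 0 := Nat.cast_ne_zero.2 (Nat.factorial_ne_zero m)
    have h3 : z = (m.factorial : K)⁻¹ • ∑ g ∈ G r P m q, (qn m q (ex g) * C q g z : Lx K α) := by
      rw [h1, smul_smul, inv_mul_cancel₀ h2, one_smul]
    rw [h3]
    refine Submodule.smul_mem _ _ (Submodule.sum_mem _ fun g hg => ?_)
    have hg' := mem_G.1 hg
    refine Submodule.subset_span ⟨ex g, C q g z, hg', hmj,
      ⟨⟨C_mem hCfQ hr hg' hzs, ?_⟩, ?_⟩, rfl⟩
    · show Dx (C q g z) = 0
      have h4 : Dx z = 0 := hz.2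
      unfold C
      rw [hCfD, h4, map_zero, smul_zero]
    · exact hCfAlc K α χ m (fun i => insert (q i) (ex g i)) (P \ bs m q (ex g)) z
        (fun i hi => dis_bs hi) (alc_mono bs_sub halt)
  · have h1 : z ∈ (⊥ : Submodule K (Lx K α)) := by
      unfold spQ at hzs
      refine Submodule.span_le.2 ?_ hzs
      rintro x ⟨_, _, _, h, _⟩
      exact absurd h hmj
    rw [Submodule.mem_bot] at h1
    rw [h1]
    exact Submodule.zero_mem _

end Pool.Agent.Work.MP_1233f5_ag.Z
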