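import Pool.Agent.Work.MP_1233f5_ag.Z.Stmts

/-! MP_1233f5_ag, block Z, item Rel: the relation (R). -/

set_option autoImplicit false

namespace Pool.Agent.Work.MP_1233f5_ag.Z

open Finset
open Pool.Agent.Work.MP_1233f5_ag.V (vm ML theta rVan)
open Pool.Agent.Work.MP_1233f5_ag.Y

namespace IRel

variable {K : Type} [Field K] {α : Type} [DecidableEq α]

theorem cx_congr {a : ℕ} {x : ℕ → α} {w w' : ℕ → Finset α} (h : ∀ i ≤ a, w i = w' i) :
    (cx a x w : Lx K α) = cx a x w' := by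
  unfold cx
  refine Finset.sum_congr rfl fun σ _ => ?_
  congr 2
  funext i
  rw [h _ (Nat.le_of_lt_succ (σ i.castSucc).2)]

theorem Om_congr {a : ℕ} {x : ℕ → α} {w w' : ℕ → Finset α} (h : ∀ i ≤ a, w i = w' i) :
    (Om a x w : Lx K α) = Om a x w' := by
  unfold Om
  refine Finset.sum_congr rfl fun σ _ => ?_
  congr 2
  funext i
  rw [h _ (Nat.le_of_lt_succ (σ i).2)]

theorem mem_es {a : ℕ} {x : ℕ → α} {w : ℕ → Finset α} {y : α} :
    y ∈ es a x w ↔ (∃ i ≤ a, x i = y) ∨ ∃ i ≤ a, y ∈ w i := by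
  unfold es
  simp only [mem_union, mem_image, mem_range, mem_biUnion, Nat.lt_succ_iff]

theorem es_sub {r a : ℕ} {P : Finset α} {x : ℕ → α} {w : ℕ → Finset α} (h : EV r P a x w) :
    es a x w ⊆ P := by
  intro y hy
  rcases mem_es.1 hy with ⟨i, hi, rfl⟩ | ⟨i, hi, hy⟩
  · exact h.mem i hi
  · exact h.sub i hi hy

theorem Om_mem {r a : ℕ} {P : Finset α} {x : ℕ → α} {w : ℕ → Finset α} (h : EV r P a x w) :
    (Om a x w : Lx K α) ∈ Mt K (r + 1) (es a x w) (a + 1) := by
  unfold Om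
  refine Submodule.sum_mem _ fun σ _ => Submodule.smul_mem _ _ (mo_mem_Mt ?_)
  have hle : ∀ i : Fin (a + 1), (i : ℕ) ≤ a := fun i => Nat.le_of_lt_succ i.2
  refine ⟨fun i => ⟨?_, ?_⟩, fun i j hij => ?_⟩
  · rw [card_insert_of_notMem (h.out _ (hle i) _ (hle _)), h.card _ (hle _)]
  · refine insert_subset (mem_es.2 (Or.inl ⟨_, hle i, rfl⟩)) fun y hy => ?_
    exact mem_es.2 (Or.inr ⟨_, hle _, hy⟩)
  · have hij' : (i : ℕ) ≠ (j : ℕ) := fun hc => hij (Fin.ext hc)
    have hσ : ((σ i : Fin (a + 1)) : ℕ) ≠ ((σ j : Fin (a + 1)) : ℕ) := by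
      intro hc
      exact hij (σ.injective (Fin.ext hc))
    rw [disjoint_insert_left, disjoint_insert_right, mem_insert, not_or]
    exact ⟨⟨fun hc => hij' (h.inj _ (hle i) _ (hle j) hc), h.out _ (hle i) _ (hle _)⟩,
      h.out _ (hle j) _ (hle _), h.dis _ (hle _) _ (hle _) hσ⟩

/-- the sum of the `cx a (skp k x) w` is a boundary. -/
theorem sum_cx (hO : S_OmD) (a : ℕ) (x : ℕ → α) (w : ℕ → Finset α) :
    (∑ k ∈ range (a + 1), cx a (skp k x) w : Lx K α) = ((-1 : K) ^ a) • Dx (Om a x w) := by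
  rw [hO, smul_smul, ← mul_pow, neg_one_mul, neg_neg, one_pow, one_smul]

/-- the data with one more set. -/
def ww (a : ℕ) (w : ℕ → Finset α) (g : Finset α) : ℕ → Finset α :=
  fun i => if i = a + 1 then g else w i

omit [DecidableEq α] in
theorem ww_le {a : ℕ} {w : ℕ → Finset α} {g : Finset α} {i : ℕ} (hi : i ≤ a) :
    ww a w g i = w i := by
  unfold ww
  rw [if_neg (by omega)]

omit [DecidableEq α] in
theorem ww_last (a : ℕ) (w : ℕ → Finset α) (g : Finset α) : ww a w g (a + 1) = g := by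
  unfold ww
  rw [if_pos rfl]

omit [DecidableEq α] in
theorem ww_or {a : ℕ} {w : ℕ → Finset α} {g : Finset α} {i : ℕ} (hi : i ≤ a + 1) :
    (i ≤ a ∧ ww a w g i = w i) ∨ (i = a + 1 ∧ ww a w g i = g) := by
  rcases Nat.lt_or_ge a i with h | h
  · have : i = a + 1 := by omega
    subst this
    exact Or.inr ⟨rfl, ww_last a w g⟩
  · exact Or.inl ⟨h, ww_le h⟩

theorem cv_ww {r a : ℕ} {P : Finset α} {x : ℕ → α} {w : ℕ → Finset α} (h : EV r P a x w)
    {g : Finset α} (hg : g ∈ (P \ es a x w).powersetCard r) : CV r P (a + 1) x (ww a w g) := by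
  obtain ⟨hg1, hg2⟩ := mem_powersetCard.1 hg
  have hgw : ∀ i ≤ a, Disjoint (w i) g := by
    intro i hi
    rw [Finset.disjoint_left]
    intro y hy hyg
    exact (mem_sdiff.1 (hg1 hyg)).2 (mem_es.2 (Or.inr ⟨i, hi, hy⟩))
  refine ⟨?_, ?_, ?_, ?_, ?_, ?_⟩
  · intro i hi j hj hij
    exact h.inj i (by omega) j (by omega) hij
  · intro i hi
    exact h.mem i (by omega)
  · intro i hi
    rcases ww_or (w := w) (g := g) hi with ⟨h1, h2⟩ | ⟨_, h2⟩
    · rw [h2, h.card i h1]
    · rw [h2, hg2]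
  · intro i hi
    rcases ww_or (w := w) (g := g) hi with ⟨h1, h2⟩ | ⟨_, h2⟩
    · rw [h2]
      exact h.sub i h1
    · rw [h2]
      exact hg1.trans sdiff_subset
  · intro i hi j hj hij
    rcases ww_or (w := w) (g := g) hi with ⟨h1, h2⟩ | ⟨h1, h2⟩ <;>
      rcases ww_or (w := w) (g := g) hj with ⟨h3, h4⟩ | ⟨h3, h4⟩
    · rw [h2, h4]
      exact h.dis i h1 j h3 hij
    · rw [h2, h4]
      exact hgw i h1
    · rw [h2, h4]
      exact (hgw j h3).symm
    · omega
  · intro i hi j hj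
    rcases ww_or (w := w) (g := g) hj with ⟨h3, h4⟩ | ⟨h3, h4⟩
    · rw [h4]
      exact h.out i (by omega) j h3
    · rw [h4]
      intro hc
      exact (mem_sdiff.1 (hg1 hc)).2 (mem_es.2 (Or.inl ⟨i, by omega, rfl⟩))

theorem sdiff_cp {a : ℕ} {P : Finset α} {x : ℕ → α} {w : ℕ → Finset α} (g : Finset α) :
    P \ cp (a + 1) x (ww a w g) = (P \ es a x w) \ g := by
  ext y
  simp only [mem_sdiff, cp, mem_union, mem_image, mem_range, mem_biUnion, mem_es]
  constructor
  · rintro ⟨hP, hn⟩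
    refine ⟨⟨hP, ?_⟩, ?_⟩
    · rintro (⟨i, hi, rfl⟩ | ⟨i, hi, hy⟩)
      · exact hn (Or.inl ⟨i, by omega, rfl⟩)
      · refine hn (Or.inr ⟨i, by omega, ?_⟩)
        rw [ww_le hi]
        exact hy
    · intro hy
      refine hn (Or.inr ⟨a + 1, by omega, ?_⟩)
      rw [ww_last]
      exact hy
  · rintro ⟨⟨hP, hn⟩, hg⟩
    refine ⟨hP, ?_⟩
    rintro (⟨i, hi, rfl⟩ | ⟨i, hi, hy⟩)
    · exact hn (Or.inl ⟨i, by omega, rfl⟩)
    · rcases ww_or (a := a) (w := w) (g := g) (i := i) (by omega) with ⟨h1, h2⟩ | ⟨_, h2⟩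
      · rw [h2] at hy
        exact hn (Or.inr ⟨i, h1, hy⟩)
      · rw [h2] at hy
        exact hg hy

omit [DecidableEq α] in
theorem Mt_zero {d : ℕ} {P : Finset α} {z : Lx K α} (hz : z ∈ Mt K d P 0) :
    ∃ s : K, z = s • (1 : Lx K α) := by
  have h1 : Mt K d P 0 ≤ Submodule.span K {(1 : Lx K α)} := by
    unfold Mt
    rw [Submodule.span_le]
    rintro _ ⟨t, _, rfl⟩
    rw [mo_zero]
    exact Submodule.mem_span_singleton_self _
  obtain ⟨s, hs⟩ := Submodule.mem_span_singleton.1 (h1 hz)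
  exact ⟨s, hs.symm⟩

end IRel

open IRel in
theorem pr_Rel (hO : S_OmD) (hE : S_CxE) (hD : S_Dec) : S_Rel := by
  intro K _ α _ r a c P x w _ h κ hκ
  have hOm : (Om a x w : Lx K α) ∈ Mt K (r + 1) (es a x w) (a + 1) := Om_mem h
  have hdisj : Disjoint (es a x w) (P \ es a x w) := disjoint_sdiff
  have hxa : x a ∉ P \ es a x w := fun hc =>
    (mem_sdiff.1 hc).2 (mem_es.2 (Or.inl ⟨a, le_rfl, rfl⟩))
  have hfix : ∀ k ≤ a, ∀ y ∈ P \ es a x w, Equiv.swap (x a) (x k) y = y := by
    intro k hk y hy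
    refine Equiv.swap_apply_of_ne_of_ne ?_ ?_
    · rintro rfl
      exact hxa hy
    · rintro rfl
      exact (mem_sdiff.1 hy).2 (mem_es.2 (Or.inl ⟨k, hk, rfl⟩))
  have hDκ : Dx κ = 0 := hκ.2
  cases c with
  | zero =>
    obtain ⟨s, rfl⟩ := Mt_zero hκ.1
    refine Submodule.mem_sup_left ⟨((-1 : K) ^ a * s) • (Om a x w : Lx K α),
      Submodule.smul_mem _ _ (Mt_mono (es_sub h) hOm), ?_⟩
    have h1 : ∀ k ∈ range (a + 1), (cx a (skp k x) w *
        act K α (Equiv.swap (x a) (x k)) (s • (1 : Lx K α)) : Lx K α) =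
        s • cx a (skp k x) w := by
      intro k _
      rw [map_smul, act_one, mul_smul_comm, mul_one]
    rw [Finset.sum_congr rfl h1, ← Finset.smul_sum, sum_cx hO, map_smul, smul_smul, mul_comm s]
  | succ c =>
    obtain ⟨κ0, hκ0, f, hf, hκe, hDe⟩ := hD K α r c (P \ es a x w) (x a) hxa κ hκ.1
      (by rw [hDκ]; exact Submodule.zero_mem _)
    have hact : ∀ k ∈ range (a + 1), act K α (Equiv.swap (x a) (x k)) κ =
        κ0 + ∑ g ∈ (P \ es a x w).powersetCard r, ed (insert (x k) g) * f g := by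
      intro k hk
      have hk' : k ≤ a := Nat.le_of_lt_succ (mem_range.1 hk)
      rw [hκe, map_add, act_eq_self (hfix k hk') hκ0, map_sum]
      congr 1
      refine Finset.sum_congr rfl fun g hg => ?_
      have hgs := (mem_powersetCard.1 hg).1
      rw [act_mul, act_ed, im_insert, Equiv.swap_apply_left,
        im_eq_self (fun y hy => hfix k hk' y (hgs hy)),
        act_eq_self (fun y hy => hfix k hk' y (sdiff_subset hy)) (hf g hg).1]
    have hcxE : ∀ g : Finset α, (∑ k ∈ range (a + 1),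
        (cx a (skp k x) w * ed (insert (x k) g) : Lx K α)) =
        Om a x w - cx (a + 1) x (ww a w g) := by
      intro g
      have h1 := hE K α a x (ww a w g)
      rw [ww_last, Om_congr (fun i hi => ww_le (w := w) (g := g) hi)] at h1
      have h2 : ∀ k ∈ range (a + 1),
          (cx a (skp k x) (ww a w g) * ed (insert (x k) g) : Lx K α) =
          cx a (skp k x) w * ed (insert (x k) g) := by
        intro k _
        rw [cx_congr (fun i hi => ww_le (w := w) (g := g) hi)]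
      rw [Finset.sum_congr rfl h2] at h1
      rw [h1, sub_sub_cancel]
    have hsum : (∑ k ∈ range (a + 1),
        (cx a (skp k x) w * act K α (Equiv.swap (x a) (x k)) κ : Lx K α)) =
        ((-1 : K) ^ a) • Dx (Om a x w * κ0) -
          ∑ g ∈ (P \ es a x w).powersetCard r, cx (a + 1) x (ww a w g) * f g := by
      have h1 : ∀ k ∈ range (a + 1),
          (cx a (skp k x) w * act K α (Equiv.swap (x a) (x k)) κ : Lx K α) =
          cx a (skp k x) w * κ0 + ∑ g ∈ (P \ es a x w).powersetCard r,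
            cx a (skp k x) w * ed (insert (x k) g) * f g := by
        intro k hk
        rw [hact k hk, mul_add, Finset.mul_sum]
        congr 1
        exact Finset.sum_congr rfl fun g _ => (mul_assoc _ _ _).symm
      rw [Finset.sum_congr rfl h1, Finset.sum_add_distrib, ← Finset.sum_mul, sum_cx hO,
        Finset.sum_comm]
      have h2 : ∀ g ∈ (P \ es a x w).powersetCard r,
          (∑ k ∈ range (a + 1), cx a (skp k x) w * ed (insert (x k) g) * f g : Lx K α) =
          Om a x w * f g - cx (a + 1) x (ww a w g) * f g := by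
        intro g _
        rw [← Finset.sum_mul, hcxE, sub_mul]
      rw [Finset.sum_congr rfl h2, Finset.sum_sub_distrib, ← Finset.mul_sum]
      have h3 : (∑ g ∈ (P \ es a x w).powersetCard r, f g : Lx K α) = -Dx κ0 := by
        rw [hDκ] at hDe
        exact eq_neg_of_add_eq_zero_right hDe.symm
      rw [h3, Dx_mul hOm, smul_add, smul_smul, ← pow_add, show a + (a + 1) = 2 * a + 1 by ring,
        pow_succ, pow_mul, neg_one_sq, one_pow, one_mul, neg_one_smul, smul_mul_assoc, mul_neg]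
      abel
    rw [hsum]
    refine Submodule.sub_mem _ (Submodule.smul_mem _ _ (Submodule.mem_sup_left ?_))
      (Submodule.mem_sup_right (Submodule.sum_mem _ fun g hg => ?_))
    · refine ⟨Om a x w * κ0, ?_, rfl⟩
      have h1 := Mt_mul hdisj hOm hκ0
      rw [union_sdiff_of_subset (es_sub h), show a + 1 + (c + 1) = a + (c + 1) + 1 by omega] at h1
      exact h1
    · refine Submodule.subset_span ⟨x, ww a w g, f g, cv_ww h hg, by omega, ?_, rfl⟩
      rw [sdiff_cp, show a + (c + 1) - (a + 1) = c by omega]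
      exact hf g hg

end Pool.Agent.Work.MP_1233f5_ag.Z
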