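import Pool.Agent.Work.MP_1233f5_ag.Z.Stmts

/-! MP_1233f5_ag, block Z, item Star. -/

set_option autoImplicit false
set_option linter.unusedSectionVars false

namespace Pool.Agent.Work.MP_1233f5_ag.Z

open Finset
open Pool.Agent.Work.MP_1233f5_ag.V (vm ML theta rVan)
open Pool.Agent.Work.MP_1233f5_ag.Y

namespace IStar

theorem Fx_bot {K : Type} [Field K] {α : Type} [DecidableEq α] {r : ℕ} {P : Finset α} {a p : ℕ}
    (h : p < a) : Fx K r P a p = ⊥ := by
  unfold Fx
  rw [Submodule.span_eq_bot]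
  rintro z ⟨x, w, κ, _, h1, _⟩
  omega

end IStar

theorem pr_Star (hXF : S_XF) (hXA : S_XA) (hRlb : S_Rlb) : S_Star := by
  intro K _ _ r T p hr hV hZ
  have key : ∀ (α : Type) [Fintype α] [DecidableEq α] (P : Finset α) (x0 : α), x0 ∉ P →
      P.card = p * (r + 1) + (T + r) → Cy K (r + 1) P p ≤ Bd K (r + 1) P p := by
    intro α _ _ P x0 hx0 hc
    have h0 : Cy K (r + 1) P p ≤ Bd K (r + 1) P p ⊔ Fx K r P 0 p := by
      refine hXA K α r p P x0 hx0 (hV α _ ?_)
      rw [card_insert_of_notMem hx0, hc]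
      ring
    have h1 : ∀ a, Cy K (r + 1) P p ≤ Bd K (r + 1) P p ⊔ Fx K r P a p := by
      intro a
      induction a with
      | zero => exact h0
      | succ a ih =>
        have h2 := hXF K α r T a p P hr hc (hZ a)
        exact ih.trans (sup_le le_sup_left h2)
    have h3 := h1 (p + 1)
    rwa [IStar.Fx_bot (Nat.lt_succ_self p), sup_bot_eq] at h3
  refine (hRlb K (r + 1) (T + r) p).2 (Fin (p * (r + 1) + (T + r) + 1)) (univ.erase 0) ?_ ?_
  · rw [card_erase_of_mem (mem_univ _), card_univ, Fintype.card_fin, Nat.add_sub_cancel]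
  · refine key _ _ 0 (notMem_erase _ _) ?_
    rw [card_erase_of_mem (mem_univ _), card_univ, Fintype.card_fin, Nat.add_sub_cancel]

end Pool.Agent.Work.MP_1233f5_ag.Z
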