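import Pool.Agent.Work.MP_1233f5_ag.Z.Stmts

set_option autoImplicit false

namespace Pool.Agent.Work.MP_1233f5_ag.Z

open Finset
open Pool.Agent.Work.MP_1233f5_ag.V (vm ML theta rVan)
open Pool.Agent.Work.MP_1233f5_ag.Y

theorem pr_StarF (hMain3 : S_Main3) (hRlb : S_Rlb) (hStar : S_Star) (hZb1 : S_Zb1)
    (hZbS : S_ZbS) (hBGr : S_BGr) : S_StarF := by
  intro K _ _ r v hr hv T p hfb
  have hfb' : ∀ n, fb (r + 1) v (T + n) p := by
    intro n
    induction n with
    | zero => exact hfb
    | succ n ih => exact (hZb1 (r + 1) v).2.2.2 (T + n) p ih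
  have hdown : ∀ n, VV K (r + 1) (T + n + r) p → VV K (r + 1) (T + r) p := by
    intro n
    induction n with
    | zero => exact fun h => h
    | succ n ih =>
      intro h
      refine ih (hStar K r (T + n) p (by omega) ?_ fun a ha => ?_)
      · rw [show T + n + r + 1 = T + (n + 1) + r by omega]
        exact h
      · exact hZbS K (r + 1) v (by omega) hv (T + n) a (p - a) (hfb' n a ha)
  refine hdown (p + r + 1) ((hRlb K (r + 1) _ p).1.1 ?_)
  refine hMain3 K (r + 1) _ p (by omega) ?_
  have := hBGr (r + 1) (T + (p + r + 1) + r) (by omega)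
  omega

end Pool.Agent.Work.MP_1233f5_ag.Z
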