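import Pool.Agent.Work.MP_1233f5_ag.Z.Stmts

/-! MP_1233f5_ag, block Z, item VbG: the new bound is at least the old one. -/

set_option autoImplicit false

namespace Pool.Agent.Work.MP_1233f5_ag.Z

open Finset
open Pool.Agent.Work.MP_1233f5_ag.V (vm ML theta rVan)
open Pool.Agent.Work.MP_1233f5_ag.Y

namespace IVbG

theorem vb_succ (d T : ℕ) : vb d (T + 1) = nv d (vs d T) (T + 1) := by
  show Function.update (vs d T) (T + 1) (nv d (vs d T) (T + 1)) (T + 1) = _
  exact Function.update_self _ _ _

theorem vb_ge (d T : ℕ) : (if T + 1 = 2 * d - 1 then theta d (T + 1)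
    else min (theta d (T + 1)) (vb d T + (T + 1) / (d - 1) + 1)) ≤ vb d (T + 1) := by
  rw [vb_succ]
  exact le_max_left _ _

end IVbG

theorem pr_VbG : S_VbG := by
  intro d T _
  induction T with
  | zero => exact Nat.zero_le _
  | succ T ih =>
    refine le_trans ?_ (IVbG.vb_ge d T)
    show (if T + 1 = 2 * d - 1 then theta d (T + 1)
      else min (theta d (T + 1)) (bnd3 d T + (T + 1) / (d - 1) + 1)) ≤ _
    by_cases h : T + 1 = 2 * d - 1
    · rw [if_pos h, if_pos h]
    · rw [if_neg h, if_neg h]
      exact min_le_min le_rfl (by omega)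

end Pool.Agent.Work.MP_1233f5_ag.Z
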