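import Pool.Agent.Work.MP_1233f5_ag.Z.Stmts

/-! MP_1233f5_ag, block Z, item XA. -/

set_option autoImplicit false
set_option linter.unusedSectionVars false

namespace Pool.Agent.Work.MP_1233f5_ag.Z

open Finset
open Pool.Agent.Work.MP_1233f5_ag.V (vm ML theta rVan)
open Pool.Agent.Work.MP_1233f5_ag.Y

namespace IXA

variable {K : Type} [Field K] {α : Type} [DecidableEq α]

theorem cx_zero (x : ℕ → α) (w : ℕ → Finset α) : (cx 0 x w : Lx K α) = 1 := by
  have hs : ∀ σ : Equiv.Perm (Fin (0 + 1)), σ = 1 := fun σ => Equiv.ext fun i => Fin.ext (by omega)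
  unfold cx
  rw [Finset.sum_eq_single 1 (fun σ _ h => absurd (hs σ) h) (fun h => absurd (mem_univ _) h),
    mo_zero, Equiv.Perm.sign_one, Units.val_one, Int.cast_one, one_smul]

theorem cp_zero (x : ℕ → α) (w : ℕ → Finset α) : cp 0 x w = w 0 := by
  unfold cp
  ext a
  simp

end IXA

theorem pr_XA (hDec : S_Dec) : S_XA := by
  intro K _ α _ r p P x0 hx0 hB z hz
  obtain ⟨y, hy, rfl⟩ := hB (Cy_mono (subset_insert x0 P) hz)
  obtain ⟨z0, hz0, f, hf, -, h2⟩ := hDec K α r p P x0 hx0 y hy hz.1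
  rw [h2]
  refine Submodule.add_mem _ (Submodule.mem_sup_left ⟨z0, hz0, rfl⟩)
    (Submodule.mem_sup_right (Submodule.sum_mem _ fun w hw => Submodule.subset_span ?_))
  obtain ⟨hw1, hw2⟩ := mem_powersetCard.1 hw
  refine ⟨fun _ => x0, fun _ => w, f w, ⟨?_, ?_, ?_, ?_, ?_, ?_⟩, Nat.zero_le _, ?_, ?_⟩
  · intro i hi; exact absurd hi (Nat.not_lt_zero _)
  · intro i hi; exact absurd hi (Nat.not_lt_zero _)
  · intro i _; exact hw2
  · intro i _; exact hw1
  · intro i hi j hj hij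
    exact absurd (by omega) hij
  · intro i hi; exact absurd hi (Nat.not_lt_zero _)
  · rw [IXA.cp_zero, Nat.sub_zero]
    exact hf w hw
  · rw [IXA.cx_zero, one_mul]

end Pool.Agent.Work.MP_1233f5_ag.Z
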