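import Pool.Agent.Work.MP_1233f5_ag.Z.Stmts

/-! MP_1233f5_ag, block Z, item XInv: invariance of the products `cx a x w * κ`. -/

set_option autoImplicit false

namespace Pool.Agent.Work.MP_1233f5_ag.Z

open Finset
open Pool.Agent.Work.MP_1233f5_ag.V (vm ML theta rVan)
open Pool.Agent.Work.MP_1233f5_ag.Y

namespace IXInv

theorem cx_congr {K : Type} [Field K] {α : Type} [DecidableEq α] {a : ℕ} {x x' : ℕ → α}
    {w w' : ℕ → Finset α} (h1 : ∀ i < a, x i = x' i) (h2 : ∀ i ≤ a, w i = w' i) :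
    (cx a x w : Lx K α) = cx a x' w' := by
  unfold cx
  refine Finset.sum_congr rfl fun σ _ => ?_
  congr 2
  funext i
  rw [h1 _ i.2, h2 _ (Nat.le_of_lt_succ (σ i.castSucc).2)]

theorem perm_of_image {α : Type} [DecidableEq α] {a : ℕ} {x : ℕ → α}
    (hx : ∀ i < a, ∀ j < a, x i = x j → i = j) (σ : Equiv.Perm α)
    (h : ∀ b ∈ (range a).image x, σ b ∈ (range a).image x) :
    ∃ τ : Equiv.Perm (Fin a), ∀ i : Fin a, σ (x (i : ℕ)) = x ((τ i : Fin a) : ℕ) := by
  have h1 : ∀ i : Fin a, ∃ j : Fin a, x (j : ℕ) = σ (x (i : ℕ)) := by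
    intro i
    obtain ⟨j, hj, h2⟩ := mem_image.1 (h (x i) (mem_image_of_mem x (mem_range.2 i.2)))
    exact ⟨⟨j, mem_range.1 hj⟩, h2⟩
  choose f hf using h1
  have hinj : Function.Injective f := by
    intro i j hij
    have h2 : σ (x (i : ℕ)) = σ (x (j : ℕ)) := by rw [← hf i, ← hf j, hij]
    exact Fin.ext (hx _ i.2 _ j.2 (σ.injective h2))
  exact ⟨Equiv.ofBijective f (Finite.injective_iff_bijective.1 hinj), fun i => (hf i).symm⟩

end IXInv

open IXInv in
theorem pr_XInv (h1 : S_Cx2) : S_XInv := by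
  intro K _ _ α _ _ r a c P x w hv κ hκ Y hY hfix σ hσ hX
  have hdis : ∀ b ∈ (range a).image x, b ∉ Y := fun b hb hbY =>
    (mem_sdiff.1 (hY hbY)).2 (mem_union_left _ hb)
  have hX1 : ∀ b, σ b ∈ (range a).image x ↔ b ∈ (range a).image x := by
    intro b
    conv_lhs => rw [← hX]
    rw [mem_im]
    simp
  have hXY : ∀ b, σ b ∈ (range a).image x ∪ Y ↔ b ∈ (range a).image x ∪ Y := by
    intro b
    conv_lhs => rw [← im_sup hσ]
    rw [mem_im]
    simp
  have hY1 : ∀ b, σ b ∈ Y ↔ b ∈ Y := by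
    intro b
    have e1 := hX1 b
    have e2 := hXY b
    have e3 := hdis b
    have e4 := hdis (σ b)
    simp only [mem_union] at e2
    tauto
  -- the factor `κ`
  have hκ1 : act K α σ κ = κ := by
    set σ2 : Equiv.Perm α := Equiv.Perm.ofSubtype (σ.subtypePerm (p := (· ∈ Y)) hY1) with hσ2
    have hs2 : Sup Y σ2 := fun b hb => Equiv.Perm.ofSubtype_apply_of_not_mem _ hb
    have hag : ∀ b ∈ P \ cp a x w, (σ2⁻¹ * σ) b = b := by
      intro b hb
      rw [Equiv.Perm.mul_apply, Equiv.Perm.inv_eq_iff_eq]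
      by_cases hbY : b ∈ Y
      · rw [hσ2, Equiv.Perm.ofSubtype_apply_of_mem _ hbY]
        rfl
      · rw [hs2 b hbY]
        refine hσ b fun hc => ?_
        rcases mem_union.1 hc with hc | hc
        · exact (mem_sdiff.1 hb).2 (mem_union_left _ hc)
        · exact hbY hc
    have e1 : act K α σ κ = act K α σ2 (act K α (σ2⁻¹ * σ) κ) := by
      rw [← Module.End.mul_apply, ← map_mul, mul_inv_cancel_left]
    rw [e1, act_eq_self hag hκ.1, hfix σ2 hs2]
  -- the factor `cx`
  have hcx : act K α σ (cx a x w) = cx a x w := by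
    obtain ⟨τ, hτ⟩ := perm_of_image hv.inj σ fun b hb => (hX1 b).2 hb
    rw [(h1 K α a x w).1 σ]
    have e2 : (cx a (fun i => σ (x i)) (fun i => im σ (w i)) : Lx K α) =
        cx a (fun i => σ (x i)) w := by
      refine cx_congr (fun _ _ => rfl) fun i hi => ?_
      refine im_eq_self fun b hb => hσ b fun hc => ?_
      rcases mem_union.1 hc with hc | hc
      · obtain ⟨j, hj, rfl⟩ := mem_image.1 hc
        exact hv.out j (mem_range.1 hj) i hi hb
      · exact (mem_sdiff.1 (hY hc)).2 (mem_union_right _ (mem_biUnion.2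
          ⟨i, mem_range.2 (Nat.lt_succ_of_le hi), hb⟩))
    rw [e2]
    exact (h1 K α a x w).2 (fun i => σ (x i)) τ hτ
  rw [act_mul, hκ1, hcx]

end Pool.Agent.Work.MP_1233f5_ag.Z
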