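import Pool.Agent.Work.MP_1233f5_ag.Z.Stmts

/-!
# Block Z of MP_1233f5_ag: item Zb1

Facts on the numerical recursion `zb`, `fb`.
-/

set_option autoImplicit false

namespace Pool.Agent.Work.MP_1233f5_ag.Z

open Finset
open Pool.Agent.Work.MP_1233f5_ag.V (vm ML theta rVan)
open Pool.Agent.Work.MP_1233f5_ag.Y

namespace IZb1

theorem mono (d : ℕ) (v : ℕ → ℕ) : ∀ T s c c', zb d v T s c → c' ≤ c → zb d v T s c'
  | 0, _, _, _, h, _ => h
  | _ + 1, 0, _, _, _, _ => trivial
  | _ + 1, _ + 1, _, _, h, hc => fun n hn => h n (le_trans hn hc)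

theorem small (d : ℕ) (v : ℕ → ℕ) : ∀ T s c, s < T → zb d v T s c
  | 0, _, _, h => absurd h (Nat.not_lt_zero _)
  | _ + 1, 0, _, _ => trivial
  | T + 1, s + 1, _, h => fun _ _ => Or.inr (Or.inr (small d v T s _ (by omega)))

theorem cong (d : ℕ) (v v' : ℕ → ℕ) : ∀ T, (∀ T' ≤ T, v T' = v' T') → ∀ s c,
    zb d v T s c → zb d v' T s c
  | 0, _, _, _, h => h
  | _ + 1, _, 0, _, _ => trivial
  | T + 1, hv, s + 1, _, h => fun n hn => by
    rcases h n hn with h1 | h1 | h1
    · exact Or.inl (by rw [← hv (T + 1) le_rfl]; exact h1)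
    · exact Or.inr (Or.inl h1)
    · exact Or.inr (Or.inr (cong d v v' T (fun T' hT' => hv T' (by omega)) s _ h1))

theorem up (d : ℕ) (v : ℕ → ℕ) (T p : ℕ) (h : fb d v T p) : fb d v (T + 1) p := by
  intro s hs
  cases s with
  | zero => exact trivial
  | succ s =>
    intro n hn
    exact Or.inr (Or.inr (mono d v T s (p - s) _ (h s (by omega))
      (le_trans (Nat.sub_le _ _) (by omega))))

end IZb1

open IZb1

theorem pr_Zb1 : S_Zb1 := by
  intro d v
  exact ⟨mono d v, small d v, fun v' T h s c => cong d v v' T h s c, up d v⟩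

end Pool.Agent.Work.MP_1233f5_ag.Z
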