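import Pool.Agent.Work.MP_1233f5_ag.Z.Stmts

/-! MP_1233f5_ag, block Z: item [ZbG] (helper39). -/

set_option autoImplicit false

namespace Pool.Agent.Work.MP_1233f5_ag.Z

open Finset

theorem pr_ZbG : S_ZbG := by
  intro d v T0 s0 j c hd hT0 hds0 hv
  have hdR : (1 : ℝ) ≤ d := by exact_mod_cast hd
  have hd0 : (0 : ℝ) < d := by linarith
  have hdsR : (d : ℝ) ≤ s0 := by exact_mod_cast hds0
  set C : ℝ := ((s0 : ℝ) - T0) / d with hC
  induction j generalizing c with
  | zero =>
    intro h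
    rw [range_zero, prod_empty, mul_one] at h
    have h1 : (c : ℝ) < v T0 := by linarith
    have h2 : c < v T0 := by exact_mod_cast h1
    obtain ⟨T, rfl⟩ : ∃ T, T0 = T + 1 := ⟨T0 - 1, by omega⟩
    obtain ⟨s, rfl⟩ : ∃ s, s0 = s + 1 := ⟨s0 - 1, by omega⟩
    rw [Nat.add_zero, Nat.add_zero]
    unfold zb
    intro n hn
    exact Or.inl (lt_of_le_of_lt hn h2)
  | succ j ih =>
    intro h
    rw [← Nat.add_assoc, ← Nat.add_assoc]
    unfold zb
    intro n hn
    set m : ℕ := (n * d + (T0 + j + 1) + (s0 + j)) / (s0 + j + 1) with hm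
    rcases Nat.lt_or_ge (n + 1) m with h1 | h1
    · exact Or.inr (Or.inl h1)
    · refine Or.inr (Or.inr (ih _ ?_))
      have h2 : n * d + (T0 + j + 1) ≤ m * (s0 + j + 1) := by
        have h3 := Nat.lt_mul_div_succ (n * d + (T0 + j + 1) + (s0 + j)) (Nat.succ_pos (s0 + j))
        rw [← Nat.succ_eq_add_one] at hm
        rw [← hm] at h3
        have h4 : (s0 + j).succ * (m + 1) = m * (s0 + j + 1) + (s0 + j + 1) := by
          rw [Nat.succ_eq_add_one]
          ring
        rw [h4] at h3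
        omega
      have h2R : (n : ℝ) * d + (T0 + j + 1) ≤ m * (s0 + j + 1) := by exact_mod_cast h2
      have hnc : (n : ℝ) ≤ c := by exact_mod_cast hn
      have hσ : (d : ℝ) < s0 + (j + 1) := by
        have : (0 : ℝ) ≤ j := Nat.cast_nonneg j
        linarith
      have hσ0 : (0 : ℝ) < s0 + (j + 1) := by linarith
      have hcast : (((n + 1 - m : ℕ) : ℕ) : ℝ) = n + 1 - m := by
        rw [Nat.cast_sub h1]
        push_cast
        ring
      rw [hcast]
      have hCd : C * d = s0 - T0 := by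
        rw [hC]
        field_simp
      -- the key estimate
      have h3 : (n : ℝ) + 1 - m - C ≤ (n - C) * ((s0 + (j + 1) - d) / (s0 + (j + 1))) := by
        rw [mul_div_assoc', le_div_iff₀ hσ0]
        nlinarith
      have h4 : ((n : ℝ) - C) * ((s0 + (j + 1) - d) / (s0 + (j + 1))) ≤
          (c - C) * ((s0 + (j + 1) - d) / (s0 + (j + 1))) :=
        mul_le_mul_of_nonneg_right (by linarith) (div_nonneg (by linarith) hσ0.le)
      rw [prod_range_succ, ← mul_assoc] at h
      have h5 : ((c : ℝ) - C) * ((s0 + (j + 1) - d) / (s0 + (j + 1))) <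
          ((v T0 - C) * (∏ i ∈ range j, ((s0 : ℝ) + (i + 1)) / ((s0 : ℝ) + (i + 1) - d)) *
            ((s0 + (j + 1)) / (s0 + (j + 1) - d))) * ((s0 + (j + 1) - d) / (s0 + (j + 1))) :=
        mul_lt_mul_of_pos_right h (div_pos (by linarith) hσ0)
      have h6 : ((v T0 - C) * (∏ i ∈ range j, ((s0 : ℝ) + (i + 1)) / ((s0 : ℝ) + (i + 1) - d)) *
            ((s0 + (j + 1)) / (s0 + (j + 1) - d))) * ((s0 + (j + 1) - d) / (s0 + (j + 1))) =
          (v T0 - C) * ∏ i ∈ range j, ((s0 : ℝ) + (i + 1)) / ((s0 : ℝ) + (i + 1) - d) := by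
        have h7 : ((s0 : ℝ) + (j + 1)) / (s0 + (j + 1) - d) *
            ((s0 + (j + 1) - d) / (s0 + (j + 1))) = 1 := by
          have h8 : (s0 : ℝ) + (j + 1) - d ≠ 0 := by linarith
          field_simp
        rw [mul_assoc, h7, mul_one]
      rw [h6] at h5
      linarith

end Pool.Agent.Work.MP_1233f5_ag.Z
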