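import Pool.Agent.Work.MP_1233f5_ag.Z.Stmts

set_option autoImplicit false

namespace Pool.Agent.Work.MP_1233f5_ag.Z

open Finset
open Pool.Agent.Work.MP_1233f5_ag.V (vm ML theta rVan)
open Pool.Agent.Work.MP_1233f5_ag.Y

theorem pr_ZbS (h1 : S_Chain) (h2 : S_Zb1) : S_ZbS := by
  intro K _ _ d v hd hv T
  obtain ⟨r, rfl⟩ : ∃ r, d = r + 1 := ⟨d - 1, by omega⟩
  have hr : 1 ≤ r := by omega
  induction T with
  | zero =>
    intro s c h
    exact absurd h (by simp [zb])
  | succ T ihT =>
    intro s
    rcases s with _ | s
    · intro c _ α _ _ P χ hP hχ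
      exfalso
      have h3 : (P.image χ).card = 0 := Nat.le_zero.1 hχ
      rw [Finset.card_eq_zero, Finset.image_eq_empty] at h3
      rw [h3, Finset.card_empty] at hP
      omega
    · intro c
      induction c using Nat.strong_induction_on with
      | _ c ihc =>
        intro h
        have hmono : ∀ c' ≤ c, zb (r + 1) v (T + 1) (s + 1) c' := fun c' hc' =>
          (h2 (r + 1) v).1 _ _ _ _ h hc'
        have h' : ∀ n ≤ c, n < v (T + 1) ∨
            n + 1 < (n * (r + 1) + (T + 1) + s) / (s + 1) ∨
            zb (r + 1) v T s (n + 1 - (n * (r + 1) + (T + 1) + s) / (s + 1)) := by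
          rw [zb] at h
          exact h
        rcases h' c le_rfl with h3 | h3
        · intro α _ _ P χ hP _ z hz
          exact hv (T + 1) c h3 α P hP hz.1
        · refine h1 K r T s c hr ?_ ?_
          · intro c' hc' α _ _ P χ hP hχ
            exact ihc c' hc' (hmono c' hc'.le) α P χ hP (hχ.trans (Nat.le_succ s))
          · intro m hm hmc
            rcases h3 with h3 | h3
            · omega
            · refine ihT s _ ((h2 (r + 1) v).1 _ _ _ _ h3 ?_)
              omega

end Pool.Agent.Work.MP_1233f5_ag.Z
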