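import Pool.Agent.Work.MP_1233f5_ag.Y.GlueC
import Pool.Agent.Work.MP_1233f5_ag.Z.I_Av
import Pool.Agent.Work.MP_1233f5_ag.Z.I_BGr
import Pool.Agent.Work.MP_1233f5_ag.Z.I_BrG
import Pool.Agent.Work.MP_1233f5_ag.Z.I_CF
import Pool.Agent.Work.MP_1233f5_ag.Z.I_CfAlc
import Pool.Agent.Work.MP_1233f5_ag.Z.I_Chain
import Pool.Agent.Work.MP_1233f5_ag.Z.I_Cx1
import Pool.Agent.Work.MP_1233f5_ag.Z.I_Cx2
import Pool.Agent.Work.MP_1233f5_ag.Z.I_CxE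
import Pool.Agent.Work.MP_1233f5_ag.Z.I_Dec
import Pool.Agent.Work.MP_1233f5_ag.Z.I_EBd
import Pool.Agent.Work.MP_1233f5_ag.Z.I_FxA
import Pool.Agent.Work.MP_1233f5_ag.Z.I_Gott
import Pool.Agent.Work.MP_1233f5_ag.Z.I_MainZ
import Pool.Agent.Work.MP_1233f5_ag.Z.I_OmD
import Pool.Agent.Work.MP_1233f5_ag.Z.I_RedABc
import Pool.Agent.Work.MP_1233f5_ag.Z.I_RedCc
import Pool.Agent.Work.MP_1233f5_ag.Z.I_Rel
import Pool.Agent.Work.MP_1233f5_ag.Z.I_RepT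
import Pool.Agent.Work.MP_1233f5_ag.Z.I_Rlb
import Pool.Agent.Work.MP_1233f5_ag.Z.I_Star
import Pool.Agent.Work.MP_1233f5_ag.Z.I_StarF
import Pool.Agent.Work.MP_1233f5_ag.Z.I_VbG
import Pool.Agent.Work.MP_1233f5_ag.Z.I_XA
import Pool.Agent.Work.MP_1233f5_ag.Z.I_XF
import Pool.Agent.Work.MP_1233f5_ag.Z.I_XInv
import Pool.Agent.Work.MP_1233f5_ag.Z.I_XSym
import Pool.Agent.Work.MP_1233f5_ag.Z.I_Zb1
import Pool.Agent.Work.MP_1233f5_ag.Z.I_ZbE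
import Pool.Agent.Work.MP_1233f5_ag.Z.I_ZbG
import Pool.Agent.Work.MP_1233f5_ag.Z.I_ZbS

/-! MP_1233f5_ag: assembly of block Z (captain helper39). -/

set_option autoImplicit false

namespace Pool.Agent.Work.MP_1233f5_ag.Z

open Pool.Agent.Work.MP_1233f5_ag.Y

theorem h_RedABc : S_RedABc :=
  pr_RedABc pr_CfAlc prf_Anti prf_CfD prf_CfM prf_CfE prf_CfQ0 prf_ESw
theorem h_RedCc : S_RedCc := pr_RedCc prf_CfD prf_CfQ prf_QSw pr_CfAlc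
theorem h_EBd : S_EBd := pr_EBd prf_ED
theorem h_Chain : S_Chain := pr_Chain h_RedABc h_RedCc pr_Av h_EBd prf_QCy
theorem h_Rel : S_Rel := pr_Rel pr_OmD pr_CxE pr_Dec
theorem h_XInv : S_XInv := pr_XInv pr_Cx2
theorem h_XSym : S_XSym := pr_XSym pr_Cx2 h_Rel pr_Gott h_XInv
theorem h_RepT : S_RepT := pr_RepT Pool.Agent.Work.MP_1233f5_ag.V.h_Rep
theorem h_XF : S_XF := pr_XF pr_Cx1 pr_FxA h_RepT h_XSym
theorem h_XA : S_XA := pr_XA pr_Dec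
theorem h_Rlb : S_Rlb := pr_Rlb pr_BrG Pool.Agent.Work.MP_1233f5_ag.V.pr_Tr
theorem h_Star : S_Star := pr_Star h_XF h_XA h_Rlb
theorem h_ZbS : S_ZbS := pr_ZbS h_Chain pr_Zb1
theorem h_StarF : S_StarF := pr_StarF h_Main3 h_Rlb h_Star pr_Zb1 h_ZbS pr_BGr
theorem h_MainZ : S_MainZ := pr_MainZ h_Rlb h_StarF h_Main3 Pool.Agent.Work.MP_1233f5_ag.V.h_Step
theorem h_ZbE : S_ZbE := pr_ZbE pr_Zb1 pr_ZbG
theorem h_CF : S_CF := pr_CF h_ZbE pr_BGr pr_VbG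

end Pool.Agent.Work.MP_1233f5_ag.Z
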