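import Pool.Agent.Work.MP_1233f5_ag.Y.StmtsC
import Pool.Agent.Work.MP_1233f5_ag.Y.Util

/-! MP_1233f5_ag, block Z (captain helper39): colours, the recursion `CHAIN` + `STAR`.
Paper proof: note 3833.  Here `d = r + 1` in the algebraic part. -/

set_option autoImplicit false

namespace Pool.Agent.Work.MP_1233f5_ag.Z

open Finset
open Pool.Agent.Work.MP_1233f5_ag.V (vm ML theta rVan)
open Pool.Agent.Work.MP_1233f5_ag.Y

/-! ### alternating cycles -/

section alc
variable {K : Type} [Field K] {α : Type} [Fintype α] [DecidableEq α]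

/-- `z` is alternating under the permutations moving only points of `R` and preserving the
colours `χ`. -/
def Alc (χ : α → ℕ) (R : Finset α) (z : Lx K α) : Prop :=
  ∀ σ : Equiv.Perm α, Sup R σ → (∀ a, χ (σ a) = χ a) →
    act K α σ z = ((Equiv.Perm.sign σ : ℤ) : K) • z

end alc

/-- the alternating cycles. -/
def CyA (K : Type) [Field K] {α : Type} [Fintype α] [DecidableEq α] (χ : α → ℕ) (d : ℕ)
    (R : Finset α) (p : ℕ) : Submodule K (Lx K α) where
  carrier := {z | z ∈ Cy K d R p ∧ Alc χ R z}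
  add_mem' := by
    rintro z z' ⟨h1, h2⟩ ⟨h1', h2'⟩
    refine ⟨Submodule.add_mem _ h1 h1', fun σ hσ hχ => ?_⟩
    rw [map_add, h2 σ hσ hχ, h2' σ hσ hχ, smul_add]
  zero_mem' := ⟨Submodule.zero_mem _, fun σ _ _ => by rw [map_zero, smul_zero]⟩
  smul_mem' := by
    rintro c z ⟨h1, h2⟩
    refine ⟨Submodule.smul_mem _ _ h1, fun σ hσ hχ => ?_⟩
    rw [map_smul, h2 σ hσ hχ, smul_comm]

/-- every cycle is a boundary (`P` with `p d + T` points). -/
def VV (K : Type) [Field K] (d T p : ℕ) : Prop :=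
  ∀ (α : Type) [Fintype α] [DecidableEq α] (P : Finset α), P.card = p * d + T →
    Cy K d P p ≤ Bd K d P p

/-- every cycle which is alternating for a colouring with at most `s` colours is a boundary. -/
def ZV (K : Type) [Field K] (d T s c : ℕ) : Prop :=
  ∀ (α : Type) [Fintype α] [DecidableEq α] (P : Finset α) (χ : α → ℕ),
    P.card = c * d + T → (P.image χ).card ≤ s → CyA K χ d P c ≤ Bd K d P c

/-! ### the cycles `cx` -/

section cx
variable {K : Type} [Field K] {α : Type}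

/-- the cycle `cx a x w`: points `x 0, ..., x (a - 1)`, sets `w 0, ..., w a`. -/
noncomputable def cx [DecidableEq α] (a : ℕ) (x : ℕ → α) (w : ℕ → Finset α) : Lx K α :=
  ∑ σ : Equiv.Perm (Fin (a + 1)), ((Equiv.Perm.sign σ : ℤ) : K) •
    mo (fun i : Fin a => insert (x (i : ℕ)) (w ((σ i.castSucc : Fin (a + 1)) : ℕ)))

/-- the chain `Om a x w`: points `x 0, ..., x a`, sets `w 0, ..., w a`. -/
noncomputable def Om [DecidableEq α] (a : ℕ) (x : ℕ → α) (w : ℕ → Finset α) : Lx K α :=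
  ∑ σ : Equiv.Perm (Fin (a + 1)), ((Equiv.Perm.sign σ : ℤ) : K) •
    mo (fun i : Fin (a + 1) => insert (x (i : ℕ)) (w ((σ i : Fin (a + 1)) : ℕ)))

variable [DecidableEq α]

/-- the points of `cx a x w`. -/
def cp (a : ℕ) (x : ℕ → α) (w : ℕ → Finset α) : Finset α :=
  (range a).image x ∪ (range (a + 1)).biUnion w

/-- valid data for `cx` inside `P`. -/
structure CV (r : ℕ) (P : Finset α) (a : ℕ) (x : ℕ → α) (w : ℕ → Finset α) : Prop where
  inj : ∀ i < a, ∀ j < a, x i = x j → i = j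
  mem : ∀ i < a, x i ∈ P
  card : ∀ i ≤ a, (w i).card = r
  sub : ∀ i ≤ a, w i ⊆ P
  dis : ∀ i ≤ a, ∀ j ≤ a, i ≠ j → Disjoint (w i) (w j)
  out : ∀ i < a, ∀ j ≤ a, x i ∉ w j

/-- the span of the products `cx a x w * κ`, `κ` a cycle on the remaining points. -/
noncomputable def Fx (K : Type) [Field K] {α : Type} [DecidableEq α] (r : ℕ) (P : Finset α)
    (a p : ℕ) : Submodule K (Lx K α) :=
  Submodule.span K {z | ∃ x w κ, CV r P a x w ∧ a ≤ p ∧
    κ ∈ Cy K (r + 1) (P \ cp a x w) (p - a) ∧ z = cx a x w * κ}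

end cx

/-! ### the numerical recursion -/

/-- `zb d v T s c`: the triple `(T, s, c)` is excluded, given the lower bounds `v`.
With `m = ⌈(n d + T) / s⌉`: for every `n ≤ c` either `n < v T` or `m > n + 1` or
`(T - 1, s - 1, n + 1 - m)` is excluded. -/
def zb (d : ℕ) (v : ℕ → ℕ) : ℕ → ℕ → ℕ → Prop
  | 0, _, _ => False
  | _ + 1, 0, _ => True
  | T + 1, s + 1, c => ∀ n ≤ c, n < v (T + 1) ∨ n + 1 < (n * d + (T + 1) + s) / (s + 1) ∨
      zb d v T s (n + 1 - (n * d + (T + 1) + s) / (s + 1))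

/-- all triples `(T, s, p - s)` are excluded. -/
def fb (d : ℕ) (v : ℕ → ℕ) (T p : ℕ) : Prop := ∀ s ≤ p, zb d v T s (p - s)

open Classical in
/-- the bound at `T`, given the bounds at the smaller places. -/
noncomputable def nv (d : ℕ) (v : ℕ → ℕ) (T : ℕ) : ℕ :=
  max (if T = 2 * d - 1 then theta d T else min (theta d T) (v (T - 1) + T / (d - 1) + 1))
    (Nat.findGreatest (fun F => ∀ p < F, fb d v (T + 1 - d) p) (2 ^ (T + 1)))

/-- the bounds at the places `≤ T` (and `0` at the other places). -/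
noncomputable def vs (d : ℕ) : ℕ → ℕ → ℕ
  | 0 => fun _ => 0
  | T + 1 => Function.update (vs d T) (T + 1) (nv d (vs d T) (T + 1))

/-- the bound. -/
noncomputable def vb (d T : ℕ) : ℕ := vs d T T

end Pool.Agent.Work.MP_1233f5_ag.Z
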