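import Pool.Agent.Work.MP_1233f5_ag.Z.Stmts
import Pool.Agent.Work.MP_1233f5_ag.Y.C_EQ

/-! MP_1233f5_ag, block Z, item CxE: expansion of `cx (a + 1)` with respect to the last set. -/

set_option autoImplicit false

namespace Pool.Agent.Work.MP_1233f5_ag.Z

open Finset
open Pool.Agent.Work.MP_1233f5_ag.V (vm ML theta rVan)
open Pool.Agent.Work.MP_1233f5_ag.Y
open Pool.Agent.Work.MP_1233f5_ag.Y.EQX

theorem pr_CxE : S_CxE := by
  intro K _ α _ a x w
  rw [← Fin.sum_univ_eq_sum_range
      (fun k => (cx a (skp k x) w * ed (insert (x k) (w (a + 1))) : Lx K α))]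
  conv_lhs => unfold cx
  rw [← (A_bij (a + 1)).sum_comp, Fintype.sum_prod_type, Fin.sum_univ_castSucc, add_comm,
    sub_eq_add_neg]
  congr 1
  · -- `k = last`
    unfold Om
    apply Finset.sum_congr rfl
    intro ρ _
    have h1 : ∀ i : Fin (a + 1), A (Fin.last (a + 1)) ρ i.castSucc = (ρ i).castSucc := by
      intro i
      have := A_succAbove (Fin.last (a + 1)) ρ i
      rwa [Fin.succAbove_last] at this
    congr 1
    · rw [sign_A, Fin.val_last]
      have h2 : ((-1 : ℤˣ) ^ (a + 1)) * ((-1 : ℤˣ) ^ (a + 1)) = 1 := by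
        rw [← mul_pow]; simp
      have h3 : (-1 : ℤˣ) ^ (a + 1) * (Equiv.Perm.sign ρ * (-1) ^ (a + 1)) = Equiv.Perm.sign ρ := by
        rw [mul_left_comm, h2, mul_one]
      rw [h3]
    · congr 1
      funext i
      rw [h1 i, Fin.val_castSucc]
  · -- `k = k'.castSucc`
    rw [← Finset.sum_neg_distrib]
    apply Finset.sum_congr rfl
    intro k _
    unfold cx
    rw [Finset.sum_mul, ← Finset.sum_neg_distrib]
    apply Finset.sum_congr rfl
    intro ρ _
    have h1 : A k.castSucc ρ k.castSucc = Fin.last (a + 1) := A_self _ _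
    have h2 : ∀ j : Fin a, A k.castSucc ρ (k.succAbove j).castSucc = (ρ j.castSucc).castSucc := by
      intro j
      have h := A_succAbove k.castSucc ρ j.castSucc
      rwa [Fin.castSucc_succAbove_castSucc] at h
    have h3 : ∀ j : Fin a, x ((k.succAbove j : Fin (a + 1)) : ℕ) = skp (k : ℕ) x (j : ℕ) := by
      intro j
      unfold skp
      rcases lt_or_ge (j.castSucc) k with h | h
      · rw [Fin.succAbove_of_castSucc_lt _ _ h, if_pos (by simpa [Fin.lt_def] using h),
          Fin.val_castSucc]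
      · rw [Fin.succAbove_of_le_castSucc _ _ h,
          if_neg (by simpa [Fin.le_def] using h), Fin.val_succ]
    rw [mo_at k, sign_A]
    simp only [h1, h2, h3, Fin.val_last, Fin.val_castSucc]
    rw [smul_mul_assoc, smul_smul, ← neg_smul]
    congr 1
    push_cast
    have h4 : ((-1 : K) ^ a) * ((-1 : K) ^ a) = 1 := by
      rw [← mul_pow]; simp
    have h5 : ((-1 : K) ^ (k : ℕ)) * ((-1 : K) ^ (k : ℕ)) = 1 := by
      rw [← mul_pow]; simp
    rw [pow_succ, pow_add]
    linear_combination (-(((Equiv.Perm.sign ρ : ℤ) : K)) * ((-1 : K) ^ (k : ℕ)) *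
      ((-1 : K) ^ (k : ℕ))) * h4 - (((Equiv.Perm.sign ρ : ℤ) : K)) * h5

end Pool.Agent.Work.MP_1233f5_ag.Z
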