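import Pool.Agent.Work.MP_1233f5_ag.Z.Stmts

/-!
# Block Z of MP_1233f5_ag: item RepT

The generation theorem for the permutations of a finite set `R`, twisted by the sign.
-/

set_option autoImplicit false

namespace Pool.Agent.Work.MP_1233f5_ag.Z

open Finset
open Pool.Agent.Work.MP_1233f5_ag.V (vm ML theta rVan)
open Pool.Agent.Work.MP_1233f5_ag.Y

namespace IRepT

/-- the representation of `Perm R` twisted by the sign. -/
noncomputable def rt {K : Type} [Field K] {α : Type} [Fintype α] [DecidableEq α] {H : Type}
    [AddCommGroup H] [Module K H] (ρ : Equiv.Perm α →* Module.End K H) (R : Finset α) :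
    Equiv.Perm {x // x ∈ R} →* Module.End K H where
  toFun σ := ((Equiv.Perm.sign σ : ℤ) : K) • ρ (Equiv.Perm.ofSubtype σ)
  map_one' := by simp
  map_mul' := by
    intro σ τ
    simp [smul_smul, mul_comm ((Equiv.Perm.sign τ : ℤ) : K)]

theorem rt_apply {K : Type} [Field K] {α : Type} [Fintype α] [DecidableEq α] {H : Type}
    [AddCommGroup H] [Module K H] (ρ : Equiv.Perm α →* Module.End K H) (R : Finset α)
    (σ : Equiv.Perm {x // x ∈ R}) (z : H) :
    rt ρ R σ z = ((Equiv.Perm.sign σ : ℤ) : K) • ρ (Equiv.Perm.ofSubtype σ) z := rfl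

theorem sup_ofSubtype {α : Type} [DecidableEq α] (R : Finset α)
    (σ : Equiv.Perm {x // x ∈ R}) : Sup R (Equiv.Perm.ofSubtype σ) := by
  intro a ha
  exact Equiv.Perm.ofSubtype_apply_of_not_mem σ ha

theorem sup_mem {α : Type} (R : Finset α) (σ : Equiv.Perm α)
    (h : Sup R σ) (a : α) : σ a ∈ R ↔ a ∈ R := by
  constructor
  · intro h1
    by_contra h2
    rw [h a h2] at h1
    exact h2 h1
  · intro h1
    by_contra h2
    have h3 := h _ h2
    have h4 := σ.injective h3
    rw [h4] at h2
    exact h2 h1

theorem sq_sign {K : Type} [Field K] {β : Type} [Fintype β] [DecidableEq β]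
    (σ : Equiv.Perm β) :
    ((Equiv.Perm.sign σ : ℤ) : K) * ((Equiv.Perm.sign σ : ℤ) : K) = 1 := by
  rcases Int.units_eq_one_or (Equiv.Perm.sign σ) with h | h <;> simp [h]

end IRepT

open IRepT

theorem pr_RepT (h : V.S_Rep) : S_RepT := by
  intro K _ _ α _ _ H _ _ ρ R Z B n hZ hB h1 h2
  refine h K {x // x ∈ R} H (rt ρ R) Z B ?_ ?_ n ?_ ?_
  · intro σ z hz
    rw [rt_apply]
    exact Z.smul_mem _ (hZ _ (sup_ofSubtype R σ) z hz)
  · intro σ z hz
    rw [rt_apply]
    exact B.smul_mem _ (hB _ (sup_ofSubtype R σ) z hz)
  · intro π z hz hinv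
    rcases R.eq_empty_or_nonempty with hR | hR
    · refine h1 (fun _ => 0) ?_ z hz ?_
      · rw [hR]
        simp
      · intro σ hσ _
        have : σ = 1 := by
          ext a
          rw [hσ a (by rw [hR]; simp)]
          rfl
        rw [this]
        simp
    · let χ : α → ℕ := fun a => if ha : a ∈ R then (π ⟨a, ha⟩ : ℕ) else 0
      refine h1 χ ?_ z hz ?_
      · have : R.image χ ⊆ range n := by
          intro c hc
          rw [mem_image] at hc
          obtain ⟨a, ha, rfl⟩ := hc
          rw [mem_range]
          simp only [χ, ha, dif_pos]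
          exact (π ⟨a, ha⟩).2
        calc (R.image χ).card ≤ (range n).card := card_le_card this
          _ = n := card_range n
      · intro σ hσ hχ
        have hmem := sup_mem R σ hσ
        let τ : Equiv.Perm {x // x ∈ R} := σ.subtypePerm hmem
        have hτ : Equiv.Perm.ofSubtype τ = σ := by
          apply Equiv.Perm.ofSubtype_subtypePerm
          intro a ha
          by_contra hn
          exact ha (hσ a hn)
        have h3 := hinv τ (by
          rintro ⟨a, ha⟩
          have h4 := hχ a
          have h5 : σ a ∈ R := (hmem a).2 ha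
          simp only [χ, ha, h5, dif_pos] at h4
          apply Fin.ext
          exact h4)
        rw [rt_apply, hτ] at h3
        have hs : Equiv.Perm.sign τ = Equiv.Perm.sign σ := by
          conv_rhs => rw [← hτ]
          rw [Equiv.Perm.sign_ofSubtype]
        rw [hs] at h3
        have h6 := congrArg (fun w => ((Equiv.Perm.sign σ : ℤ) : K) • w) h3
        simp only [smul_smul, sq_sign, one_smul] at h6
        exact h6
  · intro Q hQ z hz hanti
    refine h2 (Q.map (Function.Embedding.subtype _)) ?_ ?_ z hz ?_
    · intro a ha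
      rw [mem_map] at ha
      obtain ⟨b, _, rfl⟩ := ha
      exact b.2
    · rw [card_map]
      exact hQ
    · intro σ hσ
      have hσR : Sup R σ := by
        intro a ha
        apply hσ
        intro hn
        rw [mem_map] at hn
        obtain ⟨b, _, rfl⟩ := hn
        exact ha b.2
      have hmem := sup_mem R σ hσR
      let τ : Equiv.Perm {x // x ∈ R} := σ.subtypePerm hmem
      have hτ : Equiv.Perm.ofSubtype τ = σ := by
        apply Equiv.Perm.ofSubtype_subtypePerm
        intro a ha
        by_contra hn
        exact ha (hσR a hn)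
      have h3 := hanti τ (by
        rintro ⟨a, ha⟩ hQa
        apply Subtype.ext
        show σ a = a
        apply hσ
        intro hn
        rw [mem_map] at hn
        obtain ⟨b, hb, hba⟩ := hn
        apply hQa
        have : b = ⟨a, ha⟩ := Subtype.ext hba
        rw [← this]
        exact hb)
      rw [rt_apply, hτ] at h3
      have h6 := congrArg (fun w => ((Equiv.Perm.sign τ : ℤ) : K) • w) h3
      simp only [smul_smul, sq_sign, one_smul] at h6
      exact h6

end Pool.Agent.Work.MP_1233f5_ag.Z
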