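import Pool.Agent.Work.MP_1233f5_ag.Z.Stmts

/-! MP_1233f5_ag, block Z: item [ZbE] (helper39). -/

set_option autoImplicit false

namespace Pool.Agent.Work.MP_1233f5_ag.Z

open Finset

namespace ZE

/-- one factor. -/
theorem fac {d s x : ℝ} (hd : 0 < d) (h1 : d < x) (h2 : x ≤ s) :
    Real.exp (d / s) ≤ x / (x - d) := by
  have hx : 0 < x := hd.trans h1
  have hs : 0 < s := hx.trans_le h2
  have h3 : Real.exp (d / s) ≤ Real.exp (d / x) :=
    Real.exp_le_exp.2 (div_le_div_of_nonneg_left hd.le hx h2)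
  refine h3.trans ?_
  have h4 : -(d / x) + 1 ≤ Real.exp (-(d / x)) := Real.add_one_le_exp _
  have h5 : 0 < 1 - d / x := by
    rw [sub_pos, div_lt_one hx]
    exact h1
  have h6 : Real.exp (d / x) ≤ (1 - d / x)⁻¹ := by
    rw [Real.exp_neg] at h4
    have h7 : 1 - d / x ≤ (Real.exp (d / x))⁻¹ := by linarith
    have h8 := inv_anti₀ h5 h7
    rwa [inv_inv] at h8
  refine h6.trans (le_of_eq ?_)
  have h7 : x - d ≠ 0 := by linarith
  field_simp

/-- the product. -/
theorem pro {d s : ℝ} {s0 : ℝ} {j : ℕ} (hd : 0 < d) (h1 : d ≤ s0) (h2 : s0 + j ≤ s) :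
    Real.exp (j * d / s) ≤ ∏ i ∈ range j, (s0 + (i + 1)) / (s0 + (i + 1) - d) := by
  have h3 : Real.exp (j * d / s) = ∏ i ∈ range j, Real.exp (d / s) := by
    rw [prod_const, card_range, ← Real.exp_nat_mul]
    congr 1
    ring
  rw [h3]
  refine prod_le_prod (fun i _ => (Real.exp_pos _).le) (fun i hi => ?_)
  have hi' : (i : ℝ) + 1 ≤ j := by
    have := mem_range.1 hi
    exact_mod_cast this
  have hi0 : (0 : ℝ) ≤ i := Nat.cast_nonneg i
  exact fac hd (by linarith) (by linarith)

/-- the final inequality. -/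
theorem fin {d L z : ℝ} (hd : 0 < d) (hL : 2 ≤ L) (h : d ≤ L * Real.exp (L - 1)) :
    d * z / L ≤ d + Real.exp (z - 2) := by
  have hL0 : 0 < L := by linarith
  by_cases hz : z ≤ L
  · have h1 : d * z / L ≤ d := by
      rw [div_le_iff₀ hL0]
      exact mul_le_mul_of_nonneg_left hz hd.le
    have h2 := Real.exp_pos (z - 2)
    linarith
  · have hz' : L < z := not_le.1 hz
    have h1 : z - L ≤ Real.exp (z - L - 1) := by
      have := Real.add_one_le_exp (z - L - 1)
      linarith
    have h2 : Real.exp (z - 2) = Real.exp (L - 1) * Real.exp (z - L - 1) := by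
      rw [← Real.exp_add]
      congr 1
      ring
    have h3 : d / L ≤ Real.exp (L - 1) := by
      rw [div_le_iff₀ hL0]
      linarith [mul_comm L (Real.exp (L - 1))]
    have h4 : d / L * (z - L) ≤ Real.exp (L - 1) * Real.exp (z - L - 1) :=
      mul_le_mul h3 h1 (by linarith) (Real.exp_pos _).le
    have h5 : d * z / L = d + d / L * (z - L) := by
      field_simp
      ring
    rw [h5, h2]
    linarith

end ZE

theorem pr_ZbE (hZ : S_Zb1) (hG : S_ZbG) : S_ZbE := by
  intro d t p v L hd ht hL hdL hv hp s hs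
  rcases Nat.lt_or_ge s (d + t) with hst | hst
  · exact (hZ d v).2.1 _ _ _ hst
  -- reals
  have hdR : (2 : ℝ) ≤ d := by exact_mod_cast hd
  have hd0 : (0 : ℝ) < d := by linarith
  have htR : (1 : ℝ) ≤ t := by exact_mod_cast ht
  have hsR : (d : ℝ) + t ≤ s := by exact_mod_cast hst
  have hs0 : (0 : ℝ) < s := by linarith
  have hspR : (s : ℝ) ≤ p := by exact_mod_cast hs
  have hL0 : 0 < L := by linarith
  have hpt : (p : ℝ) < t * d / 2 := by
    refine hp.trans_le ?_
    exact div_le_div_of_nonneg_left (by positivity) (by norm_num) hL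
  set C : ℝ := ((s : ℝ) - d - t) / d with hC
  have hC0 : 0 ≤ C := div_nonneg (by linarith) hd0.le
  set k : ℕ := ⌈C + s / d⌉₊ with hk
  have hsd0 : 0 ≤ (s : ℝ) / d := div_nonneg hs0.le hd0.le
  have hk1 : C + s / d ≤ k := Nat.le_ceil _
  have hk2 : (k : ℝ) < C + s / d + 1 := Nat.ceil_lt_add_one (by linarith)
  have hkt : k ≤ t := by
    rw [hk, Nat.ceil_le, hC, ← add_div, div_le_iff₀ hd0]
    nlinarith
  have hktR : (k : ℝ) ≤ t := by exact_mod_cast hkt
  -- the data
  obtain ⟨j, hj⟩ : ∃ j, t = k + j := ⟨t - k, by omega⟩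
  obtain ⟨s0, hs0e⟩ : ∃ s0, s = s0 + j := ⟨s - j, by omega⟩
  have hjR : (t : ℝ) = k + j := by exact_mod_cast hj
  have hsjR : (s : ℝ) = s0 + j := by exact_mod_cast hs0e
  have hds0 : d ≤ s0 := by omega
  have hds0R : (d : ℝ) ≤ s0 := by exact_mod_cast hds0
  have hCe : ((s0 : ℝ) - ((d + k : ℕ) : ℝ)) / d = C := by
    rw [hC]
    congr 1
    push_cast
    linarith
  have hvk : (k : ℝ) + 1 ≤ v (d + k) := by
    have h1 := hv (d + k) (by omega) (by omega)
    have h2 : k + 1 ≤ v (d + k) := by omega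
    exact_mod_cast h2
  have h1 : (1 : ℝ) + s / d ≤ v (d + k) - C := by linarith
  have hprod := ZE.pro (d := d) (s := s) (s0 := s0) (j := j) hd0 hds0R (by linarith)
  -- the exponent
  have hexp : (t : ℝ) * d / s - 2 ≤ j * d / s := by
    rw [sub_le_iff_le_add, div_add' _ _ _ hs0.ne', div_le_div_iff_of_pos_right hs0]
    have h2 : (k : ℝ) * d < (C + s / d + 1) * d := mul_lt_mul_of_pos_right hk2 hd0
    have h3 : (C + s / d + 1) * d = 2 * s - t := by
      rw [hC]
      field_simp
      ring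
    rw [hjR, add_mul]
    nlinarith
  have hmain : (t : ℝ) * d / L ≤ s + s / d * Real.exp (t * d / s - 2) := by
    have h2 := ZE.fin (z := (t : ℝ) * d / s) hd0 hL hdL
    have h3 : (t : ℝ) * d / L = s / d * (d * (t * d / s) / L) := by
      field_simp
    rw [h3]
    have h4 : s / d * (d * (t * d / s) / L) ≤ s / d * (d + Real.exp (t * d / s - 2)) :=
      mul_le_mul_of_nonneg_left h2 hsd0
    refine h4.trans (le_of_eq ?_)
    rw [mul_add]
    congr 1
    field_simp
  have hres := hG d v (d + k) s0 j (p - s) (by omega) (by omega) hds0 (by rw [hCe]; linarith) ?_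
  · rw [show d + k + j = d + t by omega, ← hs0e] at hres
    exact hres
  · rw [hCe]
    have hc : (((p - s : ℕ) : ℕ) : ℝ) = p - s := by
      rw [Nat.cast_sub hs]
    rw [hc]
    have h5 : s / d * Real.exp (t * d / s - 2) ≤ ((v (d + k) : ℝ) - C) *
        ∏ i ∈ range j, ((s0 : ℝ) + (i + 1)) / ((s0 : ℝ) + (i + 1) - d) := by
      refine mul_le_mul (by linarith) ?_ (Real.exp_pos _).le (by linarith)
      exact (Real.exp_le_exp.2 hexp).trans hprod
    linarith

end Pool.Agent.Work.MP_1233f5_ag.Z
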