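import Pool.Agent.Work.MP_1233f5_ag.Z.Defs

/-! MP_1233f5_ag, block Z (captain helper39): the statements of the items, with their proofs in the
docstrings.  Every item is a file `Z/I_<name>.lean` importing only this file (and, if wanted,
`Y.Util`, `Y.C_RedAB`, `Y.C_RedC`, `Y.C_Brg`) with a theorem `pr_<name> (h1 : S_..) ... : S_<name>`;
any earlier statement may be used as a hypothesis. -/

set_option autoImplicit false

namespace Pool.Agent.Work.MP_1233f5_ag.Z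

open Finset
open Pool.Agent.Work.MP_1233f5_ag.V (vm ML theta rVan)
open Pool.Agent.Work.MP_1233f5_ag.Y

/-! ### part C: CHAIN -/

/-- [CfAlc] contractions of alternating elements are alternating on the rest.
Proof: first `act σ (ctr (lapply e) y) = ctr (lapply (im σ e)) (act σ y)` (by `Lx_induction`, from
`ctr_ed_mul`, `act_mul`, `act_ed`); iterate for `cf`; `σ` moves only points of `R`, which is
disjoint from the `e i`, so `im σ (e i) = e i`. -/
def S_CfAlc : Prop :=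
  ∀ (K : Type) [Field K] (α : Type) [Fintype α] [DecidableEq α] (χ : α → ℕ) (m : ℕ)
    (e : ℕ → Finset α) (R : Finset α) (z : Lx K α), (∀ i < m, Disjoint (e i) R) →
    Alc χ R z → Alc χ R (cf m e z)

/-- [RedABc] coloured version of `S_RedAB` (adapt `Y/C_RedAB.lean`: there `y = x1 = Pr K r P m q z`
and the factors are `cf (m + 1) ... z`, alternating by `S_CfAlc`; `z` is antisymmetric under
`Sup Q`, `Q = {q 0, ..., q m}`, since `Q` has one colour). -/
def S_RedABc : Prop :=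
  ∀ (K : Type) [Field K] [CharZero K] (α : Type) [Fintype α] [DecidableEq α] (χ : α → ℕ)
    (r m j : ℕ) (P : Finset α) (q : ℕ → α), 1 ≤ r →
    (∀ i ≤ m, ∀ i' ≤ m, q i = q i' → i = i') → (∀ i ≤ m, q i ∈ P) →
    (∀ i ≤ m, χ (q i) = χ (q 0)) → ∀ z ∈ CyA K χ (r + 1) P j,
    ∃ y ∈ spE K r P m j q (CyA K χ (r + 1)), z - y ∈ spQ K r P m j q (Mt K (r + 1))

/-- [RedCc] coloured version of `S_RedC` (adapt `Y/C_RedC.lean`: the factors are `C q g z`,
a contraction of `z`, alternating by `S_CfAlc`).  `Q = {q 0, ..., q m}`; `z` is alternating for the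
permutations of `P \ Q`. -/
def S_RedCc : Prop :=
  ∀ (K : Type) [Field K] [CharZero K] (α : Type) [Fintype α] [DecidableEq α] (χ : α → ℕ)
    (r m j : ℕ) (P : Finset α) (q : ℕ → α), 1 ≤ r →
    (∀ i ≤ m, ∀ i' ≤ m, q i = q i' → i = i') → (∀ i ≤ m, q i ∈ P) →
    ∀ z ∈ Cy K (r + 1) P j, Alc χ (P \ (range (m + 1)).image q) z →
    z ∈ spQ K r P m j q (Mt K (r + 1)) → z ∈ spQ K r P m j q (CyA K χ (r + 1))

/-- [Av] averaging over the colour preserving permutations of `P \ Q`.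
Proof: `x' = (number)⁻¹ • ∑ sign σ • act σ x` over the `σ` with `Sup (P \ Q) σ`, `χ ∘ σ = χ`
(a subgroup): it fixes alternating elements; it maps `Cy`, `Bd` and `spQ (Mt)` to themselves
(`act_Cy_sup`, `act_Bd_sup`; `act σ (qn m q f * w) = qn m q (im σ ∘ f) * act σ w` because `σ` fixes
the `q i`).  So from `z = b + x` one gets `z = b' + x'`. -/
def S_Av : Prop :=
  ∀ (K : Type) [Field K] [CharZero K] (α : Type) [Fintype α] [DecidableEq α] (χ : α → ℕ)
    (r m j : ℕ) (P : Finset α) (q : ℕ → α), (∀ i ≤ m, q i ∈ P) → ∀ z ∈ CyA K χ (r + 1) P j,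
    z ∈ Bd K (r + 1) P j ⊔ spQ K r P m j q (Mt K (r + 1)) →
    ∃ x ∈ spQ K r P m j q (Mt K (r + 1)), z - x ∈ Bd K (r + 1) P j ∧
      x ∈ Cy K (r + 1) P j ∧ Alc χ (P \ (range (m + 1)).image q) x

/-- [EBd] `En m q f * w` with `w` a boundary.  Proof: `w = Dx l`, `l ∈ Mt (P \ es) (j - m)`;
`Dx (En * l) = Dx En * l + (-1)^(m+1) En * Dx l` and `Dx En = (-1)^m ∑ qn m q (skp k f)` (`S_ED`),
and `qn m q (skp k f) * l ∈ spQ (Mt)`. -/
def S_EBd : Prop :=
  ∀ (K : Type) [Field K] (α : Type) [DecidableEq α] (r m j : ℕ) (P : Finset α) (q : ℕ → α)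
    (f : ℕ → Finset α), EV r P m q f → m + 1 ≤ j →
    ∀ w ∈ Bd K (r + 1) (P \ es m q f) (j - (m + 1)),
    En m q f * w ∈ Bd K (r + 1) P j ⊔ spQ K r P m j q (Mt K (r + 1))

/-- [Chain] Theorem A of note 3833.  Proof: `|P| = c (r+1) + T + 1`, at most `s + 1` colours.
Pigeonhole: there is a colour `k` whose class `Q = P.filter (χ = k)` has
`|P| ≤ (s + 1) |Q|`, so `(|P| + s) / (s + 1) ≤ |Q|`.  Write `|Q| = m + 1`, `Q = {q 0, ..., q m}`.
`P \ Q` has at most `s` colours.  `S_RedABc`: `z = y + z'`, `y = ∑ En m q f * w`, `w` an alternating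
cycle on `|P| - (m+1)(r+1) = (c-(m+1))(r+1) + (T+1)` points outside `Q`: a boundary by the first
hypothesis; `S_EBd`.  `S_Av`, `S_RedCc`: modulo boundaries `z = ∑ qn m q f * w`, `w` an alternating
cycle on `(c-m)(r+1) + T` points outside `Q`: a boundary by the second hypothesis (with `m + 1` for
`m`), so `qn m q f * w` is a boundary (`Cy_mul_Bd`, `S_QCy`). -/
def S_Chain : Prop :=
  ∀ (K : Type) [Field K] [CharZero K] (r T s c : ℕ), 1 ≤ r →
    (∀ c' < c, ZV K (r + 1) (T + 1) s c') →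
    (∀ m, (c * (r + 1) + (T + 1) + s) / (s + 1) ≤ m → m ≤ c + 1 →
      ZV K (r + 1) T s (c + 1 - m)) →
    ZV K (r + 1) (T + 1) (s + 1) c

/-! ### part S: STAR -/

/-- [Cx1] `cx a x w` is a cycle.  Proof: membership clear (`mo_mem_Mt`); `Dx_mo`; in
`∑_σ sgn σ ∑_k (-1)^k mo (without k)` the terms of `σ` and `σ ∘ swap k (last)` cancel. -/
def S_Cx1 : Prop :=
  ∀ (K : Type) [Field K] (α : Type) [DecidableEq α] (r a : ℕ) (P : Finset α) (x : ℕ → α)
    (w : ℕ → Finset α), CV r P a x w → (cx a x w : Lx K α) ∈ Cy K (r + 1) P a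

/-- [Cx2] action of the permutations, symmetry in the points. -/
def S_Cx2 : Prop :=
  ∀ (K : Type) [Field K] (α : Type) [DecidableEq α] (a : ℕ) (x : ℕ → α) (w : ℕ → Finset α),
    (∀ σ : Equiv.Perm α, act K α σ (cx a x w) = cx a (fun i => σ (x i)) (fun i => im σ (w i))) ∧
    (∀ (x' : ℕ → α) (τ : Equiv.Perm (Fin a)), (∀ i : Fin a, x' (i : ℕ) = x ((τ i : Fin a) : ℕ)) →
      (cx a x' w : Lx K α) = cx a x w)

/-- [OmD] the differential of `Om`. -/
def S_OmD : Prop :=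
  ∀ (K : Type) [Field K] (α : Type) [DecidableEq α] (a : ℕ) (x : ℕ → α) (w : ℕ → Finset α),
    Dx (Om a x w : Lx K α) = ((-1 : K) ^ a) • ∑ k ∈ range (a + 1), cx a (skp k x) w

/-- [CxE] expansion of `cx (a + 1)` with respect to the last set. -/
def S_CxE : Prop :=
  ∀ (K : Type) [Field K] (α : Type) [DecidableEq α] (a : ℕ) (x : ℕ → α) (w : ℕ → Finset α),
    (cx (a + 1) x w : Lx K α) = Om a x w -
      ∑ k ∈ range (a + 1), (cx a (skp k x) w * ed (insert (x k) (w (a + 1))) : Lx K α)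

/-- [Dec] decomposition with respect to the point `y`.  Proof: `f w := ctr (lapply (insert y w)) z`
(in `Mt (R \ w) c`; `Dx (f w) = - ctr .. (Dx z) = 0` because `Dx z` does not contain `y`);
`z0 := z - ∑ ed (insert y w) * f w` has zero contractions with all sets containing `y`.
(By linearity one may first treat `z = mo t`.) -/
def S_Dec : Prop :=
  ∀ (K : Type) [Field K] (α : Type) [DecidableEq α] (r c : ℕ) (R : Finset α) (y : α), y ∉ R →
    ∀ z ∈ Mt K (r + 1) (insert y R) (c + 1), Dx z ∈ Mt K (r + 1) R c →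
    ∃ z0 ∈ Mt K (r + 1) R (c + 1), ∃ f : Finset α → Lx K α,
      (∀ w ∈ R.powersetCard r, f w ∈ Cy K (r + 1) (R \ w) c) ∧
      z = z0 + ∑ w ∈ R.powersetCard r, ed (insert y w) * f w ∧
      Dx z = Dx z0 + ∑ w ∈ R.powersetCard r, f w

/-- [Rel] the relation (R) of note 3833 (there with `a` for `a + 1`).  Proof: `y0 = x a`,
`R0 = P \ es a x w`; for `c = 0` the factor is a scalar and the sum is `± Dx (Om) * κ` (`S_OmD`);
for `c ≥ 1` decompose `κ = κ0 + ∑_{w'} [y0 w'] κ_{w'}` (`S_Dec` with `Dx κ = 0`), so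
`act (swap (x a) (x k)) κ = κ0 + ∑ [x k, w'] κ_{w'}`.  By `S_CxE` and `S_OmD` the sum is
`(-1)^a Dx (Om a x w * κ0) - ∑_{w'} cx (a + 1) x (w, w') * κ_{w'}`. -/
def S_Rel : Prop :=
  ∀ (K : Type) [Field K] (α : Type) [DecidableEq α] (r a c : ℕ) (P : Finset α)
    (x : ℕ → α) (w : ℕ → Finset α), 1 ≤ r → EV r P a x w →
    ∀ κ ∈ Cy K (r + 1) (insert (x a) (P \ es a x w)) c,
    ∑ k ∈ range (a + 1), (cx a (skp k x) w * act K α (Equiv.swap (x a) (x k)) κ : Lx K α) ∈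
      Bd K (r + 1) P (a + c) ⊔ Fx K r P (a + 1) (a + c)

/-- [FxA] `Fx` is stable under the permutations of `P` (from `S_Cx2`). -/
def S_FxA : Prop :=
  ∀ (K : Type) [Field K] (α : Type) [DecidableEq α] (r a p : ℕ) (P : Finset α)
    (σ : Equiv.Perm α), Sup P σ → ∀ z ∈ Fx K r P a p, act K α σ z ∈ Fx K r P a p

/-- [Gott] injectivity of the inclusion of `a`-sets in `(a+1)`-sets of a `(2a+1)`-set.  Proof: fix
`S`, `|S| = a`, and let `u i` be the sum of `g X'` over the `X'` with `|X' ∩ S| = a - i`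
(`X' ⊆ Z`, `|X'| = a`).  Summing the relation over the `Z'` with `|Z' ∩ S| = a - i` gives
`(a + 1 - i) u i + (i + 1) u (i + 1) = 0` for `0 ≤ i ≤ a`, and `u (a + 1) = 0`.  So `u i = 0`. -/
def S_Gott : Prop :=
  ∀ (K : Type) [Field K] [CharZero K] (α : Type) [DecidableEq α] (H : Type) [AddCommGroup H]
    [Module K H] (a : ℕ) (Z : Finset α) (g : Finset α → H), Z.card = 2 * a + 1 →
    (∀ Z' ⊆ Z, Z'.card = a + 1 → ∑ y ∈ Z', g (Z'.erase y) = 0) →
    ∀ S ⊆ Z, S.card = a → g S = 0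

/-- [RepT] the generation theorem for `Perm R`, twisted by the sign.  From `V.S_Rep` with the type
`↥R`, `ρ' σ = sign σ • ρ (ofSubtype σ)`: `Inv ρ' π` becomes alternating for the colouring `π`
(extended by any colour of `R`, or by `0`, outside `R`), `Anti ρ' Y` becomes invariant under
`Sup Y`. -/
def S_RepT : Prop :=
  ∀ (K : Type) [Field K] [CharZero K] (α : Type) [Fintype α] [DecidableEq α] (H : Type)
    [AddCommGroup H] [Module K H] (ρ : Equiv.Perm α →* Module.End K H) (R : Finset α)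
    (Z B : Submodule K H) (n : ℕ), (∀ σ, Sup R σ → ∀ z ∈ Z, ρ σ z ∈ Z) →
    (∀ σ, Sup R σ → ∀ z ∈ B, ρ σ z ∈ B) →
    (∀ χ : α → ℕ, (R.image χ).card ≤ n → ∀ z ∈ Z, (∀ σ, Sup R σ → (∀ a, χ (σ a) = χ a) →
      ρ σ z = ((Equiv.Perm.sign σ : ℤ) : K) • z) → z ∈ B) →
    (∀ Y ⊆ R, Y.card = n + 1 → ∀ z ∈ Z, (∀ σ, Sup Y σ → ρ σ z = z) → z ∈ B) → Z ≤ B

/-- [XInv] invariance.  Proof: `X = {x 0, ..., x (a-1)}`; `σ` preserves `X` and `Y`; `σ = σ1 σ2`
with `Sup X σ1`, `Sup Y σ2`: `σ2` fixes `x i`, `w i` and `κ`, so it fixes the product; `σ1` fixes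
`w i` and `κ` (`act_eq_self`) and permutes the `x i`, and `cx` is symmetric in the points
(`S_Cx2`). -/
def S_XInv : Prop :=
  ∀ (K : Type) [Field K] [CharZero K] (α : Type) [Fintype α] [DecidableEq α] (r a c : ℕ)
    (P : Finset α) (x : ℕ → α) (w : ℕ → Finset α), CV r P a x w →
    ∀ κ ∈ Cy K (r + 1) (P \ cp a x w) c, ∀ Y ⊆ P \ cp a x w,
    (∀ σ, Sup Y σ → act K α σ κ = κ) →
    ∀ σ : Equiv.Perm α, Sup ((range a).image x ∪ Y) σ →
      im σ ((range a).image x) = (range a).image x →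
      act K α σ (cx a x w * κ) = cx a x w * κ

/-- [XSym] the symmetric case.  Proof: `X = {x 0, ..., x (a-1)}`, `Z = X ∪ Y`, `|Z| = 2a+1`,
`B' = Bd ⊔ Fx (a+1)`, stable (`act_Bd_sup`, `S_FxA`).  By `S_XInv`
`g X' := class of act σ (cx a x w * κ)`, any `σ` with `Sup Z σ`, `im σ X = X'`, is well defined.
For `Z' = {z 0, ..., z a} ⊆ Z` choose `τ` with `Sup Z τ`, `τ (x i) = z i` for `i < a`, and a point
of `Y` mapped to `z a`; apply `S_Rel` with `z` for `x` and `act τ κ`: the `k`-th term is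
`act (swap (z a) (z k) * τ) (cx a x w * κ)` (symmetry of `cx` in the points), of class
`g (Z'.erase (z k))`.  `S_Gott`. -/
def S_XSym : Prop :=
  ∀ (K : Type) [Field K] [CharZero K] (α : Type) [Fintype α] [DecidableEq α] (r a c : ℕ)
    (P : Finset α) (x : ℕ → α) (w : ℕ → Finset α), 1 ≤ r → CV r P a x w →
    ∀ κ ∈ Cy K (r + 1) (P \ cp a x w) c, ∀ Y ⊆ P \ cp a x w, Y.card = a + 1 →
    (∀ σ, Sup Y σ → act K α σ κ = κ) →
    cx a x w * κ ∈ Bd K (r + 1) P (a + c) ⊔ Fx K r P (a + 1) (a + c)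

/-- [XF] the step.  Proof: for `a ≤ p` and valid `x, w` put `R = P \ cp a x w`,
`|R| = (p - a)(r + 1) + T'`, `Z = Cy R (p - a)`, `B = {κ | cx a x w * κ ∈ Bd P p ⊔ Fx (a+1) p}`.
`S_RepT` with `n = a`: alternating cycles for `≤ a` colours are boundaries, and
`cx * boundary ∈ Bd` (`Cy_mul_Bd`, `S_Cx1`); symmetric ones by `S_XSym`.  `B` is stable under
`Sup R` because `act σ (cx a x w) = cx a x w`. -/
def S_XF : Prop :=
  ∀ (K : Type) [Field K] [CharZero K] (α : Type) [Fintype α] [DecidableEq α] (r T a p : ℕ)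
    (P : Finset α), 1 ≤ r → P.card = p * (r + 1) + (T + r) →
    (a ≤ p → ZV K (r + 1) T a (p - a)) →
    Fx K r P a p ≤ Bd K (r + 1) P p ⊔ Fx K r P (a + 1) p

/-- [XA] start.  Proof: `x0 ∉ P`; `z ∈ Cy P p` is a cycle on `insert x0 P`, so `z = Dx y` with
`y ∈ Mt (insert x0 P) (p + 1)`; `S_Dec`: `z = Dx z0 + ∑ f w`, `f w ∈ Cy (P \ w) p ≤ Fx P 0 p`
(`cx 0 x w = 1`). -/
def S_XA : Prop :=
  ∀ (K : Type) [Field K] (α : Type) [DecidableEq α] (r p : ℕ) (P : Finset α) (x0 : α), x0 ∉ P →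
    Cy K (r + 1) (insert x0 P) p ≤ Bd K (r + 1) (insert x0 P) p →
    Cy K (r + 1) P p ≤ Bd K (r + 1) P p ⊔ Fx K r P 0 p

/-- [BrG] functions on tuples and elements of the exterior algebra (the argument of
`Y/C_Brg.lean`, which is the direction `←` for `P = univ`, in both directions). -/
def S_BrG : Prop :=
  ∀ (K : Type) [Field K] [CharZero K] (α : Type) [Fintype α] [DecidableEq α] (d p : ℕ)
    (P : Finset α), rVan K (univ : Finset (Finset α)) (vm d P) p ↔ Cy K d P p ≤ Bd K d P p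

/-- [Rlb] relabelling and the relation with `ML` (from `S_BrG` and `V.S_Tr`). -/
def S_Rlb : Prop :=
  ∀ (K : Type) [Field K] [CharZero K] (d T p : ℕ),
    (ML K d T p ↔ VV K d T p) ∧
    (∀ (α : Type) [Fintype α] [DecidableEq α] (P : Finset α), P.card = p * d + T →
      Cy K d P p ≤ Bd K d P p → VV K d T p)

/-- [Star] Theorem B of note 3833.  Proof: take `α = Fin (p d + T + r + 1)` (`d = r + 1`),
`P = univ.erase 0`; `S_XA`, then `S_XF` for `a = 0, ..., p`, and `Fx (p + 1) p = ⊥`; `S_Rlb`. -/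
def S_Star : Prop :=
  ∀ (K : Type) [Field K] [CharZero K] (r T p : ℕ), 1 ≤ r → VV K (r + 1) (T + r + 1) p →
    (∀ a ≤ p, ZV K (r + 1) T a (p - a)) → VV K (r + 1) (T + r) p

/-! ### part N: the recursion -/

/-- [Zb1] facts on `zb`, `fb`: monotone in `c`, true for `s < T`, dependence on `v`, and
`fb` is increasing in `T` (for `s = 0` clear; for `s + 1`: `m ≥ 1`, so `n + 1 - m ≤ n ≤ p - s`). -/
def S_Zb1 : Prop :=
  ∀ (d : ℕ) (v : ℕ → ℕ), (∀ T s c c', zb d v T s c → c' ≤ c → zb d v T s c') ∧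
    (∀ T s c, s < T → zb d v T s c) ∧
    (∀ (v' : ℕ → ℕ) T, (∀ T' ≤ T, v T' = v' T') → ∀ s c, zb d v T s c → zb d v' T s c) ∧
    (∀ T p, fb d v T p → fb d v (T + 1) p)

/-- [ZbS] soundness.  Induction on `T` (for all `s`), inner strong induction on `c`.  `T = 0`:
nothing.  `s = 0`: `P` is empty, contradiction.  `(T + 1, s + 1, c)`: the definition with `n = c`:
`c < v (T+1)`: `VV`; otherwise `S_Chain` with the inner induction hypothesis (fewer colours) and the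
outer one (monotone in `c`, `S_Zb1`). -/
def S_ZbS : Prop :=
  ∀ (K : Type) [Field K] [CharZero K] (d : ℕ) (v : ℕ → ℕ), 2 ≤ d →
    (∀ T n, n < v T → VV K d T n) → ∀ T s c, zb d v T s c → ZV K d T s c

/-- [BGr] growth of the old bound (numerical; `theta d T + d ≥ T + 1`). -/
def S_BGr : Prop := ∀ d T : ℕ, 3 ≤ d → T + 1 ≤ bnd3 d T + d

/-- [StarF] descending induction.  Proof: `p < bnd3 d T'` for `T'` large (`S_BGr`, `S_Main3`,
`S_Rlb`): `VV K d T' p`.  Downwards with `S_Star`: `fb d v (T' + 1 - d) p` for all `T' ≥ T` by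
`S_Zb1`, and `S_ZbS`.  (Here `d = r + 1`, place `T + r`.) -/
def S_StarF : Prop :=
  ∀ (K : Type) [Field K] [CharZero K] (r : ℕ) (v : ℕ → ℕ), 2 ≤ r →
    (∀ T n, n < v T → VV K (r + 1) T n) → ∀ T p, fb (r + 1) v T p → VV K (r + 1) (T + r) p

/-- [MainZ] the main theorem.  Strong induction on `T`: `∀ p < vb d T, ML K d T p`.  Since
`vs d (T - 1)` is sound (`= vb` at the places `≤ T - 1`, else `0`), the second part of `nv` is
`S_StarF`, the first is as in `prf_Main3` (`V.S_Step`; inner induction on `p`), with `theta` at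
`T = 2 d - 1` from `S_Main3` (there `bnd3 d (2 d - 1) = theta d (2 d - 1)`). -/
def S_MainZ : Prop :=
  ∀ (K : Type) [Field K] [CharZero K] (d T p : ℕ), 3 ≤ d → p < vb d T → ML K d T p

/-- [VbG] comparison with the old bound (induction on `T`). -/
def S_VbG : Prop := ∀ d T : ℕ, 3 ≤ d → bnd3 d T ≤ vb d T

/-- [ZbG] growth along a diagonal.  Induction on `j`, claim for all `c`: if
`c - C < (v T0 - C) ∏_{i=1..j} (s0 + i) / (s0 + i - d)` then `zb d v (T0 + j) (s0 + j) c`, where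
`C = (s0 - T0) / d`.  Step: `n ≤ c`, `s = s0 + j + 1`, `T = T0 + j + 1`, `m ≥ (n d + T) / s`,
`(n + 1 - m) - C ≤ (n - C) (1 - d / s)`. -/
def S_ZbG : Prop :=
  ∀ (d : ℕ) (v : ℕ → ℕ) (T0 s0 j c : ℕ), 1 ≤ d → 1 ≤ T0 → d ≤ s0 →
    (((s0 : ℝ) - T0) / d) < v T0 →
    (c : ℝ) - ((s0 : ℝ) - T0) / d < ((v T0 : ℝ) - ((s0 : ℝ) - T0) / d) *
      ∏ i ∈ range j, ((s0 : ℝ) + (i + 1)) / ((s0 : ℝ) + (i + 1) - d) →
    zb d v (T0 + j) (s0 + j) c

/-- [ZbE] the exponential form.  `T = d + t`, `v T0 ≥ T0 + 1 - d` for `d ≤ T0 ≤ d + t`.  If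
`t ≥ 1`, `2 ≤ L`, `d ≤ L e^(L-1)` and `p < t d / L` then `fb d v (d + t) p`.
Proof: `s ≤ p`; `s < d + t`: `S_Zb1`.  Let `s ≥ d + t`, `C = (s - d - t) / d ≥ 0`,
`k = ⌈C + s / d⌉₊ ≤ t` (since `s < t d / 2`), `T0 = d + k`, `j = t - k`, `s0 = s - j`; `S_ZbG`:
`v T0 - C ≥ k + 1 - C ≥ 1 + s / d`, the product is `≥ exp (j d / s)` (`1 - y ≤ e^(-y)`) and
`j d / s ≥ t d / s - 2` (from `k < C + s / d + 1`).  So it suffices
`t d / L ≤ s + (s / d) exp (t d / s - 2)`, i.e. with `z = t d / s`: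
`d z / L ≤ d + e^(z - 2)`: clear for `z ≤ L`; for `z ≥ L`, `e^(z-2) ≥ e^(L-1) (z - L)` and
`e^(L-1) ≥ d / L`. -/
def S_ZbE : Prop :=
  ∀ (d t p : ℕ) (v : ℕ → ℕ) (L : ℝ), 2 ≤ d → 1 ≤ t → 2 ≤ L → (d : ℝ) ≤ L * Real.exp (L - 1) →
    (∀ T, d ≤ T → T ≤ d + t → T + 1 ≤ v T + d) → (p : ℝ) < t * d / L → fb d v (d + t) p

/-- [CF] the closed form.  `F = ⌈t d / L⌉₊ ≤ 2 ^ (2 d + t)`; all `p < F` satisfy
`p < t d / L`; `S_ZbE` with `v = vs d (2 d - 2 + t)` (`S_VbG`, `S_BGr`), so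
`Nat.le_findGreatest` gives `F ≤ vb d (2 d - 1 + t)`. -/
def S_CF : Prop :=
  ∀ (d t : ℕ) (L : ℝ), 3 ≤ d → 2 ≤ L → (d : ℝ) ≤ L * Real.exp (L - 1) →
    (t : ℝ) * d / L ≤ vb d (2 * d - 1 + t)

end Pool.Agent.Work.MP_1233f5_ag.Z
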